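import Pool.Agent.P.MP_cc10d1_gt.UL.TLAW

/-! The joint limit law from the convergence of all point masses and a second moment bound. -/

set_option autoImplicit false

namespace Pool.Agent.P.MP_cc10d1_gt.UL

open Finset Filter Topology T R

theorem tendsto_em_sum {K : Type} (t : Finset K) {F : K → Fn} {μ : K → ℝ} (c : K → ℝ)
    (h : ∀ k, Tendsto (em (F k)) FF (𝓝 (μ k))) :
    Tendsto (em (∑ k ∈ t, c k • F k)) FF (𝓝 (∑ k ∈ t, c k * μ k)) := by
  classical
  induction t using Finset.induction_on with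
  | empty => exact tendsto_const_nhds.congr fun i => (em_zero i).symm
  | insert a t ha ih =>
    rw [sum_insert ha, sum_insert ha]
    exact (((h a).const_mul _).add ih).congr fun i => by rw [em_add, em_smul]

/-- The indicator of a value. -/
noncomputable def pt {K : Type} (a : ∀ n, Br n → K) (k : K) : Fn :=
  fun n b => ind (fun b => a n b = k) b

theorem law_key {J : Type} [Fintype J] (a : ∀ n, Br n → J → ℕ) {μ : (J → ℕ) → ℝ}
    (hμ : ∀ k, Tendsto (em (pt a k)) FF (𝓝 (μ k))) (h2 : ∀ j, (fun n b => (a n b j : ℝ) ^ 2) ∈ Good)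
    (g : (J → ℕ) → ℝ) (m : ℝ) (g0 : ∀ k, 0 ≤ g k) (g1 : ∀ k i, k i * g k ≤ ∑ j, (k j : ℝ) ^ 2)
    (hm : Tendsto (em fun n b => g (a n b)) FF (𝓝 m)) : HasSum (fun k => g k * μ k) m := by
  classical
  have := LAWaux.neBot
  obtain ⟨C, hC⟩ := good_bdd (sum_mem (t := univ) fun j _ => h2 j)
  refine Metric.tendsto_atTop.2 fun ε hε => ?_
  obtain ⟨N, hN⟩ := exists_nat_gt (|C| / ε)
  have N0 : (0 : ℝ) < N := lt_of_le_of_lt (by positivity) hN
  refine ⟨Fintype.piFinset fun _ => range N, fun t ht => ?_⟩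
  have e : ∀ n b, (∑ k ∈ t, g k • pt a k) n b = if a n b ∈ t then g (a n b) else 0 := fun n b => by
    simp only [Finset.sum_apply, Pi.smul_apply, smul_eq_mul, pt, ind, mul_ite, mul_one, mul_zero]
    convert sum_ite_eq t (a n b) g
  have a1 := tendsto_em_sum t g hμ
  have a2 := le_of_tendsto_of_tendsto a1 hm (em_mono fun n b _ => by
    rw [e]; split_ifs; exacts [le_rfl, g0 _])
  have a3 := em_mono (F := fun n b => g (a n b)) (G := ∑ k ∈ t, g k • pt a k +
      (N : ℝ)⁻¹ • ∑ j, fun n b => (a n b j : ℝ) ^ 2) fun n b _ => by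
    rw [Pi.add_apply, Pi.add_apply, e]
    simp only [Pi.smul_apply, Finset.sum_apply, smul_eq_mul]
    split_ifs with h
    · exact le_add_of_nonneg_right (by positivity)
    · obtain ⟨i, hi⟩ : ∃ i, N ≤ a n b i := by
        by_contra hc
        exact h (ht (Fintype.mem_piFinset.2 fun i =>
          mem_range.2 (not_le.1 fun h' => hc ⟨i, h'⟩)))
      rw [zero_add, le_inv_mul_iff₀ N0]
      exact (mul_le_mul_of_nonneg_right (Nat.cast_le.2 hi) (g0 _)).trans (g1 _ i)
  have a4 : m ≤ ∑ k ∈ t, g k * μ k + (N : ℝ)⁻¹ * C := by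
    refine le_of_tendsto_of_tendsto hm (a1.add_const _) ?_
    filter_upwards [a3, hC] with i b1 b2
    rw [em_add, em_smul] at b1
    exact b1.trans (add_le_add le_rfl (mul_le_mul_of_nonneg_left b2 (by positivity)))
  have a5 : (N : ℝ)⁻¹ * C < ε := by
    rw [inv_mul_lt_iff₀ N0]
    exact (le_abs_self C).trans_lt ((div_lt_iff₀ hε).1 hN)
  rw [Real.dist_eq, abs_lt]
  constructor <;> linarith

theorem law_joint {J : Type} [Finite J] (a : ∀ n, Br n → J → ℕ) (M : J → ℝ)
    (hg : ∀ k, pt a k ∈ Good) (h2 : ∀ j, (fun n b => (a n b j : ℝ) ^ 2) ∈ Good)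
    (hM : ∀ j, Tendsto (em fun n b => a n b j) FF (𝓝 (M j))) :
    ∃ μ : (J → ℕ) → ℝ, (∀ k, 0 ≤ μ k) ∧ HasSum μ 1 ∧
      (∀ j, HasSum (fun k : J → ℕ => k j * μ k) (M j)) ∧
      ∀ k, Tendsto (em (pt a k)) FF (𝓝 (μ k)) := by
  have := Fintype.ofFinite J
  have := LAWaux.neBot
  choose μ hμ using hg
  have sq : ∀ (k : J → ℕ) i, (k i : ℝ) ^ 2 ≤ ∑ j, (k j : ℝ) ^ 2 := fun k i =>
    single_le_sum (f := fun j => (k j : ℝ) ^ 2) (fun _ _ => sq_nonneg _) (mem_univ i)
  refine ⟨μ, fun k => ge_of_tendsto (hμ k) ((em_mono (F := 0) fun n b _ => ind_nonneg _ _).mono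
    fun i hi => (em_zero i).ge.trans hi), ?_, fun j => law_key a hμ h2 (fun k => k j) _
      (fun _ => Nat.cast_nonneg _) (fun k i => ?_) (hM j), hμ⟩
  · simpa using law_key a hμ h2 (fun _ => 1) 1 (fun _ => zero_le_one) (fun k i => by
      rw [mul_one]
      exact le_trans (by exact_mod_cast Nat.le_self_pow two_ne_zero (k i)) (sq k i)) LAWaux.em_one
  · nlinarith [sq k i, sq k j, sq_nonneg ((k i : ℝ) - k j)]

end Pool.Agent.P.MP_cc10d1_gt.UL
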