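import Pool.Agent.P.MP_cc10d1_gt.UL.TCONV
import Pool.Agent.P.MP_cc10d1_gt.UL.JLaw

/-! Joint convergence of the numbers of fixed tuples for finitely many quandles. -/

set_option autoImplicit false

namespace Pool.Agent.P.MP_cc10d1_gt.UL

open Finset Filter Topology T R CONVaux

theorem adm_pt (hPOW : S_POW) (hTR : S_TR) (hIND : S_IND) (X : Type) [Quandle X] [Finite X]
    (k : ℕ) : eqw (na fun _ : X => (default : Lab Unit)) k ∈ Adm (Lab Unit) := by
  have : Finite (CS X) := inferInstanceAs (Finite {Y : Set X // _})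
  have := Fintype.ofFinite (CS X)
  set p : X → Lab Unit := fun _ => default
  have hpow : ∀ j : ℕ, cw (na p) ^ j ∈ Adm (Lab Unit) := fun j => by
    rw [cw_na]; exact hPOW X _ p (hom_pt p) 1 adm_one Bd.one j
  refine hTR _ (na p) hpow (cw (na p)) (by simpa using hpow 1) (fun M => ?_) k
  let q : ∀ Y : CS X, Sub Y → Lab Unit := fun _ _ => default
  refine ⟨fun n b x => ∀ Y ∈ (univ : Finset (CS X)), nf (q Y) n b x ≤ M,
    Fintype.card (CS X) * M, adm_all _ (fun Y => adm_le (hIND _ _ (q Y) (hom_pt _) fun _ =>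
      Y.2.1.elim fun a ha => ⟨⟨a, ha⟩, Subsingleton.elim _ _⟩) M) _, fun n b x hb _ => ?_⟩
  have e : na p n b x = ∑ Y : CS X, nf (q Y) n b x := by
    rw [na_pt, card_fix b hb, Nat.card_sigma]
    exact sum_congr rfl fun Y _ => (nf_pt _ n b x).symm
  refine ⟨fun hP => ?_, Nat.cast_nonneg _, fun hP => ?_⟩
  · rw [e]
    exact (sum_le_card_nsmul _ _ _ hP).trans_eq (by rw [card_univ, smul_eq_mul])
  · push Not at hP
    obtain ⟨Y, hY, hM⟩ := hP
    refine Nat.cast_le.2 (hM.le.trans ?_)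
    rw [e]
    exact single_le_sum (f := fun Y => nf (q Y) n b x) (fun _ _ => Nat.zero_le _) hY

theorem joint (hBASE : S_BASE) (hPOW : S_POW) (hTR : S_TR) (hIND : S_IND) (hCONV : S_CONV)
    (J : Type) [Finite J] (X : J → Type) [∀ j, Quandle (X j)] [∀ j, Finite (X j)] :
    ∃ μ : (J → ℕ) → ℝ, (∀ k, 0 ≤ μ k) ∧ HasSum μ 1 ∧
      (∀ j, HasSum (fun k : J → ℕ => k j * μ k)
        (Nat.card (Σ Y : CS (X j), commutator (Rack.EnvelGroup (Sub Y))))) ∧
      ∀ k, Tendsto (em (pt (fun n b j => Nat.card {x // rho (X j) n b x = x}) k)) FF (𝓝 (μ k)) := by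
  have := Fintype.ofFinite J
  refine law_joint _ _ (fun k => ?_) (fun j => (hCONV (X j)).2)
    fun j => tendsto_of_lim (lim_all (X j))
  refine good_congr (fun n b _ => ?_) (good_pt hBASE
    (adm_all _ (fun j => adm_pt hPOW hTR hIND (X j) (k j)) univ))
  by_cases h : (fun j => Nat.card {x // rho (X j) n b x = x}) = k
  · exact (iw_pos fun j _ => (na_pt _ _ _ _).trans (congrFun h j)).trans (ind_pos h).symm
  · exact (iw_neg fun h' => h (funext fun j =>
      (na_pt _ _ _ _).symm.trans (h' j (mem_univ j)))).trans (ind_neg h).symm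

end Pool.Agent.P.MP_cc10d1_gt.UL
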