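import Pool.Agent.P.MP_cc10d1_gt.UL.Iface

/-! Step AB. -/

set_option autoImplicit false
set_option linter.unusedSectionVars false

namespace Pool.Agent.P.MP_cc10d1_gt.UL

open Finset Filter Topology T R Quandles Rack
open scoped commutatorElement

theorem p_AB (hPOW : S_POW) (hCST : S_CST) (hTR : S_TR) (hABL : S_ABL) (hLADM : S_LADM) :
    S_AB := by
  intro Y Y0 H _ _ _ _ _ _ e ρ N p hm hN
  obtain ⟨F, V, _, _, _, _, _, σ, hI, hle⟩ := hABL Y Y0 H e ρ N p hm hN
  refine hTR Y0 (nf p) (fun j => ?_) (cw (na (lp σ))) ?_ fun M => ?_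
  · rw [cw_nf]
    exact hPOW Y Y0 p hm.hom _ (hCST.2.1 Y) (bd_iw _) j
  · have := hPOW (LQ σ) Y0 (lp σ) (isHom_lp σ) 1 adm_one Bd.one 1
    rwa [pow_one, ← cw_na] at this
  · refine ⟨fun n b x => ¬ TFull x ∨ na (lp σ) n b x ≤ M, Nat.card Y * M, ?_,
      fun n b x hb hx => ⟨fun h => ?_, Nat.cast_nonneg _, fun h => ?_⟩⟩
    · have : iw (fun n b (x : Fin (n + 1) → Y0) => ¬ TFull x ∨ na (lp σ) n b x ≤ M) =
          1 - full Y0 + ∑ m ∈ range (M + 1), full Y0 * eqw (na (lp σ)) m := by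
        classical
        funext n b x
        by_cases h1 : TFull x <;>
          simp [Finset.sum_apply, eqw_apply, iw_apply, full, h1]
      rw [this]
      exact add_mem (sub_mem adm_one (hCST.2.1 Y0)) (sum_mem fun m _ => hLADM Y0 F V σ hI m)
    · rcases h with h | h
      · have : IsEmpty {y : Fin (n + 1) → Y // (rho Y n b y = y ∧ p ∘ y = x) ∧ TFull y} :=
          ⟨fun y => h (y.2.1.2 ▸ full_map hm.hom hm.sur y.2.2)⟩
        exact (Nat.card_of_isEmpty (α := {y : Fin (n + 1) → Y //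
          (rho Y n b y = y ∧ p ∘ y = x) ∧ TFull y})).le.trans (Nat.zero_le _)
      · exact (hle n b x hb).trans (Nat.mul_le_mul_left _ h)
    · exact Nat.cast_le.2 (not_le.1 fun h' => h (Or.inr h')).le

end Pool.Agent.P.MP_cc10d1_gt.UL
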