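import Pool.Agent.P.MP_cc10d1_gt.UL.Iface

/-! Step ABL. -/

set_option autoImplicit false
set_option linter.unusedSectionVars false

namespace Pool.Agent.P.MP_cc10d1_gt.UL

open Finset Filter Topology T R Quandles Rack
open scoped commutatorElement

namespace ABLaux

variable {H : Type} [Group H] {N : Subgroup H}

theorem comm (h : ⁅N, N⁆ = ⊥) {a b : H} (ha : a ∈ N) (hb : b ∈ N) : a * b = b * a :=
  commutatorElement_eq_one_iff_mul_comm.1
    (Subgroup.mem_bot.1 (h ▸ Subgroup.commutator_mem_commutator ha hb))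

/-- The subgroup as an additive group. -/
def VV (N : Subgroup H) (_h : ⁅N, N⁆ = ⊥) : Type := Additive N

variable {h : ⁅N, N⁆ = ⊥}

instance : AddCommGroup (VV N h) :=
  { (inferInstance : AddGroup (Additive N)) with
    add_comm := fun a b => Subtype.ext (comm h (Additive.toMul a).2 (Additive.toMul b).2) }

instance [Finite H] : Finite (VV N h) := inferInstanceAs (Finite N)

/-- The group element of a vector. -/
def vl (v : VV N h) : H := (Additive.toMul v : N).1

/-- The vector of a group element. -/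
def mkv (h : ⁅N, N⁆ = ⊥) (g : H) (hg : g ∈ N) : VV N h := Additive.ofMul ⟨g, hg⟩

theorem vl_mem (v : VV N h) : vl v ∈ N := (Additive.toMul v : N).2
theorem vl_inj {v w : VV N h} (e : vl v = vl w) : v = w := Subtype.ext e
theorem vl_mkv (g : H) (hg : g ∈ N) : vl (mkv h g hg) = g := rfl
theorem vl_add (v w : VV N h) : vl (v + w) = vl v * vl w := rfl
theorem vl_neg (v : VV N h) : vl (-v) = (vl v)⁻¹ := rfl
theorem vl_sub (v w : VV N h) : vl (v - w) = vl v * (vl w)⁻¹ := by
  rw [sub_eq_add_neg, vl_add, vl_neg]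

/-- Conjugation. -/
def cj (h : ⁅N, N⁆ = ⊥) (hN : N.Normal) (a : H) : VV N h ≃+ VV N h where
  toFun v := mkv h (a * vl v * a⁻¹) (hN.conj_mem _ (vl_mem v) a)
  invFun v := mkv h (a⁻¹ * vl v * a) (hN.conj_mem' _ (vl_mem v) a)
  left_inv v := vl_inj (by simp only [vl_mkv]; group)
  right_inv v := vl_inj (by simp only [vl_mkv]; group)
  map_add' v w := vl_inj (by simp only [vl_mkv, vl_add]; group)

theorem vl_cj (hN : N.Normal) (a : H) (v : VV N h) : vl (cj h hN a v) = a * vl v * a⁻¹ := rfl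

theorem card_le {A B : Type} [Finite A] [Finite B] (U : A → B) (m : ℕ)
    (hm : ∀ a, Nat.card {a' // U a' = U a} ≤ m) : Nat.card A ≤ m * Nat.card B := by
  classical
  have := Fintype.ofFinite A
  have := Fintype.ofFinite B
  rw [Nat.card_eq_fintype_card, Nat.card_eq_fintype_card]
  refine card_le_mul_card_image_of_maps_to (f := U) (fun _ _ => mem_univ _) m fun b _ => ?_
  rcases (univ.filter fun a => U a = b).eq_empty_or_nonempty with e | ⟨a, ha⟩
  · rw [e]; exact Nat.zero_le _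
  · obtain rfl := (mem_filter.1 ha).2
    have := hm a
    rwa [Nat.card_eq_fintype_card, Fintype.card_subtype] at this

end ABLaux

open ABLaux in
theorem p_ABL (hHOL : S_HOL) (hFLD : S_FLD) :
    S_ABL := by
  intro Y Y0 H _ _ _ _ _ _ e ρ N p d h
  let s : Y0 → VV N h ≃+ VV N h := fun z => cj h d.nor (e (Function.surjInv d.sur z))
  have key : ∀ y v, vl (s (p y) v) = e y * vl v * (e y)⁻¹ := by
    intro y v
    obtain ⟨g, hg, e1⟩ := (d.fib y _).1 (Function.surjInv_eq d.sur (p y)).symm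
    have a1 := comm h hg (vl_mem v)
    have a2 := comm h hg (d.nor.conj_mem _ (vl_mem v) (e y))
    rw [vl_cj, ← e1, d.inn.conj]
    calc g * e y * g⁻¹ * vl v * (g * e y * g⁻¹)⁻¹
        = g * (e y * (g⁻¹ * (vl v * g)) * (e y)⁻¹) * g⁻¹ := by group
      _ = _ := by rw [← a1, inv_mul_cancel_left, a2, mul_inv_cancel_right]
  obtain ⟨F, _, _, _, σ, hI, hσ⟩ := hFLD Y0 (VV N h) s (fun a b v => by
      obtain ⟨a, rfl⟩ := d.sur a
      obtain ⟨b, rfl⟩ := d.sur b
      refine vl_inj ?_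
      rw [← d.hom, key, key, key, key, d.inn.he.conj]
      group)
    (by
      obtain ⟨g, hg, y, hy⟩ := d.nc
      refine ⟨p y, mkv h g hg, fun a => hy ?_⟩
      have := congrArg vl a
      rw [key, vl_mkv] at this
      exact mul_inv_eq_iff_eq_mul.1 this)
    (fun M hM => by
      let M' : Subgroup H :=
        { carrier := {g | ∃ v ∈ M, vl v = g}
          mul_mem' := by
            rintro _ _ ⟨v, hv, rfl⟩ ⟨w, hw, rfl⟩
            exact ⟨v + w, add_mem hv hw, rfl⟩
          one_mem' := ⟨0, zero_mem M, rfl⟩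
          inv_mem' := by
            rintro _ ⟨v, hv, rfl⟩
            exact ⟨-v, neg_mem hv, rfl⟩ }
      have hn : M'.Normal := ⟨fun m hm a => by
        have ha : a ∈ Submonoid.closure (Set.range e) := by
          rw [← Subgroup.closure_toSubmonoid_of_finite, d.inn.gen]; trivial
        induction ha using Submonoid.closure_induction generalizing m with
        | mem g hg =>
          obtain ⟨y, rfl⟩ := hg
          obtain ⟨v, hv, rfl⟩ := hm
          exact ⟨_, hM (p y) v hv, key y v⟩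
        | one => simpa using hm
        | mul g g' _ _ i1 i2 =>
          have := i1 _ (i2 m hm)
          rwa [show g * (g' * m * g'⁻¹) * g⁻¹ = g * g' * m * (g * g')⁻¹ by group] at this⟩
      refine (d.min M' hn (by rintro _ ⟨v, -, rfl⟩; exact vl_mem v)).imp (fun a => ?_) fun a => ?_
      · refine (AddSubgroup.eq_bot_iff_forall _).2 fun v hv => vl_inj ?_
        exact (Subgroup.eq_bot_iff_forall _).1 a _ ⟨v, hv, rfl⟩
      · refine (AddSubgroup.eq_top_iff' _).2 fun v => ?_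
        obtain ⟨w, hw, e1⟩ : vl v ∈ M' := a.ge (vl_mem v)
        exact vl_inj e1 ▸ hw)
  refine ⟨F, VV N h, ‹_›, ‹_›, inferInstance, inferInstance, ‹_›, σ, hI, ?_⟩
  intro n b x hb
  rcases isEmpty_or_nonempty {y // (rho Y n b y = y ∧ p ∘ y = x) ∧ TFull y} with e0 | ⟨y0, ⟨f0, g0⟩, -⟩
  · rw [nf, Nat.card_of_isEmpty]; exact Nat.zero_le _
  let P : Type := SubQ (Q := Y × Y) ⟨{a | p a.1 = p a.2}, fun _ ha _ hb =>
    ⟨(d.hom _ _).trans ((congrArg₂ _ ha hb).trans (d.hom _ _).symm),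
      (d.hom.inv _ _).trans ((congrArg₂ _ ha hb).trans (d.hom.inv _ _).symm)⟩⟩
  have hm : ∀ a : P, ∃ hN : e a.1.1 * (e a.1.2)⁻¹ ∈ N, mkv h _ hN ∈ rg σ (p a.1.1) := by
    rintro ⟨⟨y, y'⟩, ha⟩
    obtain ⟨g, hg, rfl⟩ := (d.fib y' y).1 (Eq.symm ha)
    have a1 : vl (mkv h g hg - σ.s (p (ρ g y')) (mkv h g hg)) = e (ρ g y') * (e y')⁻¹ := by
      rw [vl_sub, hσ, show p (ρ g y') = p y' from ha, key, vl_mkv, d.inn.conj]
      group
    exact ⟨a1 ▸ vl_mem _, mkv h g hg, vl_inj a1⟩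
  choose hN hr using hm
  let f : P → LQ σ := fun a => lq σ (p a.1.1) (mkv h _ (hN a)) (hr a)
  have hf : IsHom f := by
    rintro ⟨⟨y, y'⟩, ha⟩ ⟨⟨z, z'⟩, hz⟩
    refine Subtype.ext (Prod.ext (d.hom _ _) (vl_inj ?_))
    change e (y ◃ z) * (e (y' ◃ z'))⁻¹ = vl (mkv h (e y * (e y')⁻¹) _ +
      σ.s (p y) (mkv h (e z * (e z')⁻¹) _) - σ.s (p y ◃ p z) (mkv h (e y * (e y')⁻¹) _))
    rw [vl_sub, vl_add, hσ, hσ, show p y = p y' from ha, show p z = p z' from hz, ← d.hom, key,
      key, vl_mkv, vl_mkv, d.inn.he.conj, d.inn.he.conj]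
    group
  let t : {y // (rho Y n b y = y ∧ p ∘ y = x) ∧ TFull y} → Fin (n + 1) → P := fun y i =>
    ⟨(y.1 i, y0 i), congrFun (y.2.1.2.trans g0.symm) i⟩
  have ht : ∀ y, rho P n b (t y) = t y := fun y => funext fun i => Subtype.ext
    ((congrFun (rho_map (isHom_val _) b (t y)) i).symm.trans
      ((congrFun (rho_prod b y.1 y0) i).trans (by rw [y.2.1.1, f0])))
  refine card_le (B := {u // rho (LQ σ) n b u = u ∧ lp σ ∘ u = x})
    (fun y => ⟨f ∘ t y, fix_map hf (ht y), y.2.1.2⟩) _ fun a => ?_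
  refine le_trans (Nat.card_le_card_of_injective
    (β := {y // rho Y n b y = y ∧ hol y = hol a.1}) (fun y => ⟨y.1.1, y.1.2.1.1, ?_⟩)
    fun y y' e1 => Subtype.ext (Subtype.ext (congrArg (·.1) e1))) (hHOL Y n b hb (hol a.1))
  refine congrArg FreeGroup.lift (funext fun i => ?_)
  have a1 : e (y.1.1 i) * (e (y0 i))⁻¹ = e (a.1 i) * (e (y0 i))⁻¹ :=
    congrArg (fun u : LQ σ => vl u.1.2) (congrFun (congrArg Subtype.val y.2) i)
  rw [← d.inn.act, ← d.inn.act, mul_right_cancel a1]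

end Pool.Agent.P.MP_cc10d1_gt.UL
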