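import Pool.Agent.P.MP_cc10d1_gt.UL.Iface

/-! Step ADD. -/

set_option autoImplicit false
set_option linter.unusedSectionVars false

namespace Pool.Agent.P.MP_cc10d1_gt.UL

open Finset Filter Topology T R Quandles Rack
open scoped commutatorElement

namespace ADDaux

variable {Z F V : Type} [Quandle Z] [Field F] [AddCommGroup V] [Module F V] (σ : Ac Z F V)
  {n : ℕ} {x : Fin (n + 1) → Z} {g : Br n}

theorem mem (hg : rho Z n g x = x) (u : Wx σ x) : lam σ g x u.1 ∈ Wx σ x := by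
  have := lam_mem σ g u.2
  rwa [hg] at this

theorem fix_inv (hg : rho Z n g x = x) : rho Z n g⁻¹ x = x :=
  (congrArg (rho Z n g⁻¹) hg).symm.trans (rho_inv_rho g x)

/-- The action of a braid that fixes `x` on the parabolic tuples. -/
def eqv (hg : rho Z n g x = x) : Wx σ x ≃ₗ[F] Wx σ x where
  toFun u := ⟨lam σ g x u.1, mem σ hg u⟩
  invFun u := ⟨lam σ g⁻¹ x u.1, mem σ (fix_inv hg) u⟩
  map_add' u w := Subtype.ext (map_add (lam σ g x) u.1 w.1)
  map_smul' c u := Subtype.ext (map_smul (lam σ g x) c u.1)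
  left_inv u := Subtype.ext (by
    have := lam_mul σ g⁻¹ g x u.1
    rw [inv_mul_cancel, lam_one, hg] at this
    exact this.symm)
  right_inv u := Subtype.ext (by
    have := lam_mul σ g g⁻¹ x u.1
    rw [mul_inv_cancel, lam_one, fix_inv hg] at this
    exact this.symm)

theorem rank_fx (hg : rho Z n g x = x) : Module.finrank F (Fx σ g x) =
    Module.finrank F (LinearMap.eqLocus (eqv σ hg).toLinearMap LinearMap.id) :=
  LinearEquiv.finrank_eq
    { toFun := fun w => ⟨⟨w.1, w.2.1⟩, Subtype.ext w.2.2⟩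
      invFun := fun w => ⟨w.1.1, w.1.2, congrArg Subtype.val w.2⟩
      map_add' := fun _ _ => rfl
      map_smul' := fun _ _ => rfl
      left_inv := fun _ => rfl
      right_inv := fun _ => rfl }

theorem pr_eqv {G : Type} [Group G] {e : LQ σ → G} (he : CHom e) (hg : rho Z n g x = x)
    (u : Wx σ x) : pr e (List.ofFn (mkL σ x (eqv σ hg u))) = pr e (List.ofFn (mkL σ x u)) := by
  have : rho (LQ σ) n g (mkL σ x u) = mkL σ x (eqv σ hg u) :=
    funext fun i => Subtype.ext ((val_rho_mkL σ g x u i).trans (by rw [hg]; rfl))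
  exact (((all_BRIDGE _ _ _ _).1 ⟨g, this⟩).pr he).symm

end ADDaux

open ADDaux in
theorem p_ADD (hRL : S_RL) (hINV : S_INV) (hBIL : S_BIL) (hKAP : S_KAP) (hPAR : S_PAR) :
    S_ADD := by
  intro Z F V _ _ _ _ _ _ σ hI ω h0 hω hc n g h x hg hh
  have hinv := ((hRL Z F V σ).1 ω hω).1
  obtain ⟨G, _, H, ψ, h1, h2⟩ := hω
  obtain ⟨ψ0, hψ, hb⟩ := hBIL F
  obtain ⟨β, hβ⟩ := hb V ω hc
  have sq : ∀ a b : F, (∀ c : F, ψ0 (c * (c * a)) = ψ0 (c * (c * b))) → a = b := fun a b e =>
    sub_eq_zero.1 (hψ _ fun c => by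
      rw [mul_sub, map_sub, pow_two, mul_assoc, mul_assoc, e, sub_self])
  obtain ⟨B, κ, b1, b2, b3⟩ := hKAP Z F V G σ H ψ ψ0 β h1
    (fun r hr r' hr' => (h2 r hr r' hr').trans (hβ _ _))
    (fun z v w => sq _ _ fun c => by
      simpa only [hβ, map_smul, LinearMap.smul_apply, smul_eq_mul] using hinv z (c • v) (c • w))
    (fun v e => (hINV Z F V σ hI ω hinv h0).1.1 (AddMonoidHom.ext fun w => by
      rw [hβ, e, map_zero ω, LinearMap.zero_apply, map_zero, AddMonoidHom.zero_apply])) (n + 1) x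
  have k1 : ∀ {g : Br n} (hg : rho Z n g x = x) u, κ (eqv σ hg u) = κ u := fun hg u => by
    rw [b2, b2, pr_eqv σ H.he]
  have k2 : ∀ {g : Br n} (hg : rho Z n g x = x) u w, B (eqv σ hg u) (eqv σ hg w) = B u w :=
    fun hg u w => sq _ _ fun c => by
      have := b3 (eqv σ hg (c • u)) (eqv σ hg (c • w))
      rw [← map_add, k1, k1, k1, b3] at this
      simpa only [map_smul, LinearMap.smul_apply, smul_eq_mul] using this.symm
  have k3 : ∀ u w, eqv σ hh u - u = (eqv σ hg).symm w - w →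
      ψ0 (B u (eqv σ hh u - u)) = ψ0 (B w (eqv σ hh u - u)) := fun u w e => by
    rw [← b3, ← b3, add_sub_cancel, k1, e, add_sub_cancel, ← k1 hg ((eqv σ hg).symm w),
      LinearEquiv.apply_symm_apply, mul_inv_cancel, mul_inv_cancel]
  have hgh : rho Z n (g * h) x = x := by rw [rho_mul, hh, hg]
  have e : eqv σ hgh = eqv σ hg * eqv σ hh :=
    LinearEquiv.ext fun u => Subtype.ext ((lam_mul σ g h x u.1).trans (by rw [hh]; rfl))
  rw [rank_fx σ hg, rank_fx σ hh, rank_fx σ hgh, e]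
  refine hPAR F _ B _ _ b1 (k2 hg) (k2 hh) fun u w e => ?_
  rw [map_sub B, LinearMap.sub_apply, sub_eq_zero]
  refine sq _ _ fun c => ?_
  have hs : ∀ a b : Wx σ x, c • a - c • b = c • (a - b) := fun a b => (smul_sub c a b).symm
  have := k3 (c • u) (c • w) (by rw [map_smul, map_smul, hs, hs, e])
  simpa only [map_smul, hs, LinearMap.smul_apply, smul_eq_mul] using this

end Pool.Agent.P.MP_cc10d1_gt.UL
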