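import Pool.Agent.P.MP_cc10d1_gt.UL.Iface

/-! Step ALL. -/

set_option autoImplicit false
set_option linter.unusedSectionVars false

namespace Pool.Agent.P.MP_cc10d1_gt.UL

open Finset Filter Topology T R Quandles Rack
open scoped commutatorElement

theorem p_ALL (hRG : S_RG) :
    S_ALL := by
  intro Q _ _ s w hw
  have : Finite (CS Q) := inferInstanceAs (Finite {Y : Set Q // _})
  have := Fintype.ofFinite (CS Q)
  refine good_congr (F := ∑ Y : CS Q, sf (Sub Y) (pb (fun a => a.1) (s.w * w)))
    (fun n b hb => ?_) (sum_mem fun Y _ => ?_)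
  · rw [hRG Q _ n b hb, Finset.sum_apply, Finset.sum_apply]
  · exact hw (Sub Y) (fun a => a.1) (fun _ _ => rfl) (s.pb fun _ _ => rfl)

end Pool.Agent.P.MP_cc10d1_gt.UL
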