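import Pool.Agent.P.MP_cc10d1_gt.UL.Iface

/-! Step AP. -/

set_option autoImplicit false
set_option linter.unusedSectionVars false

namespace Pool.Agent.P.MP_cc10d1_gt.UL

open Finset Filter Topology T R Quandles Rack
open scoped commutatorElement

namespace APaux

theorem sf_zero_of {Z : Type} [Quandle Z] [Finite Z] (h : ¬ (Cn Z ∧ Nonempty Z)) (w : Wt Z) :
    sf Z w = 0 := by
  funext n b
  rw [sf_apply]
  refine sum_eq_zero fun x _ => ?_
  rw [ind_neg fun hx => h ⟨TFull.cn hx, ⟨x 0⟩⟩, zero_mul]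

theorem key {a c t t' e : ℝ} (ha : |a| = 1) (hc : |c| ≤ 1) (h : |t - t'| ≤ e) :
    a * (c * t) ≤ a * (c * t') + e := by
  have h1 : |a * (c * t) - a * (c * t')| ≤ e := by
    rw [← mul_sub, ← mul_sub, abs_mul, abs_mul, ha, one_mul]
    exact (mul_le_of_le_one_left (abs_nonneg _) hc).trans h
  linarith [(abs_le.1 h1).2]

end APaux

theorem p_AP :
    S_AP := by
  intro Y _ θ h Z0 _ φ hφ w hw hb Z' _ _ π hπ s
  by_cases hz : Cn Z' ∧ Nonempty Z'
  swap
  · rw [APaux.sf_zero_of hz]; exact zero_mem _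
  refine good_of_approx fun ε hε => ?_
  obtain ⟨θ', h1, η, h2, h3⟩ := h Z' hz.1 hz.2 (φ ∘ π) (hφ.comp hπ) ε hε
  refine ⟨sf Z' (s.w * (pb π w * θ')), hg_good (hg_mul (hg_pb hw hπ) (hb.pb π) h1) s, ?_⟩
  have a1 : ∀ n b, Kn b → sf Z' (s.w * pb π (w * pb φ θ)) n b ≤
      (sf Z' (s.w * (pb π w * θ')) + sf Z' η) n b := by
    intro n b hk
    rw [← sf_add]
    exact sf_mono fun x hx hf => APaux.key (s.abs n b x) (hb n b (π ∘ x)) (h2 n b x hk hx hf)
  have a2 : ∀ n b, Kn b → sf Z' (s.w * (pb π w * θ')) n b ≤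
      (sf Z' (s.w * pb π (w * pb φ θ)) + sf Z' η) n b := by
    intro n b hk
    rw [← sf_add]
    exact sf_mono fun x hx hf => APaux.key (s.abs n b x) (hb n b (π ∘ x))
      ((abs_sub_comm _ _).trans_le (h2 n b x hk hx hf))
  filter_upwards [em_mono a1, em_mono a2, h3] with i b1 b2 b3
  rw [em_add] at b1 b2
  exact abs_le.2 ⟨by linarith, by linarith⟩

end Pool.Agent.P.MP_cc10d1_gt.UL
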