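import Pool.Agent.P.MP_cc10d1_gt.UL.Iface

/-! Step BASE. -/

set_option autoImplicit false
set_option linter.unusedSectionVars false

namespace Pool.Agent.P.MP_cc10d1_gt.UL

open Finset Filter Topology T R Quandles Rack
open scoped commutatorElement

namespace BASEaux

variable {Z : Type} [Quandle Z]

/-- The full tuples with a given product. -/
def C (y0 : Z) (j : EnvelGroup Z) (n : ℕ) (x : Fin (n + 1) → Z) : Prop :=
  TFull x ∧ pr S.gen (List.ofFn x) = S.gen y0 ^ (n + 1) * j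

theorem C_snoc {y0 : Z} {j : EnvelGroup Z} {n : ℕ} {x : Fin (n + 1) → Z} (h : C y0 j n x) :
    C y0 j (n + 1) (Fin.snoc x y0) := by
  have e : List.ofFn (Fin.snoc x y0 : Fin (n + 2) → Z) = List.ofFn x ++ [y0] := by
    rw [List.ofFn_succ_last]
    simp only [Fin.snoc_castSucc, Fin.snoc_last]
  refine ⟨(tFull_iff _).2 (((tFull_iff _).1 h.1).mono (gp_mono fun y hy => ?_)), ?_⟩
  · rw [e]; exact List.mem_append_left _ hy
  · rw [e, pr_append, pr_cons, pr_nil, one_mul, h.2, pow_succ' _ (n + 1), mul_assoc]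

theorem term (hORB : S_ORB) (hREP : S_REP) [Finite Z] (s : Sgn Z) (hc : Cn Z) (y0 : Z)
    (j : commutator (EnvelGroup Z)) : ∃ m : ℝ, ∃ n0 : ℕ, ∀ n, n0 ≤ n → ∀ E, Ev n E →
      Lim E (fun b => ∑ x ∈ Fix Z b, ind (C y0 j n) x * s.w n b x) m := by
  classical
  obtain ⟨nR, hR⟩ := hREP Z hc y0
  have key : ∀ n, nR ≤ n → ∀ x, C y0 j n x → C y0 j n = Orb x := fun n hn x hx => by
    funext y
    refine propext ⟨fun hy => ((hR n hn).2.2 x y hx.1 hy.1).2 (hx.2.trans hy.2.symm), fun hy => ?_⟩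
    have h1 := tFull_orb hy hx.1
    exact ⟨h1, (((hR n hn).2.2 x y hx.1 h1).1 hy).symm.trans hx.2⟩
  by_cases hP : ∀ n x g, C y0 j n x → rho Z n g x = x → s.χ n g x = 1
  · obtain ⟨n1, h1⟩ := lim_orb Z
    refine ⟨1, nR + n1, fun n hn E hE => ?_⟩
    obtain ⟨r, hr⟩ := (hR n (by omega)).1 j
    refine (h1 n (by omega) E hE r fun a b => hr.1 _ _).congr fun b _ => ?_
    rw [← key n (by omega) r hr, Nat.subtype_card ((Fix Z b).filter (C y0 j n))
      fun x => by rw [mem_filter, mem_Fix, and_comm], card_filter, Nat.cast_sum]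
    refine sum_congr rfl fun x hx => ?_
    by_cases h2 : C y0 j n x
    · rw [if_pos h2, ind_pos h2, Sgn.w, hP n x b h2 (mem_Fix.1 hx)]; simp
    · rw [if_neg h2, ind_neg h2, zero_mul, Nat.cast_zero]
  · push Not at hP
    obtain ⟨n1, h1⟩ := hP
    obtain ⟨n2, h2⟩ := hORB Z s
    have h3 : ∀ n, n1 ≤ n → ∃ x g, C y0 j n x ∧ rho Z n g x = x ∧ s.χ n g x ≠ 1 := by
      intro n hn
      induction n, hn using Nat.le_induction with
      | base => exact h1
      | succ n _ ih =>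
        obtain ⟨x, g, a1, a2, a3⟩ := ih
        exact ⟨Fin.snoc x y0, up n g, C_snoc a1, by rw [rho_up, a2], by rwa [s.up n g x y0 a2]⟩
    refine ⟨0, nR + n1 + n2, fun n hn E hE => ?_⟩
    obtain ⟨x, g, a1, a2, a3⟩ := h3 n (by omega)
    rw [key n (by omega) x a1]
    exact h2 n (by omega) E hE x (fun a b => a1.1 _ _) ⟨g, a2, a3⟩

end BASEaux

open BASEaux in
theorem p_BASE (hORB : S_ORB) (hREP : S_REP) (hFIN : S_FIN) :
    S_BASE := by
  classical
  intro Z _ _ s
  by_cases h : Cn Z ∧ Nonempty Z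
  · obtain ⟨hc, ⟨y0⟩⟩ := h
    have := hFIN Z
    have := Fintype.ofFinite (commutator (EnvelGroup Z))
    choose m n0 h using term hORB hREP s hc y0
    obtain ⟨nR, hR⟩ := hREP Z hc y0
    refine ⟨∑ j, m j, tendsto_of_lim ⟨nR + ∑ j, n0 j, fun n hn E hE => ?_⟩⟩
    refine (Lim.sum univ fun j _ => h j n ?_ E hE).congr fun b _ => ?_
    · exact (single_le_sum (f := n0) (fun _ _ => Nat.zero_le _) (mem_univ j)).trans (by omega)
    rw [sf_apply, sum_comm]
    refine sum_congr rfl fun x _ => ?_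
    rw [← sum_mul]
    congr 1
    by_cases hx : TFull x
    · obtain ⟨j, hj⟩ := (hR n (by omega)).2.1 x
      rw [ind_pos hx, sum_eq_single j (fun i _ hi => ind_neg fun a => hi ?_)
        fun a => absurd (mem_univ j) a]
      · exact ind_pos (E := C y0 j n) ⟨hx, hj⟩
      · exact Subtype.ext (mul_left_cancel (a.2.symm.trans hj))
    · rw [ind_neg hx]
      exact sum_eq_zero fun j _ => ind_neg fun a => hx a.1
  · have : sf Z s.w = 0 := by
      funext n b
      refine sum_eq_zero fun x _ => ?_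
      change ind TFull x * _ = 0
      rw [ind_neg fun a : TFull x => h ⟨a.cn, ⟨x 0⟩⟩, zero_mul]
    rw [this]
    exact zero_mem _

end Pool.Agent.P.MP_cc10d1_gt.UL
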