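import Pool.Agent.P.MP_cc10d1_gt.UL.Iface

/-! Step BD. -/

set_option autoImplicit false
set_option linter.unusedSectionVars false

namespace Pool.Agent.P.MP_cc10d1_gt.UL

open Finset Filter Topology T R Quandles Rack
open scoped commutatorElement

namespace BDaux

theorem card_le {A B : Type} [Finite A] [Finite B] (F : A → B) (c : ℕ)
    (h : ∀ b, Nat.card {a // F a = b} ≤ c) : Nat.card A ≤ c * Nat.card B := by
  classical
  have := Fintype.ofFinite B
  rw [← Nat.card_congr (Equiv.sigmaFiberEquiv F), Nat.card_sigma, mul_comm,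
    Nat.card_eq_fintype_card (α := B), ← card_univ, ← smul_eq_mul, ← sum_const]
  exact sum_le_sum fun b _ => h b

end BDaux

theorem p_BD (hHOL : S_HOL) :
    S_BD := by
  intro Y _ _ g n b hb K hK h0 hg
  have : K.FiniteIndex := ⟨h0⟩
  let F : {y // rho Y n b y = y ∧ K ≤ (hol y).ker} →
      (FreeGroup (Fin (n + 1)) ⧸ K → Equiv.Perm Y) :=
    fun y => QuotientGroup.lift K (hol y.1) y.2.2
  have h1 : ∀ u, Nat.card {a // F a = u} ≤ Nat.card Y := fun u => by
    rcases isEmpty_or_nonempty {a // F a = u} with _ | ⟨⟨a, ha⟩⟩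
    · simp
    refine le_trans (Nat.card_le_card_of_injective
      (fun x : {a // F a = u} => (⟨x.1.1, x.1.2.1, ?_⟩ :
        {y // rho Y n b y = y ∧ hol y = hol a.1})) ?_) (hHOL Y n b hb (hol a.1))
    · ext1 i
      exact congrFun (x.2.trans ha.symm) (QuotientGroup.mk (FreeGroup.of i))
    · intro x y e
      exact Subtype.ext (Subtype.ext (Subtype.mk.inj e))
  refine (BDaux.card_le F _ h1).trans (Nat.mul_le_mul_left _ ?_)
  rw [Nat.card_fun]
  exact Nat.pow_le_pow_right Nat.card_pos hg

end Pool.Agent.P.MP_cc10d1_gt.UL
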