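import Pool.Agent.P.MP_cc10d1_gt.UL.Iface

/-! Step CASE. -/

set_option autoImplicit false
set_option linter.unusedSectionVars false

namespace Pool.Agent.P.MP_cc10d1_gt.UL

open Finset Filter Topology T R Quandles Rack
open scoped commutatorElement

namespace CASEaux

variable {Y Y0 H : Type} [Quandle Y] [Quandle Y0] [Group H] {e : Y → H} {ρ : H →* Equiv.Perm Y}
  {p : Y → Y0}

theorem card_lt {A B : Type} [Finite A] {f : A → B} (hs : Function.Surjective f)
    (hi : ¬ Function.Injective f) : Nat.card B < Nat.card A :=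
  not_le.1 fun h => hi (hs.bijective_of_nat_card_le h).1

theorem desc (d : InnD e ρ) (hp : IsHom p) (h : H) :
    ∀ a b, p (ρ h a) = p (ρ h b) ↔ p a = p b := by
  have hh : h ∈ Subgroup.closure (Set.range e) := d.gen ▸ Subgroup.mem_top h
  induction hh using Subgroup.closure_induction with
  | mem g hg =>
    obtain ⟨y, rfl⟩ := hg
    intro a b
    rw [d.act, sy_apply, sy_apply, hp, hp, Rack.left_cancel]
  | one => simp
  | mul g g' _ _ h h' =>
    intro a b
    rw [map_mul, Equiv.Perm.mul_apply, Equiv.Perm.mul_apply, h, h']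
  | inv g _ h =>
    intro a b
    rw [← h]
    simp

/-- The elements that preserve the fibres. -/
def ker (ρ : H →* Equiv.Perm Y) (p : Y → Y0) : Subgroup H where
  carrier := {h | ∀ y, p (ρ h y) = p y}
  one_mem' := fun y => by simp
  mul_mem' := fun a b y => by rw [map_mul, Equiv.Perm.mul_apply, a, b]
  inv_mem' := fun {g} a y => by rw [← a]; simp

theorem ker_normal (d : InnD e ρ) (hp : IsHom p) : (ker ρ p).Normal := ⟨fun h a g y => by
  rw [map_mul, map_mul, Equiv.Perm.mul_apply, Equiv.Perm.mul_apply, (desc d hp g _ _).2 (a _)]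
  simp⟩

theorem innD (Y : Type) [Quandle Y] : InnD
    (fun y => (⟨sy y, Subgroup.subset_closure ⟨y, rfl⟩⟩ :
      Subgroup.closure (Set.range (sy : Y → Equiv.Perm Y)))) (Subgroup.subtype _) := by
  refine ⟨fun x y => Subtype.ext (cHom_sy x y), ?_, fun _ => rfl, Subtype.val_injective⟩
  refine Subgroup.map_injective (Subgroup.subtype_injective _) ?_
  rw [MonoidHom.map_closure, ← Set.range_comp, ← MonoidHom.range_eq_map, Subgroup.range_subtype]
  rfl

end CASEaux

open CASEaux in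
theorem p_CASE (hQUO : S_QUO) :
    S_CASE := by
  intro Y Y0 _ _ _ _ p hp hs hc
  obtain ⟨H, _, _, e, ρ, d⟩ : ∃ (H : Type) (_ : Group H) (_ : Finite H) (e : Y → H)
    (ρ : H →* Equiv.Perm Y), InnD e ρ := ⟨_, inferInstance, inferInstance, _, _, innD Y⟩
  refine or_iff_not_imp_left.2 fun hn => ?_
  have hK : ker ρ p ≠ ⊥ := fun h => hn fun y y' hy => by
    have h1 : e y * (e y')⁻¹ ∈ ker ρ p := fun a => by
      rw [map_mul, map_inv, d.act, d.act, Equiv.Perm.mul_apply, sy_inv_apply, sy_apply, hp, hp.inv,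
        hy, Rack.right_inv]
    rw [h, Subgroup.mem_bot, mul_inv_eq_one] at h1
    rw [← d.act, ← d.act, h1]
  obtain ⟨N, ⟨n1, n2, n3⟩, n4⟩ := (wellFounded_lt (α := Subgroup H)).has_min
    {M | M.Normal ∧ M ≤ ker ρ p ∧ M ≠ ⊥} ⟨_, ker_normal d hp, le_rfl, hK⟩
  have hmin : ∀ M : Subgroup H, M.Normal → M ≤ N → M = ⊥ ∨ M = N := fun M a b =>
    or_iff_not_imp_left.2 fun c => b.eq_of_not_lt (n4 M ⟨a, b.trans n2, c⟩)
  obtain ⟨Y1, _, _, p2, h1, h2, h3⟩ := hQUO Y H e ρ N d n1
  have h4 : ∀ y y', p2 y = p2 y' → p y = p y' := fun y y' h => by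
    obtain ⟨g, hg, rfl⟩ := (h3 y y').1 h
    exact (n2 hg y).symm
  obtain ⟨p1, rfl⟩ : ∃ p1 : Y1 → Y0, p = p1 ∘ p2 :=
    ⟨p ∘ Function.surjInv h2, funext fun y => h4 _ _ (Function.surjInv_eq h2 _).symm⟩
  by_cases hi : Function.Injective p1
  · have hf : ∀ y y', (p1 ∘ p2) y = (p1 ∘ p2) y' ↔ ∃ g ∈ N, ρ g y = y' := fun y y' =>
      hi.eq_iff.trans (h3 y y')
    refine .inr ⟨H, inferInstance, inferInstance, e, ρ, N, ⟨d, hc, n1, hp, hs, hf, hmin, ?_⟩,
      (hmin _ inferInstance (Subgroup.commutator_le_left N N)).symm⟩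
    by_contra h
    refine hn fun y y' hy => ?_
    obtain ⟨g, hg, rfl⟩ := (hf y y').1 hy
    rw [← d.act, ← d.act, d.conj, ← not_not.1 fun a => h ⟨g, hg, y, a⟩, mul_inv_cancel_right]
  · refine .inl ⟨Y1, inferInstance, inferInstance, p2, p1, h1, fun a b => ?_, h2, hs.of_comp, rfl,
      card_lt hs.of_comp hi, card_lt h2 fun h => n3 ((Subgroup.eq_bot_iff_forall _).2 fun g hg =>
        d.inj ((Equiv.ext fun y => ?_).trans (map_one ρ).symm))⟩
    · obtain ⟨a, rfl⟩ := h2 a
      obtain ⟨b, rfl⟩ := h2 b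
      rw [← h1]
      exact hp a b
    · exact (h ((h3 y _).2 ⟨g, hg, rfl⟩)).symm

end Pool.Agent.P.MP_cc10d1_gt.UL
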