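import Pool.Agent.P.MP_cc10d1_gt.UL.Iface

/-! Step CNT. -/

set_option autoImplicit false
set_option linter.unusedSectionVars false

namespace Pool.Agent.P.MP_cc10d1_gt.UL

open Finset Filter Topology T R Quandles Rack
open scoped commutatorElement

namespace CNTaux

variable {Z F V : Type} [Quandle Z] [Field F] [AddCommGroup V] [Module F V] (σ : Ac Z F V)

/-- A section as a map to the parabolic part. -/
def sq' (t : Sec σ) (z : Z) : LQ σ := lq σ z (t.1 z) (t.2.1 z)

theorem hom_sq (t : Sec σ) : IsHom (sq' σ t) := fun a b =>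
  Subtype.ext (Prod.ext rfl (t.2.2 a b))

/-- The values of a section on a fixed tuple. -/
def ev {n : ℕ} {b : Br n} {x : Fin (n + 1) → Z} (hx : rho Z n b x = x) :
    Sec σ →ₗ[F] Fx σ b x where
  toFun t := ⟨fun m => t.1 (x m), fun m _ => t.2.1 (x m),
    (fix_mkL σ hx ⟨fun m => t.1 (x m), fun m _ => t.2.1 (x m)⟩).1 (fix_map (hom_sq σ t) hx)⟩
  map_add' _ _ := rfl
  map_smul' _ _ := rfl

theorem ev_inj {n : ℕ} {b : Br n} {x : Fin (n + 1) → Z} (hx : rho Z n b x = x) (hf : TFull x) :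
    Function.Injective (ev σ hx) := fun t t' e => by
  have e1 : ∀ m, sq' σ t (x m) = sq' σ t' (x m) := fun m =>
    Subtype.ext (Prod.ext rfl (congrFun (congrArg Subtype.val e) m))
  have e2 : sq' σ t ∘ x = sq' σ t' ∘ x := funext e1
  refine Subtype.ext (funext fun z => ?_)
  obtain ⟨φ, rfl⟩ := hf (x 0) z
  have := (hol_map (hom_sq σ t) x φ (x 0)).symm.trans
    ((by rw [e2, e1]) : _ = hol (sq' σ t' ∘ x) φ (sq' σ t' (x 0))) |>.trans
    (hol_map (hom_sq σ t') x φ (x 0))
  exact congrArg (fun u : LQ σ => u.1.2) this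

/-- A tuple of fixed vectors as a vector for the power. -/
def tr {n j : ℕ} {b : Br n} {x : Fin (n + 1) → Z} (w : Fin j → Fx σ b x) :
    Wx (σ.pi (Fin j)) x := ⟨fun m i => (w i).1 m, fun m _ => by
  choose v hv using fun i => (mem_rg σ).1 ((w i).2.1 m trivial)
  exact ⟨v, funext hv⟩⟩

theorem tr_fix {n j : ℕ} {b : Br n} {x : Fin (n + 1) → Z} (w : Fin j → Fx σ b x) :
    lam (σ.pi (Fin j)) b x (tr σ w).1 = (tr σ w).1 := funext fun m => funext fun i =>
  (congrFun (lam0_nat (σ.pi (Fin j)) (σ' := σ) isHom_id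
    (Pi.evalAddMonoidHom (fun _ : Fin j => V) i) (fun _ _ => rfl) b x (tr σ w).1) m).symm.trans
    (congrFun (w i).2.2 m)

theorem count {S A : Type} [Finite F] [AddCommGroup S] [Module F S] [AddCommGroup A] [Module F A]
    [Finite A] (e : S →ₗ[F] A) (he : Function.Injective e) :
    ∃ k, Module.finrank F A = Module.finrank F S + k ∧ ∀ j,
      (Nat.card S : ℝ) ^ j * AA (Nat.card F) j (Nat.card F ^ k) ≤
        Nat.card {w : Fin j → A // ∀ c : Fin j → F, (∃ t, e t = ∑ i, c i • w i) → c = 0} := by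
  obtain ⟨C, hC⟩ := (LinearMap.range e).exists_isCompl
  refine ⟨Module.finrank F C, ?_, fun j => ?_⟩
  · rw [← Submodule.finrank_add_eq_of_isCompl hC, LinearMap.finrank_range_of_inj he]
  rcases lt_or_ge (Module.finrank F C) j with hj | hj
  · rw [AA, prod_eq_zero (mem_range.2 hj) (sub_self _), mul_zero]
    exact Nat.cast_nonneg _
  have hi := Nat.card_le_card_of_injective
    (α := (Fin j → S) × {s : Fin j → C // LinearIndependent F s})
    (β := {w : Fin j → A // ∀ c : Fin j → F, (∃ t, e t = ∑ i, c i • w i) → c = 0})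
    (fun p => ⟨fun i => e (p.1 i) + (p.2.1 i).1, fun c ⟨t, e1⟩ => by
      have e2 : ((∑ i, c i • p.2.1 i : C) : A) = e (t - ∑ i, c i • p.1 i) := by
        rw [map_sub, e1, map_sum, ← sum_sub_distrib, Submodule.coe_sum]
        refine sum_congr rfl fun i _ => ?_
        simp only [smul_add, map_smul, add_sub_cancel_left, Submodule.coe_smul]
      exact funext (Fintype.linearIndependent_iff.1 p.2.2 c (Subtype.ext
        (Submodule.disjoint_def.1 hC.disjoint _ ⟨_, e2.symm⟩ (∑ i, c i • p.2.1 i).2)))⟩)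
    fun p p' h => by
      have e2 : ∀ i, e (p.1 i - p'.1 i) = ((p'.2.1 i - p.2.1 i : C) : A) := fun i => by
        rw [map_sub, Submodule.coe_sub, sub_eq_sub_iff_add_eq_add, add_comm (p'.2.1 i).1]
        exact congrFun (congrArg Subtype.val h) i
      have e3 : ∀ i, e (p.1 i - p'.1 i) = 0 := fun i =>
        Submodule.disjoint_def.1 hC.disjoint _ ⟨_, rfl⟩ (e2 i ▸ (p'.2.1 i - p.2.1 i).2)
      refine Prod.ext (funext fun i => sub_eq_zero.1 (he ((e3 i).trans
        (map_zero _).symm))) (Subtype.ext (funext fun i => (sub_eq_zero.1 (Subtype.ext ?_)).symm))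
      exact (e2 i).symm.trans (e3 i)
  let _ := Fintype.ofFinite F
  rw [Nat.card_prod, Nat.card_fun, Nat.card_eq_fintype_card (α := Fin j), Fintype.card_fin,
    card_linearIndependent hj] at hi
  refine le_trans (le_of_eq ?_) (Nat.cast_le.2 hi)
  rw [Nat.cast_mul, Nat.cast_pow, Nat.cast_prod, AA, prod_range, Nat.card_eq_fintype_card (α := F)]
  congr 1
  refine prod_congr rfl fun i _ => ?_
  rw [Nat.cast_sub (Nat.pow_le_pow_right Fintype.card_pos (i.2.le.trans hj)), Nat.cast_pow,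
    Nat.cast_pow]

end CNTaux

open CNTaux in
theorem p_CNT (hFUL : S_FUL) :
    S_CNT := by
  intro Z F V _ _ _ _ _ _ _ σ hσ n b x hx hf
  obtain ⟨k, hk, h⟩ := count (ev σ hx) (ev_inj σ hx hf)
  refine ⟨k, hk, fun j => (h j).trans (Nat.cast_le.2 ?_)⟩
  refine Nat.card_le_card_of_injective
    (β := {u // (rho (LQ (σ.pi (Fin j))) n b u = u ∧ lp (σ.pi (Fin j)) ∘ u = x) ∧ TFull u})
    (fun w => ⟨mkL (σ.pi (Fin j)) x (tr σ w.1), ⟨(fix_mkL _ hx _).2 (tr_fix σ _), rfl⟩,
      hFUL Z F V σ hσ n j x _ hf fun c ⟨t, ht, e⟩ => w.2 c ⟨⟨t, ht⟩, Subtype.ext (funext fun m => by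
        rw [Submodule.coe_sum, Finset.sum_apply]; exact e m)⟩⟩) fun w w' e => ?_
  exact Subtype.ext (funext fun i =>
    Subtype.ext (funext fun m => congrArg (fun u => (u.1 m).1.2 i) e))

end Pool.Agent.P.MP_cc10d1_gt.UL
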