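import Pool.Agent.P.MP_cc10d1_gt.UL.Iface

/-! Step CONV. -/

set_option autoImplicit false
set_option linter.unusedSectionVars false

namespace Pool.Agent.P.MP_cc10d1_gt.UL

open Finset Filter Topology T R Quandles Rack
open scoped commutatorElement

namespace CONVaux

instance : Unique (Lab Unit) := inferInstanceAs (Unique Unit)

theorem hom_pt {X : Type} [Quandle X] (p : X → Lab Unit) : IsHom p :=
  fun _ _ => Subsingleton.elim _ _

theorem good_pt (hBASE : S_BASE) {θ : Wt (Lab Unit)} (hθ : θ ∈ Adm (Lab Unit)) :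
    (fun n b => θ n b default : Fn) ∈ Good := by
  have h1 : (1 : Wt (Lab Unit)) ∈ HG (Lab Unit) := fun Z' _ _ π _ s => by
    rw [map_one, mul_one]; exact hBASE Z' s
  have h2 := hg_good (hg_mul h1 Bd.one hθ) (Sgn.one _)
  rw [Sgn.one_w, one_mul, one_mul] at h2
  refine good_congr (fun n b _ => ?_) h2
  have e : Fix (Lab Unit) b = {default} :=
    eq_singleton_iff_unique_mem.2 ⟨mem_Fix.2 (Subsingleton.elim _ _),
      fun _ _ => Subsingleton.elim _ _⟩
  have hf : TFull (default : Fin (n + 1) → Lab Unit) := fun _ _ => ⟨1, Subsingleton.elim _ _⟩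
  rw [sf_apply, e, sum_singleton, ind_pos hf, one_mul]

theorem na_pt {X : Type} [Quandle X] (p : X → Lab Unit) (n : ℕ) (b : Br n)
    (x : Fin (n + 1) → Lab Unit) : na p n b x = Nat.card {x // rho X n b x = x} :=
  Nat.card_congr (Equiv.subtypeEquivRight fun _ => and_iff_left (Subsingleton.elim _ _))

theorem nf_pt {X : Type} [Quandle X] (p : X → Lab Unit) (n : ℕ) (b : Br n)
    (x : Fin (n + 1) → Lab Unit) : nf p n b x = Nat.card {z // TFull z ∧ rho X n b z = z} :=
  Nat.card_congr (Equiv.subtypeEquivRight fun _ => by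
    rw [and_iff_left (Subsingleton.elim _ _), and_comm])

theorem adm_all {Y ι : Type} [Quandle Y] (P : ι → ∀ n, Br n → (Fin (n + 1) → Y) → Prop)
    (h : ∀ i, iw (P i) ∈ Adm Y) (s : Finset ι) :
    iw (fun n b x => ∀ i ∈ s, P i n b x) ∈ Adm Y := by
  classical
  induction s using Finset.induction_on with
  | empty =>
    have : iw (fun n b x => ∀ i ∈ (∅ : Finset ι), P i n b x) = 1 := by
      funext n b x
      exact iw_pos fun _ hi => absurd hi (notMem_empty _)
    rw [this]; exact adm_one
  | insert i s _ ih =>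
    have : iw (fun n b x => ∀ j ∈ insert i s, P j n b x) =
        iw (P i) * iw (fun n b x => ∀ j ∈ s, P j n b x) := by
      funext n b x
      simp only [Pi.mul_apply, iw_apply, forall_mem_insert]
      by_cases h1 : P i n b x <;> by_cases h2 : ∀ j ∈ s, P j n b x <;> simp [h1, h2]
    rw [this]; exact adm_mul (h i) (bd_iw _) ih

end CONVaux

open CONVaux

theorem p_CONV (hBASE : S_BASE) (hRG : S_RG) (hALL : S_ALL) (hPOW : S_POW) (hCST : S_CST) (hTR : S_TR) (hIND : S_IND) :
    S_CONV := by
  intro X _ _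
  have : Finite (CS X) := inferInstanceAs (Finite {Y : Set X // _})
  have := Fintype.ofFinite (CS X)
  set p : X → Lab Unit := fun _ => default
  have hpow : ∀ j : ℕ, cw (na p) ^ j ∈ Adm (Lab Unit) := fun j => by
    rw [cw_na]; exact hPOW X _ p (hom_pt p) 1 adm_one Bd.one j
  refine ⟨fun k => ?_, ?_⟩
  · have h := hTR _ (na p) hpow (cw (na p)) (by simpa using hpow 1) (fun M => ?_) k
    · refine good_congr (fun n b _ => ?_) (good_pt hBASE h)
      rw [eqw_apply, na_pt]
    · let q : ∀ Y : CS X, Sub Y → Lab Unit := fun _ _ => default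
      refine ⟨fun n b x => ∀ Y ∈ (univ : Finset (CS X)), nf (q Y) n b x ≤ M,
        Fintype.card (CS X) * M, adm_all _ (fun Y => adm_le (hIND _ _ (q Y) (hom_pt _) fun _ =>
          Y.2.1.elim fun a ha => ⟨⟨a, ha⟩, Subsingleton.elim _ _⟩) M) _, fun n b x hb _ => ?_⟩
      have e : na p n b x = ∑ Y : CS X, nf (q Y) n b x := by
        rw [na_pt, card_fix b hb, Nat.card_sigma]
        exact sum_congr rfl fun Y _ => (nf_pt _ n b x).symm
      refine ⟨fun hP => ?_, Nat.cast_nonneg _, fun hP => ?_⟩
      · rw [e]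
        exact (sum_le_card_nsmul _ _ _ hP).trans_eq (by rw [card_univ, smul_eq_mul])
      · push Not at hP
        obtain ⟨Y, hY, hM⟩ := hP
        refine Nat.cast_le.2 (hM.le.trans ?_)
        rw [e]
        exact single_le_sum (f := fun Y => nf (q Y) n b x) (fun _ _ => Nat.zero_le _) hY
  · refine good_congr (fun n b _ => ?_) (good_pt hBASE (hpow 2))
    simp only [Pi.pow_apply, cw, na_pt]

end Pool.Agent.P.MP_cc10d1_gt.UL
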