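import Pool.Agent.P.MP_cc10d1_gt.UL.Iface

/-! Step COV. -/

set_option autoImplicit false
set_option linter.unusedSectionVars false

namespace Pool.Agent.P.MP_cc10d1_gt.UL

open Finset Filter Topology T R Quandles Rack
open scoped commutatorElement

namespace COVaux

theorem nf_le (hHOL : S_HOL) {Y Y0 : Type} [Quandle Y] [Finite Y] (p : Y → Y0)
    (hs : ∀ y y', p y = p y' → sy y = sy y') (n : ℕ) (b : Br n) (hb : Kn b)
    (y : Fin (n + 1) → Y0) : nf p n b y ≤ Nat.card Y := by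
  unfold nf
  rcases isEmpty_or_nonempty {x // (rho Y n b x = x ∧ p ∘ x = y) ∧ TFull x} with h | ⟨⟨x0, h0⟩⟩
  · rw [Nat.card_of_isEmpty]; exact Nat.zero_le _
  · refine le_trans ?_ (hHOL Y n b hb (hol x0))
    refine Nat.card_le_card_of_injective
      (fun x => ⟨x.1, x.2.1.1, FreeGroup.ext_hom _ _ fun i => ?_⟩) fun x x' e => ?_
    · rw [hol_of, hol_of]
      exact hs _ _ ((congrFun x.2.1.2 i).trans (congrFun h0.1.2 i).symm)
    · exact Subtype.ext (Subtype.mk.inj e)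

end COVaux

theorem p_COV (hHOL : S_HOL) (hPOW : S_POW) (hCST : S_CST) (hTR : S_TR) :
    S_COV := by
  intro Y Y0 _ _ _ p hp hs
  refine hTR Y0 (nf p) (fun j => ?_) 0 (zero_mem _) fun M =>
    ⟨fun _ _ _ => True, Nat.card Y, ?_, fun n b x hb _ =>
      ⟨fun _ => COVaux.nf_le hHOL p hs n b hb x, le_rfl, fun h => (h trivial).elim⟩⟩
  · rw [cw_nf]
    exact hPOW Y Y0 p hp (full Y) (hCST.2.1 Y) (bd_iw _) j
  · exact hCST.1 Y0 _ fun Z _ _ φ _ => ⟨1, fun n b x _ _ _ => iw_pos trivial⟩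

end Pool.Agent.P.MP_cc10d1_gt.UL
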