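import Pool.Agent.P.MP_cc10d1_gt.UL.Iface

/-! Step CST. -/

set_option autoImplicit false
set_option linter.unusedSectionVars false

namespace Pool.Agent.P.MP_cc10d1_gt.UL

open Finset Filter Topology T R Quandles Rack
open scoped commutatorElement

theorem p_CST (hAP : S_AP) :
    S_CST := by
  have h1 : ∀ (Y : Type) [Quandle Y] (θ : Wt Y),
      (∀ (Z : Type) [Quandle Z] [Finite Z] (φ : Z → Y), IsHom φ → ∃ c : ℝ,
        ∀ n b x, Kn b → rho Z n b x = x → TFull x → θ n b (φ ∘ x) = c) → θ ∈ Adm Y := by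
    intro Y _ θ h
    refine hAP Y θ fun Z _ _ _ _ φ hφ ε hε => ?_
    obtain ⟨c, hc⟩ := h Z φ hφ
    refine ⟨c • (1 : Wt Z), (Adm Z).smul_mem c adm_one, 0, fun n b x hk hx hf => ?_,
      Eventually.of_forall fun i => ?_⟩
    · rw [hc n b x hk hx hf]
      simp
    · rw [sf, mul_zero, map_zero, em_zero]
      exact hε.le
  refine ⟨h1, fun Y _ => h1 Y _ fun Z _ _ φ hφ => ?_,
    fun Y X _ _ f g hf hg => h1 Y _ fun Z _ _ φ hφ => ?_⟩
  · by_cases hs : Function.Surjective φ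
    · exact ⟨1, fun n b x _ _ hx => iw_pos (P := fun _ _ x => TFull x) (full_map hφ hs hx)⟩
    · exact ⟨0, fun n b x _ _ _ => iw_neg (P := fun _ _ x => TFull x)
        fun h => hs (surj_of_full hφ 0 h)⟩
  · by_cases hs : f ∘ φ = g ∘ φ
    · refine ⟨1, fun n b x _ _ _ => iw_pos (P := fun _ _ x => f ∘ x = g ∘ x) ?_⟩
      exact congrArg (· ∘ x) hs
    · refine ⟨0, fun n b x _ _ hx => iw_neg (P := fun _ _ x => f ∘ x = g ∘ x) fun h => hs ?_⟩
      funext a
      obtain ⟨ψ, rfl⟩ := hx (x 0) a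
      have e : (f ∘ φ) ∘ x = (g ∘ φ) ∘ x := h
      rw [← hol_map (hf.comp hφ) x ψ (x 0), ← hol_map (hg.comp hφ) x ψ (x 0), e]
      exact congrArg _ (congrFun e 0)

end Pool.Agent.P.MP_cc10d1_gt.UL
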