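import Pool.Agent.P.MP_cc10d1_gt.UL.Iface

/-! Step DEC. -/

set_option autoImplicit false
set_option linter.unusedSectionVars false

namespace Pool.Agent.P.MP_cc10d1_gt.UL

open Finset Filter Topology T R Quandles Rack
open scoped commutatorElement

namespace DECaux

variable {Y Y1 Y0 : Type} [Quandle Y] [Finite Y] [Quandle Y1] [Finite Y1] [Quandle Y0]

/-- The number of full fixed lifts with many full fixed lifts. -/
noncomputable def bg (p2 : Y → Y1) (p1 : Y1 → Y0) (M : ℕ) : Nt Y0 := fun n b x =>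
  Nat.card {t // (rho Y1 n b t = t ∧ p1 ∘ t = x) ∧ (TFull t ∧ ¬ nf p2 n b t ≤ M)}

omit [Finite Y] [Quandle Y0] in
theorem bg_le (p2 : Y → Y1) (p1 : Y1 → Y0) (M n : ℕ) (b : Br n) (x : Fin (n + 1) → Y0) :
    bg p2 p1 M n b x ≤ nf p1 n b x :=
  Nat.card_le_card_of_injective (fun t => ⟨t.1, t.2.1, t.2.2.1⟩)
    fun _ _ h => Subtype.ext (congrArg Subtype.val h :)

omit [Finite Y1] [Quandle Y1] [Quandle Y0] in
theorem le_nf (p2 : Y → Y1) (p1 : Y1 → Y0) (n : ℕ) (b : Br n) (t : Fin (n + 1) → Y1) :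
    nf p2 n b t ≤ nf (p1 ∘ p2) n b (p1 ∘ t) :=
  Nat.card_le_card_of_injective
    (fun y => ⟨y.1, ⟨y.2.1.1, congrArg (p1 ∘ ·) y.2.1.2⟩, y.2.2⟩)
    fun _ _ h => Subtype.ext (congrArg Subtype.val h :)

omit [Quandle Y0] in
theorem nf_le {p2 : Y → Y1} (h2 : IsHom p2) (hs : Function.Surjective p2) (p1 : Y1 → Y0)
    (M n : ℕ) (b : Br n) (x : Fin (n + 1) → Y0) (h0 : bg p2 p1 M n b x = 0) :
    nf (p1 ∘ p2) n b x ≤ nf p1 n b x * M := by
  classical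
  let T := {t // (rho Y1 n b t = t ∧ p1 ∘ t = x) ∧ TFull t}
  have : Fintype T := Fintype.ofFinite _
  let F : T → Type := fun t => {y // (rho Y n b y = y ∧ p2 ∘ y = t.1) ∧ TFull y}
  have hF : ∀ t : T, Nat.card (F t) ≤ M := fun t => by
    by_contra h
    have : Nonempty {t // (rho Y1 n b t = t ∧ p1 ∘ t = x) ∧ (TFull t ∧ ¬ nf p2 n b t ≤ M)} :=
      ⟨⟨t.1, t.2.1, t.2.2, h⟩⟩
    exact Nat.card_pos.ne' h0
  calc nf (p1 ∘ p2) n b x ≤ Nat.card (Σ t : T, F t) :=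
        Nat.card_le_card_of_injective
          (fun y => ⟨⟨p2 ∘ y.1, ⟨fix_map h2 y.2.1.1, y.2.1.2⟩, full_map h2 hs y.2.2⟩,
            ⟨y.1, ⟨y.2.1.1, rfl⟩, y.2.2⟩⟩)
          fun _ _ h => Subtype.ext (congrArg (fun u : Σ t : T, F t => u.2.1) h)
    _ = ∑ t : T, Nat.card (F t) := Nat.card_sigma
    _ ≤ ∑ _t : T, M := sum_le_sum fun t _ => hF t
    _ = nf p1 n b x * M := by
        rw [sum_const, card_univ, smul_eq_mul, ← Nat.card_eq_fintype_card]; rfl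

/-- The polynomial that is one at zero and vanishes at `1, …, M`. -/
noncomputable def dl (M : ℕ) : Polynomial ℝ :=
  ∏ k ∈ range M, (1 - Polynomial.C ((k + 1 : ℝ)⁻¹) * Polynomial.X)

theorem dl_zero (M : ℕ) : (dl M).eval 0 = 1 := by
  simp [dl, Polynomial.eval_prod]

theorem dl_pos {M k : ℕ} (h0 : k ≠ 0) (hk : k ≤ M) : (dl M).eval (k : ℝ) = 0 := by
  obtain ⟨k, rfl⟩ := Nat.exists_eq_succ_of_ne_zero h0
  rw [dl, Polynomial.eval_prod]
  refine prod_eq_zero (mem_range.2 hk) ?_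
  have : (k + 1 : ℝ) ≠ 0 := by positivity
  simp [inv_mul_cancel₀ this]

end DECaux

open DECaux

theorem p_DEC (hPOW : S_POW) (hCST : S_CST) (hTR : S_TR) :
    S_DEC := by
  intro Y Y1 Y0 _ _ _ _ _ p2 p1 h2 h1 hs i1 i2
  have hp : ∀ j : ℕ, cw (nf (p1 ∘ p2)) ^ j ∈ Adm Y0 := fun j => by
    rw [cw_nf]
    exact hPOW Y Y0 _ (h1.comp h2) _ (hCST.2.1 Y) (bd_iw _) j
  have hq : cw (nf p1) ∈ Adm Y0 := by
    rw [cw_nf, ← pow_one (cnt _ _)]
    exact hPOW Y1 Y0 _ h1 _ (hCST.2.1 Y1) (bd_iw _) 1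
  refine hTR Y0 _ hp (cw (nf p1) + cw (nf (p1 ∘ p2))) (add_mem hq (by simpa using hp 1))
    fun M => ⟨fun n b x => nf p1 n b x ≤ M ∧ bg p2 p1 M n b x = 0, M * M, ?_, fun n b x _ _ =>
      ⟨fun h => (nf_le h2 hs p1 M n b x h.2).trans (Nat.mul_le_mul_right _ h.1), ?_, fun h => ?_⟩⟩
  · have e1 : iw (fun n b (t : Fin (n + 1) → Y1) => TFull t ∧ ¬ nf p2 n b t ≤ M) =
        full Y1 * (1 - iw fun n b t => nf p2 n b t ≤ M) := by
      funext n b t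
      by_cases a1 : TFull t <;> by_cases a2 : nf p2 n b t ≤ M <;>
        simp [full, iw, ind, a1, a2]
    have e2 : cw (bg p2 p1 M) =
        cnt p1 (iw fun n b (t : Fin (n + 1) → Y1) => TFull t ∧ ¬ nf p2 n b t ≤ M) :=
      funext fun n => funext fun b => funext fun y =>
        (cnt_iw p1 (fun n b (t : Fin (n + 1) → Y1) => TFull t ∧ ¬ nf p2 n b t ≤ M) n b y).symm
    have e3 : ∀ j : ℕ, cw (bg p2 p1 M) ^ j ∈ Adm Y0 := fun j => by
      rw [e2]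
      refine hPOW Y1 Y0 _ h1 _ ?_ (bd_iw _) j
      rw [e1]
      exact adm_mul (hCST.2.1 Y1) (bd_iw _) (sub_mem adm_one (adm_le i2 M))
    refine adm_congr (fun n b x _ _ => ?_) (adm_mul (adm_le i1 M) (bd_iw _) (adm_pw e3 (dl M)))
    change iw _ n b x * (dl M).eval (bg p2 p1 M n b x : ℝ) = _
    by_cases a1 : nf p1 n b x ≤ M
    · by_cases a2 : bg p2 p1 M n b x = 0
      · rw [iw_pos (P := fun n b x => nf p1 n b x ≤ M) a1, iw_pos (P := fun n b x =>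
          nf p1 n b x ≤ M ∧ bg p2 p1 M n b x = 0) ⟨a1, a2⟩, a2, Nat.cast_zero, dl_zero, mul_one]
      · rw [dl_pos a2 ((bg_le p2 p1 M n b x).trans a1), mul_zero, iw_neg (P := fun n b x =>
          nf p1 n b x ≤ M ∧ bg p2 p1 M n b x = 0) fun h => a2 h.2]
    · rw [iw_neg (P := fun n b x => nf p1 n b x ≤ M) a1, zero_mul, iw_neg (P := fun n b x =>
          nf p1 n b x ≤ M ∧ bg p2 p1 M n b x = 0) fun h => a1 h.1]
  · change (0 : ℝ) ≤ (nf p1 n b x : ℝ) + nf (p1 ∘ p2) n b x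
    positivity
  · change (M : ℝ) ≤ (nf p1 n b x : ℝ) + nf (p1 ∘ p2) n b x
    have : M ≤ nf p1 n b x + nf (p1 ∘ p2) n b x := by
      by_cases a1 : nf p1 n b x ≤ M
      · obtain ⟨⟨t, ⟨-, rfl⟩, -, ht⟩⟩ := (Nat.card_ne_zero.1 fun a2 => h ⟨a1, a2⟩).1
        have := le_nf p2 p1 n b t
        omega
      · omega
    exact_mod_cast this

end Pool.Agent.P.MP_cc10d1_gt.UL
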