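import Pool.Agent.P.MP_cc10d1_gt.UL.Iface

/-! Step DIM. -/

set_option autoImplicit false
set_option linter.unusedSectionVars false

namespace Pool.Agent.P.MP_cc10d1_gt.UL

open Finset Filter Topology T R Quandles Rack
open scoped commutatorElement

namespace DIMaux

open Module

variable {Z F V : Type} [Quandle Z] [Field F] [AddCommGroup V] [Finite V] [Module F V]
  (σ : Ac Z F V)

theorem rk_act (a z : Z) : finrank F (rg σ (a ◃ z)) = finrank F (rg σ z) := by
  rw [← (σ.s a).finrank_map_eq (rg σ z)]
  refine congrArg (fun p : Submodule F V => finrank F p) (Submodule.ext fun w => ?_)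
  constructor
  · rintro ⟨v, rfl⟩
    obtain ⟨v, rfl⟩ := (σ.s a).surjective v
    exact ⟨_, ⟨v, rfl⟩, (map_sub (σ.s a) v _).trans (congrArg _ (σ.act a z v).symm)⟩
  · rintro ⟨_, ⟨v, rfl⟩, rfl⟩
    exact ⟨σ.s a v, ((map_sub (σ.s a) v _).trans (congrArg _ (σ.act a z v).symm)).symm⟩

theorem rk_hol (φ : FreeGroup Z) : ∀ z, finrank F (rg σ (hol id φ z)) = finrank F (rg σ z) := by
  induction φ using FreeGroup.induction_on with
  | C1 => intro z; rw [map_one]; rfl
  | of a => intro z; rw [hol_of]; exact rk_act σ a z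
  | inv_of a _ =>
    intro z
    rw [map_inv, hol_of, ← rk_act σ a]
    exact congrArg (fun t => finrank F (rg σ t)) (Rack.act_invAct_eq a z)
  | mul a b ha hb => intro z; rw [map_mul, Equiv.Perm.mul_apply, ha, hb]

theorem rk_W {m d : ℕ} (x : Fin m → Z) (h : ∀ z, finrank F (rg σ z) = d) :
    finrank F (Wx σ x) = m * d := by
  let e : Wx σ x ≃ₗ[F] ∀ i, rg σ (x i) :=
    { toFun := fun w i => ⟨w.1 i, w.2 i trivial⟩
      invFun := fun w => ⟨fun i => (w i).1, fun i _ => (w i).2⟩
      map_add' := fun _ _ => rfl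
      map_smul' := fun _ _ => rfl
      left_inv := fun _ => rfl
      right_inv := fun _ => rfl }
  rw [e.finrank_eq, finrank_pi_fintype]
  simp [h]

theorem rk_le {n : ℕ} (g h : Br n) (x : Fin (n + 1) → Z) (hx : rho Z n g x = x) :
    finrank F (Fx σ g x) ≤ finrank F (Fx σ (h * g * h⁻¹) (rho Z n h x)) := by
  have e : ∀ w, lam σ h⁻¹ (rho Z n h x) (lam σ h x w) = w := fun w => by
    rw [← lam_mul, inv_mul_cancel, lam_one]
  refine LinearMap.finrank_le_finrank_of_injective (f := (lam σ h x).restrict
    (p := Fx σ g x) fun w hw => ⟨lam_mem σ h hw.1, ?_⟩) fun w w' e' => Subtype.ext ?_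
  · have h2 : lam σ g x w = w := hw.2
    change lam σ _ _ _ = lam σ h x w
    rw [lam_mul, e, rho_inv_rho, lam_mul, h2, hx]
  · rw [← e w.1, ← e w'.1]
    exact congrArg _ (congrArg Subtype.val e')

end DIMaux

open DIMaux Module in
theorem p_DIM :
    S_DIM := by
  intro Z F V _ _ _ _ _ σ hc
  obtain ⟨d, hd⟩ : ∃ d, ∀ z, finrank F (rg σ z) = d := by
    rcases isEmpty_or_nonempty Z with _ | ⟨⟨a⟩⟩
    · exact ⟨0, fun z => isEmptyElim z⟩
    · refine ⟨finrank F (rg σ a), fun z => ?_⟩
      obtain ⟨φ, rfl⟩ := hc a z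
      exact rk_hol σ φ a
  refine ⟨d, fun m x => rk_W σ x hd, fun n i x hx => ?_, fun n g x z hx => ?_, fun n g h x => ?_⟩
  · classical
    let L : Wx σ x →ₗ[F] V :=
      (LinearMap.proj (R := F) (φ := fun _ : Fin (n + 1) => V) i.castSucc -
        LinearMap.proj (R := F) (φ := fun _ : Fin (n + 1) => V) i.succ).domRestrict _
    have hne := (Fin.castSucc_lt_succ (i := i)).ne
    have h1 : LinearMap.range L = rg σ (x i.castSucc) := by
      ext v
      constructor
      · rintro ⟨w, rfl⟩
        exact sub_mem (w.2 _ trivial) (hx ▸ w.2 _ trivial)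
      · intro hv
        refine ⟨⟨Pi.single i.castSucc v, fun j _ => ?_⟩, ?_⟩
        · by_cases hj : j = i.castSucc
          · subst hj; rwa [Pi.single_eq_same]
          · rw [Pi.single_eq_of_ne hj]; exact zero_mem _
        · change Pi.single (M := fun _ => V) i.castSucc v i.castSucc -
            Pi.single (M := fun _ => V) i.castSucc v i.succ = v
          rw [Pi.single_eq_same, Pi.single_eq_of_ne hne.symm, sub_zero]
    have h2 : (LinearMap.ker L).map (Wx σ x).subtype = Fx σ (sg i) x := by
      ext w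
      have h3 := rho_mk σ (sg i) x w
      rw [rho_sg_fix hx] at h3
      constructor
      · rintro ⟨w, hw, rfl⟩
        refine ⟨w.2, funext fun j => ?_⟩
        exact congrArg Prod.snd (congrFun (h3.symm.trans
          (rho_sg_fix (x := mk σ x w.1) (Prod.ext hx (sub_eq_zero.1 hw)))) j)
      · intro hw
        refine ⟨⟨w, hw.1⟩, sub_eq_zero.2 ?_, rfl⟩
        have h4 := congrFun h3 i.succ
        rw [show lam σ (sg i) x w = w from hw.2, rho_sg, cross_right hne] at h4
        exact congrArg Prod.snd h4
    have h5 := L.finrank_range_add_finrank_ker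
    rw [h1, hd, rk_W σ x hd, ← Submodule.finrank_map_subtype_eq, h2] at h5
    linarith
  · have h1 : ∀ w v, lam σ (up n g) (Fin.snoc x z) (Fin.snoc w v) =
        Fin.snoc (lam σ g x w) v := fun w v => by
      have e : ∀ (x : Fin (n + 1) → Z) (w : Fin (n + 1) → V), mk σ (Fin.snoc x z) (Fin.snoc w v) =
          Fin.snoc (α := fun _ => AQ σ) (mk σ x w) (z, v) := fun x w => funext fun j => by
        induction j using Fin.lastCases <;> simp [mk]
      have h2 := rho_mk σ (up n g) (Fin.snoc x z) (Fin.snoc w v)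
      rw [e, rho_up, rho_mk, ← e] at h2
      exact funext fun j => (congrArg Prod.snd (congrFun h2 j)).symm
    let e : Fx σ (up n g) (Fin.snoc x z) ≃ₗ[F] Fx σ g x × rg σ z :=
      { toFun := fun w => (⟨Fin.init w.1, fun j _ => by
            simpa [Fin.init] using w.2.1 j.castSucc trivial, by
            have h2 := h1 (Fin.init w.1) (w.1 (Fin.last _))
            rw [Fin.snoc_init_self, show lam σ _ _ w.1 = w.1 from w.2.2] at h2
            have h3 := congrArg Fin.init h2
            rw [Fin.init_snoc] at h3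
            exact h3.symm⟩, ⟨w.1 (Fin.last _), by simpa using w.2.1 (Fin.last _) trivial⟩)
        invFun := fun w => ⟨Fin.snoc w.1.1 w.2.1, fun j _ => by
            induction j using Fin.lastCases with
            | last => simp
            | cast j => simpa using w.1.2.1 j trivial, by
            change lam σ _ _ _ = Fin.snoc w.1.1 w.2.1
            rw [h1, show lam σ g x w.1.1 = w.1.1 from w.1.2.2]⟩
        map_add' := fun _ _ => rfl
        map_smul' := fun _ _ => rfl
        left_inv := fun w => Subtype.ext (Fin.snoc_init_self w.1)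
        right_inv := fun w => Prod.ext (Subtype.ext (Fin.init_snoc (α := fun _ => V) _ _))
          (Subtype.ext (Fin.snoc_last (α := fun _ => V) _ _)) }
    rw [e.finrank_eq, finrank_prod, hd]
  · refine (Classical.em (rho Z n g x = x)).imp_left fun hx => le_antisymm ?_ (rk_le σ g h x hx)
    have := rk_le σ (h * g * h⁻¹) h⁻¹ (rho Z n h x) (by rw [rho_mul, rho_inv_rho, rho_mul, hx])
    rwa [rho_inv_rho, show h⁻¹ * (h * g * h⁻¹) * h⁻¹⁻¹ = g by group] at this

end Pool.Agent.P.MP_cc10d1_gt.UL
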