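import Pool.Agent.P.MP_cc10d1_gt.UL.Iface

/-! Step DSS. -/

set_option autoImplicit false
set_option linter.unusedSectionVars false

namespace Pool.Agent.P.MP_cc10d1_gt.UL

open Finset Filter Topology T R Quandles Rack
open scoped commutatorElement

namespace DSSaux

theorem fin_hom (A : Type) [AddCommGroup A] [Finite A] : Finite (A →+ U) :=
  Nat.finite_of_card_ne_zero (by rw [card_hom]; exact Nat.card_pos.ne')

theorem sep (A : Type) [AddCommGroup A] [Finite A] {a : A} (ha : a ≠ 0) :
    ∃ χ : A →+ U, χ a ≠ 0 := by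
  obtain ⟨φ, hφ⟩ := CommGroup.exists_apply_ne_one_of_hasEnoughRootsOfUnity (Multiplicative A) ℂ
    (a := Multiplicative.ofAdd a) ha
  exact ⟨AddMonoidHom.toMultiplicativeLeft.symm φ, hφ⟩

variable {Z F V : Type} [Quandle Z] [Finite Z] [Field F] [AddCommGroup V] [Finite V] [Module F V]

theorem fin_DS (σ : Ac Z F V) : Finite (DS σ) := by
  have := fin_hom V
  unfold DS
  infer_instance

theorem s_single (σ : Ac Z F V) {j : ℕ} (z : Z) (i : Fin j) (v : V) :
    (σ.pi (Fin j)).s z (Pi.single i v) = Pi.single i (σ.s z v) := by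
  funext k
  rw [Ac.pi_s]
  by_cases h : k = i
  · subst h; simp
  · simp [Pi.single_eq_of_ne h]

theorem symm_single (σ : Ac Z F V) {j : ℕ} (z : Z) (i : Fin j) (v : V) :
    ((σ.pi (Fin j)).s z).symm (Pi.single i v) = Pi.single i ((σ.s z).symm v) := by
  rw [LinearEquiv.symm_apply_eq, s_single, LinearEquiv.apply_symm_apply]

/-- The components of a section of the dual of a power. -/
def comp (σ : Ac Z F V) (j : ℕ) (μ : DS (σ.pi (Fin j))) (i : Fin j) : DS σ :=
  ⟨fun z => (μ.1 z).comp (AddMonoidHom.single (fun _ : Fin j => V) i),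
    fun z v h => μ.2.1 z _ (by
      change (σ.pi (Fin j)).s z (Pi.single i v) = Pi.single i v
      rw [s_single, h]),
    fun a b v => by
      have := μ.2.2 a b (Pi.single i v)
      rw [symm_single, symm_single] at this
      exact this⟩

theorem part1 (σ : Ac Z F V) (j : ℕ) :
    Nat.card (DS (σ.pi (Fin j))) ≤ Nat.card (DS σ) ^ j := by
  have := fin_DS σ
  have : Function.Injective (comp σ j) := fun μ ν h => Subtype.ext (funext fun z =>
    AddMonoidHom.functions_ext _ _ _ fun i v =>
      DFunLike.congr_fun (congrFun (congrArg Subtype.val (congrFun h i)) z) v)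
  have := Nat.card_le_card_of_injective _ this
  rwa [Nat.card_fun, Nat.card_fin] at this

theorem part2 (σ : Ac Z F V) (β : V →+ V →+ U) (hβ : Inv σ β) (h1 : Function.Bijective β)
    (h2 : Function.Bijective β.flip) : Nat.card (DS σ) ≤ Nat.card (Sec σ) := by
  have hs : ∀ z v w, β (σ.s z v) w = β v ((σ.s z).symm w) := fun z v w => by
    rw [← hβ z v, LinearEquiv.apply_symm_apply]
  choose t ht using h1.2
  let f : DS σ → Sec σ := fun μ => ⟨fun z => t (μ.1 z), fun z => by
      by_contra hn
      have : Finite (V ⧸ rg σ z) := Finite.of_surjective _ (rg σ z).mkQ_surjective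
      obtain ⟨χ, hχ⟩ := sep (V ⧸ rg σ z) (a := Submodule.Quotient.mk (t (μ.1 z)))
        (fun h => hn ((Submodule.Quotient.mk_eq_zero _).1 h))
      obtain ⟨w, hw⟩ := h2.2 (χ.comp (rg σ z).mkQ.toAddMonoidHom)
      have hw' : ∀ v, β v w = χ (Submodule.Quotient.mk v) := fun v => DFunLike.congr_fun hw v
      have hfix : σ.s z w = w := by
        have : β.flip w = β.flip ((σ.s z).symm w) := AddMonoidHom.ext fun v => by
          change β v w = β v ((σ.s z).symm w)
          rw [← hs, ← sub_eq_zero, ← AddMonoidHom.sub_apply, ← map_sub, hw',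
            (Submodule.Quotient.mk_eq_zero _).2 ((mem_rg σ).2 ⟨v, rfl⟩), map_zero]
        have := h2.1 this
        conv_lhs => rw [this]
        exact LinearEquiv.apply_symm_apply _ _
      apply hχ
      rw [← hw', ht]
      exact μ.2.1 z w hfix,
    fun a b => h1.1 (AddMonoidHom.ext fun v => by
      rw [map_sub, map_add, AddMonoidHom.sub_apply, AddMonoidHom.add_apply, hs, hs, ht, ht, ht]
      exact μ.2.2 a b v)⟩
  refine Nat.card_le_card_of_injective f fun μ ν h => Subtype.ext (funext fun z => ?_)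
  have : t (μ.1 z) = t (ν.1 z) := congrFun (congrArg Subtype.val h) z
  rw [← ht (μ.1 z), this, ht]

end DSSaux

theorem p_DSS (hINV : S_INV) :
    S_DSS := by
  intro Z F V _ _ _ _ _ _ σ
  exact ⟨DSSaux.part1 σ, fun hI β hβ h0 =>
    DSSaux.part2 σ β hβ (hINV Z F V σ hI β hβ h0).1 (hINV Z F V σ hI β hβ h0).2.1⟩

end Pool.Agent.P.MP_cc10d1_gt.UL
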