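import Pool.Agent.P.MP_cc10d1_gt.UL.Iface

/-! Step ENV. -/

set_option autoImplicit false
set_option linter.unusedSectionVars false

namespace Pool.Agent.P.MP_cc10d1_gt.UL

open Finset Filter Topology T R Quandles Rack
open scoped commutatorElement

namespace ENVaux

theorem card_split {G : Type} [Group G] (R : Subgroup G) [Finite R] :
    Nat.card R = Nat.card (⁅R, R⁆ : Subgroup G) * Nat.card (R →* ℂˣ) := by
  have e1 : Nat.card (⁅R, R⁆ : Subgroup G) = Nat.card (commutator R) := by
    rw [← Subgroup.card_subtype R (commutator R), Subgroup.map_subtype_commutator]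
  have e2 : Nat.card (R →* ℂˣ) = Nat.card (Abelianization R) := by
    have : NeZero (Monoid.exponent (Abelianization R)) := ⟨Monoid.exponent_ne_zero_of_finite⟩
    rw [Nat.card_congr (Abelianization.lift (G := R) (A := ℂˣ))]
    exact CommGroup.card_monoidHom_of_hasEnoughRootsOfUnity (Abelianization R) ℂ
  rw [e1, e2, ← (commutator R).card_mul_index]
  rfl

theorem card_le {G H : Type} [Group G] [Group H] (f : G →* H) [Finite f.ker]
    [Finite (commutator H)] :
    Nat.card (commutator G) ≤ Nat.card (commutator H) * Nat.card f.ker := by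
  let g : commutator G →* H := f.comp (commutator G).subtype
  rw [← g.ker.card_mul_index, Subgroup.index_ker, mul_comm]
  refine Nat.mul_le_mul (Subgroup.card_le_of_le ?_) ?_
  · rintro _ ⟨x, rfl⟩
    have : (commutator G).map f ≤ commutator H := by
      rw [commutator_def, Subgroup.map_commutator]
      exact Subgroup.commutator_mono le_top le_top
    exact this ⟨x, x.2, rfl⟩
  · exact Nat.card_le_card_of_injective (fun x : g.ker => (⟨x.1.1, x.2⟩ : f.ker))
      fun x y h => Subtype.ext (Subtype.ext (congrArg (fun u : f.ker => u.1) h))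

end ENVaux

theorem p_ENV (hFIN : S_FIN) (hHS : S_HS) (hHF : S_HF) (hHD : S_HD) :
    S_ENV := by
  intro Z F V _ _ _ _ _ _ σ h1 h2 ⟨z0⟩
  obtain ⟨h, f, a1, a2, a3, a4, a5⟩ := hHS Z F V σ h1
  have b1 := hFIN (LQ σ)
  have b2 := hFIN Z
  have hd : ∀ u, S.deg (f u) = S.deg u := fun u => by
    induction u using S.env_ind with
    | h1 => rw [map_one, map_one, map_one]
    | hg a => rw [a3]; rfl
    | hm u v a b => rw [map_mul, map_mul, map_mul, a, b]
    | hi u a => rw [map_inv, map_inv, map_inv, a]
  have hle : f.ker ≤ commutator _ := fun u hu =>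
    S.ker_deg (conn_of_cn h2) (zs σ z0) (by rw [← hd, MonoidHom.mem_ker.1 hu, map_one])
  have b3 : Finite f.ker := Finite.of_injective _ (Subgroup.inclusion_injective hle)
  have b4 : Finite h.R := a2 ▸ b3
  have c1 := hHF Z F V _ σ h b4 a4
  have c2 := hHD Z F V _ σ h b4 (a2 ▸ f.normal_ker) a4 (by rw [a1]; exact a5)
  refine (ENVaux.card_le f).trans ?_
  rw [← a2, ENVaux.card_split h.R, mul_assoc]
  exact Nat.mul_le_mul_left _ (Nat.mul_le_mul c1 c2)

end Pool.Agent.P.MP_cc10d1_gt.UL
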