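import Pool.Agent.P.MP_cc10d1_gt.UL.Iface

/-! Step EVEN. -/

set_option autoImplicit false
set_option linter.unusedSectionVars false

namespace Pool.Agent.P.MP_cc10d1_gt.UL

open Finset Filter Topology T R Quandles Rack
open scoped commutatorElement

namespace EVENaux

theorem det_zero {F : Type} [CommRing F] {n : ℕ} (hn : Odd n) (M : Matrix (Fin n) (Fin n) F)
    (h0 : ∀ i, M i i = 0) (h1 : ∀ i j, M j i = -M i j) : M.det = 0 := by
  let A : Matrix (Fin n) (Fin n) (MvPolynomial (Fin n × Fin n) ℤ) :=
    Matrix.of fun i j => MvPolynomial.X (i, j) - MvPolynomial.X (j, i)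
  have hA : A.det = 0 := by
    have e : A.transpose = -A := by
      ext1 i j
      simp [A]
    have e2 := Matrix.det_transpose A
    rw [e, Matrix.det_neg, Fintype.card_fin, hn.neg_one_pow, neg_one_mul] at e2
    exact self_eq_neg.1 e2.symm
  let φ : MvPolynomial (Fin n × Fin n) ℤ →+* F :=
    MvPolynomial.eval₂Hom (Int.castRingHom F) fun p => if p.1 < p.2 then M p.1 p.2 else 0
  have e : φ.mapMatrix A = M := by
    ext i j
    simp only [A, φ, RingHom.mapMatrix_apply, Matrix.map_apply, Matrix.of_apply, map_sub,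
      MvPolynomial.eval₂Hom_X']
    rcases lt_trichotomy i j with h | rfl | h
    · rw [if_pos h, if_neg h.not_gt, sub_zero]
    · rw [sub_self, h0]
    · rw [if_neg h.not_gt, if_pos h, zero_sub, h1 j i]
  rw [← e, ← RingHom.map_det, hA, map_zero]

end EVENaux

theorem p_EVEN :
    S_EVEN := by
  intro F W _ _ _ _ B hB
  have hs : ∀ u w, B w u = -B u w := fun u w => by
    have := hB (u + w)
    simp only [map_add, LinearMap.add_apply, hB] at this
    linear_combination this
  obtain ⟨C, hC⟩ := (LinearMap.ker B).exists_isCompl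
  have hd := Submodule.finrank_add_eq_of_isCompl hC
  have hsep : (B.domRestrict₁₂ C C).SeparatingLeft := fun x hx => by
    have : (x : W) ∈ LinearMap.ker B := by
      refine LinearMap.ext fun w => ?_
      obtain ⟨k, hk, c, hc, rfl⟩ := Submodule.mem_sup.1 (hC.sup_eq_top ▸ Submodule.mem_top (x := w))
      have h1 : B x c = 0 := hx ⟨c, hc⟩
      rw [map_add, h1, hs k x, LinearMap.mem_ker.1 hk]
      simp
    exact Subtype.ext (Submodule.disjoint_def.1 hC.disjoint _ this x.2)
  have hdet := (LinearMap.separatingLeft_iff_det_ne_zero (Module.finBasis F C)).1 hsep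
  have he : Even (Module.finrank F C) := by
    by_contra h
    refine hdet (EVENaux.det_zero (Nat.not_even_iff_odd.1 h) _ (fun i => ?_) fun i j => ?_)
    · rw [LinearMap.toMatrix₂_apply]
      exact hB _
    · rw [LinearMap.toMatrix₂_apply, LinearMap.toMatrix₂_apply]
      exact hs _ _
  obtain ⟨m, hm⟩ := he
  exact ⟨Module.finrank F (LinearMap.ker B) + m, by omega⟩

end Pool.Agent.P.MP_cc10d1_gt.UL
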