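import Pool.Agent.P.MP_cc10d1_gt.UL.Iface

/-! Step FIN. -/

set_option autoImplicit false
set_option linter.unusedSectionVars false

namespace Pool.Agent.P.MP_cc10d1_gt.UL

open Finset Filter Topology T R Quandles Rack
open scoped commutatorElement

theorem p_FIN (hSCH : S_SCH) :
    S_FIN := by
  obtain ⟨cb, h⟩ := hSCH
  intro Q _ _
  refine (h (EnvelGroup Q) (S.ea (C := Q)).ker _ (fun c hc a => S.central_of_ea hc a) ?_ le_rfl).1
  rw [Subgroup.index_ker]
  exact Nat.card_pos.ne'

end Pool.Agent.P.MP_cc10d1_gt.UL
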