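import Pool.Agent.P.MP_cc10d1_gt.UL.Iface

/-! Step FLD. -/

set_option autoImplicit false
set_option linter.unusedSectionVars false

namespace Pool.Agent.P.MP_cc10d1_gt.UL

open Finset Filter Topology T R Quandles Rack
open scoped commutatorElement

namespace FLDaux

variable {Z V : Type} [AddCommGroup V] (s : Z → V ≃+ V)

/-- The commuting endomorphisms. -/
def Cm : Subring (AddMonoid.End V) where
  carrier := {f | ∀ z v, f (s z v) = s z (f v)}
  mul_mem' := fun {f g} hf hg z v => by
    change f (g (s z v)) = s z (f (g v))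
    rw [hg, hf]
  one_mem' := fun _ _ => rfl
  add_mem' := fun {f g} hf hg z v => by
    change f (s z v) + g (s z v) = s z (f v + g v)
    rw [hg, hf, map_add]
  zero_mem' := fun z v => by
    change (0 : V) = s z 0
    rw [map_zero]
  neg_mem' := fun {f} hf z v => by
    change -f (s z v) = s z (-f v)
    rw [hf, map_neg]

theorem fin [Finite V] : Finite (Cm s) :=
  Finite.of_injective (fun f : Cm s => (f.1 : V → V))
    fun _ _ h => Subtype.ext (DFunLike.coe_injective h)

theorem dom (h1 : ∃ z v, s z v ≠ v)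
    (h2 : ∀ M : AddSubgroup V, (∀ z, ∀ v ∈ M, s z v ∈ M) → M = ⊥ ∨ M = ⊤) : IsDomain (Cm s) := by
  obtain ⟨z0, v0, h0⟩ := h1
  have hv : v0 ≠ 0 := fun e => h0 (by rw [e, map_zero])
  have : Nontrivial (Cm s) := ⟨⟨1, 0, fun e => hv (DFunLike.congr_fun (congrArg Subtype.val e) v0)⟩⟩
  have : NoZeroDivisors (Cm s) := ⟨fun {f g} e => by
    rcases h2 (AddMonoidHom.ker (f.1 : V →+ V)) (fun z v hv =>
      (f.2 z v).trans ((congrArg (s z) hv).trans (map_zero _))) with k | k
    · refine .inr (Subtype.ext (DFunLike.ext _ _ fun v => ?_))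
      have : g.1 v ∈ AddMonoidHom.ker (f.1 : V →+ V) := DFunLike.congr_fun (congrArg Subtype.val e) v
      rw [k] at this
      exact this
    · refine .inl (Subtype.ext (DFunLike.ext _ _ fun v => ?_))
      have : v ∈ AddMonoidHom.ker (f.1 : V →+ V) := by rw [k]; trivial
      exact this⟩
  exact NoZeroDivisors.to_isDomain _

end FLDaux

theorem p_FLD :
    S_FLD := by
  intro Z V _ _ _ s h0 h1 h2
  have := FLDaux.fin s
  have := FLDaux.dom s h1 h2
  let _ : Field (FLDaux.Cm s) := (Finite.isDomain_to_isField _).toField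
  let _ : Module (FLDaux.Cm s) V := Module.compHom V (FLDaux.Cm s).subtype
  refine ⟨FLDaux.Cm s, inferInstance, inferInstance, inferInstance,
    ⟨fun z => { s z with map_smul' := fun c v => (c.2 z v).symm }, fun a b =>
      LinearEquiv.ext fun v => h0 a b v⟩, ⟨h1, h2, fun f hf => ⟨⟨f, hf⟩, fun _ => rfl⟩⟩,
    fun _ _ => rfl⟩

end Pool.Agent.P.MP_cc10d1_gt.UL
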