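import Pool.Agent.P.MP_cc10d1_gt.UL.Iface

/-! Step FUL. -/

set_option autoImplicit false
set_option linter.unusedSectionVars false

namespace Pool.Agent.P.MP_cc10d1_gt.UL

open Finset Filter Topology T R Quandles Rack
open scoped commutatorElement

namespace FULaux

variable {Z F V V' ι : Type} [Quandle Z] [Field F] [AddCommGroup V] [Module F V]
  [AddCommGroup V'] [Module F V']

/-- The affine holonomy. -/
def TT (σ : Ac Z F V) (x : ι → Z) (w : ι → V) : FreeGroup ι →* Af F V :=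
  FreeGroup.lift (aff σ ∘ mk σ x w)

/-- The linear holonomy. -/
def LL (σ : Ac Z F V) (x : ι → Z) : FreeGroup ι →* (V ≃ₗ[F] V) := FreeGroup.lift (σ.s ∘ x)

theorem TT_of (σ : Ac Z F V) (x : ι → Z) (w : ι → V) (i : ι) :
    TT σ x w (FreeGroup.of i) = ⟨w i, σ.s (x i)⟩ := FreeGroup.lift_apply_of

theorem LL_of (σ : Ac Z F V) (x : ι → Z) (i : ι) : LL σ x (FreeGroup.of i) = σ.s (x i) :=
  FreeGroup.lift_apply_of

theorem TT_s (σ : Ac Z F V) (x : ι → Z) (w : ι → V) (a : FreeGroup ι) :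
    (TT σ x w a).s = LL σ x a :=
  DFunLike.congr_fun (FreeGroup.ext_hom (Af.lin.comp (TT σ x w)) (LL σ x) fun i => by
    rw [MonoidHom.comp_apply, TT_of, LL_of]; rfl) a

theorem nat_symm {σ : Ac Z F V} {σ' : Ac Z F V'} (f : V →+ V')
    (h : ∀ z v, f (σ.s z v) = σ'.s z (f v)) (z : Z) (v : V) :
    f ((σ.s z).symm v) = (σ'.s z).symm (f v) := by
  rw [LinearEquiv.eq_symm_apply, ← h, LinearEquiv.apply_symm_apply]

theorem nat_s {σ : Ac Z F V} {σ' : Ac Z F V'} (f : V →+ V')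
    (h : ∀ z v, f (σ.s z v) = σ'.s z (f v)) (x : ι → Z) (a : FreeGroup ι) :
    ∀ v, f (LL σ x a v) = LL σ' x a (f v) := by
  induction a using FreeGroup.induction_on with
  | C1 => intro v; rw [map_one, map_one, le_one, le_one]
  | of i => intro v; rw [LL_of, LL_of, h]
  | inv_of i _ => intro v; rw [map_inv, map_inv, LL_of, LL_of, le_inv, le_inv, nat_symm f h]
  | mul a b h1 h2 => intro v; rw [map_mul, map_mul, le_mul, le_mul, h1, h2]

theorem nat_v {σ : Ac Z F V} {σ' : Ac Z F V'} (f : V →+ V')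
    (h : ∀ z v, f (σ.s z v) = σ'.s z (f v)) (x : ι → Z) (w : ι → V) (a : FreeGroup ι) :
    f (TT σ x w a).v = (TT σ' x (f ∘ w) a).v := by
  induction a using FreeGroup.induction_on with
  | C1 => rw [map_one, map_one, Af.one_v, Af.one_v, map_zero]
  | of i => rw [TT_of, TT_of]; rfl
  | inv_of i _ =>
    rw [map_inv, map_inv, TT_of, TT_of, Af.inv_v, Af.inv_v, map_neg, le_inv, le_inv, nat_symm f h]
    rfl
  | mul a b h1 h2 =>
    rw [map_mul, map_mul, Af.mul_v, Af.mul_v, map_add, h1, TT_s, TT_s, nat_s f h, h2]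

theorem LL_pi (σ : Ac Z F V) (J : Type) (x : ι → Z) {a : FreeGroup ι} (h : LL σ x a = 1) :
    LL (σ.pi J) x a = 1 :=
  LinearEquiv.ext fun v => funext fun i => by
    have := nat_s (σ := σ.pi J) (σ' := σ) (Pi.evalAddMonoidHom (fun _ : J => V) i)
      (fun _ _ => rfl) x a v
    rw [h] at this
    exact this

theorem LL_conj (σ : Ac Z F V) (x : ι → Z) (ψ : FreeGroup ι) (i : ι) :
    LL σ x (ψ * FreeGroup.of i * ψ⁻¹) = σ.s (hol x ψ (x i)) := by
  rw [map_mul, map_mul, map_inv, LL_of]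
  exact CHom.lift σ.h x ψ (x i)

/-- The translation parts of the elements that act trivially on the base. -/
def MM (σ0 : Ac Z F V') (σ : Ac Z F V) (x : ι → Z) (w : ι → V)
    (hs : ∀ a, LL σ0 x a = 1 → LL σ x a = 1) : AddSubgroup V where
  carrier := {v | ∃ a, hol x a = 1 ∧ LL σ0 x a = 1 ∧ (TT σ x w a).v = v}
  zero_mem' := ⟨1, map_one _, map_one _, by rw [map_one, Af.one_v]⟩
  add_mem' := by
    rintro _ _ ⟨a, a1, a2, rfl⟩ ⟨b, b1, b2, rfl⟩
    refine ⟨a * b, by rw [map_mul, a1, b1, mul_one], by rw [map_mul, a2, b2, mul_one], ?_⟩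
    rw [map_mul, Af.mul_v, TT_s, hs a a2, le_one]
  neg_mem' := by
    rintro _ ⟨a, a1, a2, rfl⟩
    refine ⟨a⁻¹, by rw [map_inv, a1, inv_one], by rw [map_inv, a2, inv_one], ?_⟩
    rw [map_inv, Af.inv_v, TT_s, hs a a2, inv_one, le_one]

theorem MM_inv (σ0 : Ac Z F V') (σ : Ac Z F V) (x : ι → Z) (w : ι → V)
    (hs : ∀ a, LL σ0 x a = 1 → LL σ x a = 1) (hx : TFull x) (i : ι) (z : Z) :
    ∀ v ∈ MM σ0 σ x w hs, σ.s z v ∈ MM σ0 σ x w hs := by
  rintro _ ⟨a, a1, a2, rfl⟩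
  obtain ⟨ψ, rfl⟩ := hx (x i) z
  set g := ψ * FreeGroup.of i * ψ⁻¹ with hg
  refine ⟨g * a * g⁻¹, by rw [map_mul, map_mul, a1, mul_one, map_inv, mul_inv_cancel],
    by rw [map_mul, map_mul, a2, mul_one, map_inv, mul_inv_cancel], ?_⟩
  rw [map_mul, map_mul, map_inv, Af.conj_v, TT_s, TT_s, hs a a2, mul_one, mul_inv_cancel, le_one,
    hg, LL_conj]
  abel

theorem full_of (σ : Ac Z F V) (x : ι → Z) (w : Wx σ x) (hx : TFull x)
    (hM : ∀ v, ∃ a, hol x a = 1 ∧ LL σ x a = 1 ∧ (TT σ x w.1 a).v = v) : TFull (mkL σ x w) := by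
  intro p q
  obtain ⟨φ, hφ⟩ := hx (lp σ p) (lp σ q)
  have hb : ∀ (a : FreeGroup ι) (r : LQ σ), lp σ (hol (mkL σ x w) a r) = hol x a (lp σ r) :=
    fun a r => (hol_map (isHom_lp σ) (mkL σ x w) a r).symm
  set r := hol (mkL σ x w) φ p with hr
  have h1 : lp σ r = lp σ q := by rw [hr, hb, hφ]
  have hq : q.1.2 ∈ rg σ (lp σ r) := by rw [h1]; exact q.2
  have hr2 : r.1.2 ∈ rg σ (lp σ r) := r.2
  obtain ⟨v, hv⟩ := (mem_rg σ).1 (sub_mem hq hr2)
  obtain ⟨a, a1, a2, a3⟩ := hM v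
  refine ⟨a * φ, ?_⟩
  rw [map_mul, Equiv.Perm.mul_apply, ← hr]
  have h2 : lp σ (hol (mkL σ x w) a r) = lp σ q := by rw [hb, a1, ← h1]; rfl
  have h3 := CHom.lift ((cHom_aff σ).comp (isHom_val ⟨_, cl_rg σ⟩)) (mkL σ x w) a r
  have h4 : FreeGroup.lift ((aff σ ∘ fun a : LQ σ => a.1) ∘ mkL σ x w) = TT σ x w.1 := rfl
  rw [h4] at h3
  refine Subtype.ext (Prod.ext h2 ?_)
  have h5 := congrArg Af.v h3
  rw [Af.conj_v, TT_s, a2, a3, one_mul, inv_one, mul_one, le_one] at h5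
  change v + r.1.2 - σ.s (lp σ r) v = (hol (mkL σ x w) a r).1.2 at h5
  rw [← h5, add_sub_right_comm, hv, sub_add_cancel]

/-- A linear combination of the coordinates. -/
def cmb {j : ℕ} (c : Fin j → F) : (Fin j → V) →+ V where
  toFun v := ∑ i, c i • v i
  map_zero' := by simp
  map_add' v w := by simp only [Pi.add_apply, smul_add, sum_add_distrib]

end FULaux

open FULaux in
theorem p_FUL (hFUN : S_FUN) (hSEC : S_SEC) :
    S_FUL := by
  intro Z F V _ _ _ _ σ hσ n j x w hx hc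
  have hs : ∀ a, LL σ x a = 1 → LL (σ.pi (Fin j)) x a = 1 := fun a h => LL_pi σ _ x h
  by_cases hM : MM σ (σ.pi (Fin j)) x w.1 hs = ⊤
  · refine full_of _ x w hx fun v => ?_
    have hv : v ∈ MM σ (σ.pi (Fin j)) x w.1 hs := hM ▸ AddSubgroup.mem_top v
    obtain ⟨a, a1, a2, a3⟩ := hv
    exact ⟨a, a1, hs a a2, a3⟩
  · exfalso
    obtain ⟨c, hc0, hcM⟩ := hFUN Z F V σ hσ j _ (MM_inv σ (σ.pi (Fin j)) x w.1 hs hx 0) hM
    have he : ∀ z v, cmb c ((σ.pi (Fin j)).s z v) = σ.s z (cmb c v) := fun z v => by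
      change ∑ i, c i • σ.s z (v i) = σ.s z (∑ i, c i • v i)
      simp only [map_sum, map_smul]
    have hw : (cmb c ∘ w.1 : Fin (n + 1) → V) ∈ Wx σ x := (mem_Wx σ).2 fun m => by
      obtain ⟨v, hv⟩ := (mem_rg _).1 ((mem_Wx _).1 w.2 m)
      exact (mem_rg σ).2 ⟨cmb c v, by rw [← he, ← map_sub, hv]; rfl⟩
    have hk : ∀ a, hol x a = 1 → LL σ x a = 1 → (TT σ x (cmb c ∘ w.1) a).v = 0 := fun a a1 a2 => by
      rw [← nat_v (σ := σ.pi (Fin j)) (cmb c) he x w.1 a]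
      exact hcM _ ⟨a, a1, a2, rfl⟩
    obtain ⟨t, ht, htx⟩ := hSEC Z F V σ n x (cmb c ∘ w.1) hx hw hk
    exact hc0 (hc c ⟨t, ht, fun m => congrFun htx m⟩)

end Pool.Agent.P.MP_cc10d1_gt.UL
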