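import Pool.Agent.P.MP_cc10d1_gt.UL.Iface

/-! Step FUN. -/

set_option autoImplicit false
set_option linter.unusedSectionVars false

namespace Pool.Agent.P.MP_cc10d1_gt.UL

open Finset Filter Topology T R Quandles Rack
open scoped commutatorElement

theorem p_FUN :
    S_FUN := by
  intro Z F V _ _ _ _ σ hσ j
  induction j with
  | zero =>
    intro M _ hM
    exact absurd (eq_top_iff.2 fun v _ => Subsingleton.elim 0 v ▸ M.zero_mem) hM
  | succ j ih =>
    intro M hM hT
    let τ : (Fin (j + 1) → V) →+ (Fin j → V) := AddMonoidHom.mk' (fun v i => v i.succ) fun _ _ => rfl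
    by_cases h1 : M.map τ = ⊤
    swap
    · obtain ⟨c, hc, h⟩ := ih (M.map τ) (by
        rintro z _ ⟨v, hv, rfl⟩
        exact ⟨_, hM z v hv, rfl⟩) h1
      refine ⟨Fin.cons 0 c, fun e => hc (funext fun i => by simpa using congrFun e i.succ),
        fun v hv => ?_⟩
      rw [Fin.sum_univ_succ, Fin.cons_zero, zero_smul, zero_add]
      exact h _ ⟨v, hv, rfl⟩
    have h2 : ∀ u, ∃ w ∈ M, τ w = u := fun u => AddSubgroup.mem_map.1 (h1 ▸ AddSubgroup.mem_top u)
    have h3 : ∀ v w : Fin (j + 1) → V, τ v = τ w → v - w = Pi.single 0 (v 0 - w 0) := by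
      intro v w e
      funext i
      refine Fin.cases (by simp) (fun i => ?_) i
      rw [Pi.single_eq_of_ne (Fin.succ_ne_zero i)]
      exact sub_eq_zero.2 (congrFun e i)
    have h4 : ∀ (n : ℕ) (i : Fin n) z (v : V),
        (σ.pi (Fin n)).s z (Pi.single i v) = Pi.single i (σ.s z v) := fun n i z v =>
      funext fun k => Pi.apply_single (fun _ => σ.s z) (fun _ => map_zero _) i v k
    rcases hσ.sim (M.comap (AddMonoidHom.single (fun _ => V) 0)) (fun z v hv => by
      have := hM z _ hv
      rwa [AddMonoidHom.single_apply, h4] at this) with h5 | h5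
    · choose g g1 g2 using h2
      have h6 : ∀ w ∈ M, g (τ w) 0 = w 0 := fun w hw => by
        have h7 := M.sub_mem (g1 (τ w)) hw
        rw [h3 _ _ (g2 _)] at h7
        exact sub_eq_zero.1 (AddSubgroup.mem_bot.1 (h5 ▸ AddSubgroup.mem_comap.2 h7))
      let f : (Fin j → V) →+ V := AddMonoidHom.mk' (fun u => g u 0) fun u u' => by
        have := h6 _ (M.add_mem (g1 u) (g1 u'))
        rwa [map_add, g2, g2] at this
      have h8 : ∀ z u, f ((σ.pi (Fin j)).s z u) = σ.s z (f u) := fun z u => by
        have := h6 _ (hM z _ (g1 u))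
        rwa [show τ ((σ.pi (Fin (j + 1))).s z (g u)) = (σ.pi (Fin j)).s z (τ (g u)) from rfl,
          g2] at this
      choose c hc using fun i => hσ.sch (f.comp (AddMonoidHom.single (fun _ => V) i))
        fun z v => by
          have := h8 z (Pi.single i v)
          rwa [h4] at this
      refine ⟨Fin.cons (-1) c, fun e => by simpa using congrFun e 0, fun v hv => ?_⟩
      have h9 : f (τ v) = ∑ i, c i • v i.succ := by
        rw [← Finset.univ_sum_single (τ v), map_sum]
        exact sum_congr rfl fun i _ => hc i _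
      rw [Fin.sum_univ_succ, Fin.cons_zero, neg_one_smul, ← h6 v hv]
      exact neg_add_eq_zero.2 h9
    · refine absurd (eq_top_iff.2 fun v _ => ?_) hT
      obtain ⟨w, hw, e⟩ := h2 (τ v)
      have h7 : v - w ∈ M := by
        rw [h3 v w e.symm]
        exact AddSubgroup.mem_comap.1 (h5 ▸ AddSubgroup.mem_top (v 0 - w 0))
      simpa using M.add_mem h7 hw

end Pool.Agent.P.MP_cc10d1_gt.UL
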