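import Pool.Agent.P.MP_cc10d1_gt.UL.Iface

/-! Step GOU. -/

set_option autoImplicit false
set_option linter.unusedSectionVars false

namespace Pool.Agent.P.MP_cc10d1_gt.UL

open Finset Filter Topology T R Quandles Rack
open scoped commutatorElement

theorem p_GOU :
    S_GOU := by
  intro Φ H _ _ N hN hmin i t K0 hK0 hsurj hcomp hK0N hK0ne hker k g hg
  classical
  have key : ∀ (K : Subgroup Φ), K.Normal → (∀ a ∈ K, t k a ∈ N) → ¬ K ≤ (t k).ker →
      K.map (t k) = N := by
    intro K hK hKN hKne
    have hnorm : (K.map (t k)).Normal := hK.map (t k) (hsurj k)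
    have hle : K.map (t k) ≤ N := by
      rintro _ ⟨a, ha, rfl⟩
      exact hKN a ha
    rcases hmin _ hnorm hle with h | h
    · exact absurd ((Subgroup.map_eq_bot_iff K).1 h) hKne
    · exact h
  have main : ∀ s : Finset (Fin i), k ∉ s → ∃ K : Subgroup Φ, K.Normal ∧ K ≤ K0 ∧
      (∀ l ∈ s, K ≤ (t l).ker) ∧ K.map (t k) = N := by
    intro s
    induction s using Finset.induction_on with
    | empty =>
      intro _
      exact ⟨K0, hK0, le_rfl, by simp, key K0 hK0 (hK0N k) (hK0ne k)⟩
    | insert l s hl ih =>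
      intro hk
      have hkl : l ≠ k := fun h => hk (h ▸ Finset.mem_insert_self l s)
      have hks : k ∉ s := fun h => hk (Finset.mem_insert_of_mem h)
      obtain ⟨K, hKn, hKle, hKs, hKm⟩ := ih hks
      have hl2 : ((t l).ker).map (t k) = N := by
        refine key _ inferInstance ?_ (hker l k hkl)
        intro a ha
        refine hcomp l k a ?_
        rw [MonoidHom.mem_ker.1 ha]
        exact N.one_mem
      have := hKn
      have hc : ⁅K, (t l).ker⁆ ≤ K ⊓ (t l).ker := Subgroup.commutator_le_inf K (t l).ker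
      refine ⟨⁅K, (t l).ker⁆, inferInstance, (hc.trans inf_le_left).trans hKle, ?_, ?_⟩
      · intro m hm
        rcases Finset.mem_insert.1 hm with rfl | hm
        · exact hc.trans inf_le_right
        · exact (hc.trans inf_le_left).trans (hKs m hm)
      · rw [Subgroup.map_commutator, hKm, hl2, hN]
  obtain ⟨K, -, hKle, hKs, hKm⟩ := main (Finset.univ.erase k) (Finset.notMem_erase k _)
  rw [← hKm] at hg
  obtain ⟨a, ha, rfl⟩ := hg
  refine ⟨a, hKle ha, rfl, fun l hl => ?_⟩
  exact MonoidHom.mem_ker.1 (hKs l (Finset.mem_erase.2 ⟨hl, Finset.mem_univ l⟩) ha)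

end Pool.Agent.P.MP_cc10d1_gt.UL
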