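import Pool.Agent.P.MP_cc10d1_gt.UL.Iface

/-! Step HD. -/

set_option autoImplicit false
set_option linter.unusedSectionVars false

namespace Pool.Agent.P.MP_cc10d1_gt.UL

open Finset Filter Topology T R Quandles Rack
open scoped commutatorElement

namespace HDaux

variable {G : Type} [Group G] {S : Subgroup G}

open Classical in
/-- A character, extended by zero. -/
noncomputable def K (κ : S →* ℂˣ) (g : G) : U :=
  if hg : g ∈ S then Additive.ofMul (κ ⟨g, hg⟩) else 0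

theorem K_pos (κ : S →* ℂˣ) {g : G} (hg : g ∈ S) : K κ g = Additive.ofMul (κ ⟨g, hg⟩) :=
  dif_pos hg

theorem K_mul (κ : S →* ℂˣ) {g g' : G} (hg : g ∈ S) (hg' : g' ∈ S) :
    K κ (g * g') = K κ g + K κ g' := by
  rw [K_pos κ hg, K_pos κ hg', K_pos κ (mul_mem hg hg'), ← ofMul_mul, ← map_mul]; rfl

theorem K_one (κ : S →* ℂˣ) : K κ (1 : G) = 0 := by
  have := K_mul κ (one_mem S) (one_mem S)
  rw [mul_one] at this
  exact left_eq_add.1 this

theorem K_inv (κ : S →* ℂˣ) {g : G} (hg : g ∈ S) : K κ g⁻¹ = -K κ g := by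
  rw [eq_neg_iff_add_eq_zero, ← K_mul κ (inv_mem hg) hg, inv_mul_cancel, K_one]

/-- The defect of invariance. -/
noncomputable def D (κ : S →* ℂˣ) (e u : G) : U := K κ u - K κ (e⁻¹ * u * e)

theorem D_mul (hS : S.Normal) (κ : S →* ℂˣ) (e : G) {u u' : G} (hu : u ∈ S) (hu' : u' ∈ S) :
    D κ e (u * u') = D κ e u + D κ e u' := by
  have : e⁻¹ * (u * u') * e = (e⁻¹ * u * e) * (e⁻¹ * u' * e) := by group
  rw [D, D, D, this, K_mul κ hu hu', K_mul κ (hS.conj_mem' _ hu e) (hS.conj_mem' _ hu' e)]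
  abel

theorem D_comm (κ : S →* ℂˣ) {e u : G} (h : Commute u e) : D κ e u = 0 := by
  rw [D, mul_assoc, h.eq, inv_mul_cancel_left, sub_self]

end HDaux

open HDaux

theorem p_HD :
    S_HD := by
  intro Z F V G _ _ _ _ _ _ _ σ h _ hN hc hM
  choose L hL hπ using h.sur
  have Dc : ∀ (κ : h.R →* ℂˣ) (e : G), ∀ u ∈ h.R, ∀ u' ∈ h.R, h.π u = h.π u' →
      D κ e u = D κ e u' := by
    intro κ e u hu u' hu' e1
    have hm : u⁻¹ * u' ∈ h.R := mul_mem (inv_mem hu) hu'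
    have h0 : h.π (u⁻¹ * u') = 0 := by
      have := h.add u hu _ hm
      rw [mul_inv_cancel_left, e1] at this
      exact left_eq_add.1 this
    have := D_mul hN κ e hu hm
    rw [mul_inv_cancel_left, D_comm κ (hc _ hm h0 e), add_zero] at this
    exact this.symm
  let μ : (h.R →* ℂˣ) → Z → V →+ U := fun κ z =>
    AddMonoidHom.mk' (fun v => D κ (h.e (zs σ z)) (L v)) fun v w => by
      rw [← D_mul hN κ _ (hL v) (hL w)]
      exact Dc κ _ _ (hL _) _ (mul_mem (hL v) (hL w))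
        (by rw [h.add _ (hL v) _ (hL w), hπ, hπ, hπ])
  have hμ : ∀ κ z, ∀ u ∈ h.R, μ κ z (h.π u) = D κ (h.e (zs σ z)) u := fun κ z u hu =>
    Dc κ _ _ (hL _) _ hu (hπ _)
  have hs : ∀ z, ∀ u ∈ h.R, (σ.s z).symm (h.π u) =
      h.π ((h.e (zs σ z))⁻¹ * u * h.e (zs σ z)) := by
    intro z u hu
    rw [LinearEquiv.symm_apply_eq, ← (h.nor z _ (hN.conj_mem' _ hu _)).2]
    congr 1
    group
  let Φ : (h.R →* ℂˣ) → DS σ := fun κ => ⟨μ κ, fun z v hv => by
      have h1 := h.act _ (hL v) z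
      have h2 : lq σ z (h.π (L v) - σ.s z (h.π (L v))) ⟨h.π (L v), rfl⟩ = zs σ z :=
        Subtype.ext (Prod.ext rfl (by
          change h.π (L v) - σ.s z (h.π (L v)) = 0
          rw [hπ, hv, sub_self]))
      rw [h2, mul_inv_eq_iff_eq_mul] at h1
      exact D_comm κ h1, fun a b v => by
      have e1 : h.e (zs σ (a ◃ b)) = h.e (zs σ a) * h.e (zs σ b) * (h.e (zs σ a))⁻¹ := by
        rw [isHom_zs σ a b, h.he.conj]
      rw [← hπ v, hs a _ (hL v), hs (a ◃ b) _ (hL v), hμ κ _ _ (hL v), hμ κ _ _ (hL v),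
        hμ κ _ _ (hN.conj_mem' _ (hL v) _), hμ κ _ _ (hN.conj_mem' _ (hL v) _), e1]
      have e2 : (h.e (zs σ a))⁻¹ * ((h.e (zs σ a) * h.e (zs σ b) * (h.e (zs σ a))⁻¹)⁻¹ * L v *
          (h.e (zs σ a) * h.e (zs σ b) * (h.e (zs σ a))⁻¹)) * h.e (zs σ a) =
          (h.e (zs σ b))⁻¹ * ((h.e (zs σ a))⁻¹ * L v * h.e (zs σ a)) * h.e (zs σ b) := by group
      simp only [D]
      rw [e2]
      abel⟩
  have : Finite (V →+ U) := Nat.finite_of_card_ne_zero (by rw [card_hom]; exact Nat.card_pos.ne')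
  have : Finite (DS σ) := by unfold DS; infer_instance
  refine Nat.card_le_card_of_injective Φ fun κ κ' e => ?_
  have e0 : ∀ z, ∀ u ∈ h.R, D κ (h.e (zs σ z)) u = D κ' (h.e (zs σ z)) u := fun z u hu => by
    rw [← hμ κ z u hu, ← hμ κ' z u hu]
    exact congrArg (fun t : DS σ => t.1 z (h.π u)) e
  let M : Subgroup G :=
    { carrier := {g | g ∈ h.R ∧ K κ g = K κ' g}
      one_mem' := ⟨one_mem _, by rw [K_one, K_one]⟩
      mul_mem' := fun a b => ⟨mul_mem a.1 b.1, by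
        rw [K_mul κ a.1 b.1, K_mul κ' a.1 b.1, a.2, b.2]⟩
      inv_mem' := fun a => ⟨inv_mem a.1, by rw [K_inv κ a.1, K_inv κ' a.1, a.2]⟩ }
  have hMR : M = h.R := by
    refine hM M (fun _ a => a.1) (fun r hr m hm => ⟨hN.conj_mem _ hm.1 _, ?_⟩)
      (fun z m hm => ⟨⟨hN.conj_mem _ hm.1 _, ?_⟩, hN.conj_mem' _ hm.1 _, ?_⟩) fun z r hr => ?_
    · rw [K_mul κ (mul_mem hr hm.1) (inv_mem hr), K_mul κ' (mul_mem hr hm.1) (inv_mem hr),
        K_mul κ hr hm.1, K_mul κ' hr hm.1, K_inv κ hr, K_inv κ' hr, hm.2]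
      abel
    · have := e0 z _ (hN.conj_mem _ hm.1 (h.e (zs σ z)))
      have e2 : (h.e (zs σ z))⁻¹ * (h.e (zs σ z) * m * (h.e (zs σ z))⁻¹) * h.e (zs σ z) = m := by
        group
      rw [D, D, e2, hm.2] at this
      exact sub_left_inj.1 this
    · have := e0 z _ hm.1
      rw [D, D, hm.2] at this
      exact sub_right_inj.1 this
    · have hm := hN.conj_mem _ (inv_mem hr) (h.e (zs σ z))
      have := e0 z _ hm
      have e2 : (h.e (zs σ z))⁻¹ * (h.e (zs σ z) * r⁻¹ * (h.e (zs σ z))⁻¹) * h.e (zs σ z) =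
          r⁻¹ := by group
      have e3 : r * h.e (zs σ z) * r⁻¹ * (h.e (zs σ z))⁻¹ =
          r * (h.e (zs σ z) * r⁻¹ * (h.e (zs σ z))⁻¹) := by group
      rw [D, D, e2, K_inv κ hr, K_inv κ' hr, sub_neg_eq_add, sub_neg_eq_add] at this
      rw [e3]
      exact ⟨mul_mem hr hm, by rw [K_mul κ hr hm, K_mul κ' hr hm, add_comm, this, add_comm]⟩
  refine MonoidHom.ext fun g => ?_
  have hg : g.1 ∈ M := hMR.ge g.2
  have := hg.2
  rw [K_pos κ g.2, K_pos κ' g.2] at this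
  exact Additive.ofMul.injective this

end Pool.Agent.P.MP_cc10d1_gt.UL
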