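import Pool.Agent.P.MP_cc10d1_gt.UL.Iface

/-! Step HOL. -/

set_option autoImplicit false
set_option linter.unusedSectionVars false

namespace Pool.Agent.P.MP_cc10d1_gt.UL

open Finset Filter Topology T R Quandles Rack
open scoped commutatorElement

theorem p_HOL :
    S_HOL := by
  intro Y _ _ n b hb f
  refine Nat.card_le_card_of_injective (fun y => y.1 0) ?_
  rintro ⟨y, a1, a2⟩ ⟨y', b1, b2⟩ h
  have h0 : y 0 = y' 0 := h
  have hf : rho (Y × Y) n b (fun i => (y i, y' i)) = fun i => (y i, y' i) := by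
    rw [rho_prod, a1, b1]
  refine Subtype.ext (funext fun j => ?_)
  obtain ⟨φ, hφ⟩ := (all_FIXC (Y × Y) n b _ hb hf).1 0 j
  rw [hol_prod, a2, b2] at hφ
  have c1 : f φ (y 0) = y j := congrArg Prod.fst hφ
  have c2 : f φ (y' 0) = y' j := congrArg Prod.snd hφ
  exact c1.symm.trans (h0 ▸ c2)

end Pool.Agent.P.MP_cc10d1_gt.UL
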