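import Pool.Agent.P.MP_cc10d1_gt.UL.Iface

/-! Step HS. -/

set_option autoImplicit false
set_option linter.unusedSectionVars false

namespace Pool.Agent.P.MP_cc10d1_gt.UL

open Finset Filter Topology T R Quandles Rack
open scoped commutatorElement

namespace HSaux

variable {Z F V : Type} [Quandle Z] [Field F] [AddCommGroup V] [Module F V] (σ : Ac Z F V)

/-- The projection. -/
def ff : EnvelGroup (LQ σ) →* EnvelGroup Z :=
  S.lift (fun a => S.gen (lp σ a)) fun _ _ => S.gen_act _ _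

/-- The affine action. -/
def TT : EnvelGroup (LQ σ) →* Af F V :=
  S.lift (fun a => aff σ a.1) fun a b => (cHom_aff σ).conj a.1 b.1

theorem lin (u : EnvelGroup (LQ σ)) : (TT σ u).s = S.lift σ.s σ.h.conj (ff σ u) := by
  induction u using S.env_ind with
  | h1 => rw [map_one, map_one, map_one]; rfl
  | hg a => rfl
  | hm u v hu hv => rw [map_mul, map_mul, map_mul, Af.mul_s, hu, hv]
  | hi u hu => rw [map_inv, map_inv, map_inv, Af.inv_s, hu]

theorem base (u : EnvelGroup (LQ σ)) : ∀ a, lp σ (S.ea u a) = S.ea (ff σ u) (lp σ a) := by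
  induction u using S.env_ind with
  | h1 => intro a; rw [map_one, map_one, map_one]; rfl
  | hg a => exact fun _ => rfl
  | hm u v hu hv =>
    intro a
    rw [map_mul, map_mul, map_mul, Equiv.Perm.mul_apply, Equiv.Perm.mul_apply, hu, hv]
  | hi u hu =>
    intro a
    rw [map_inv, map_inv, map_inv, eq_comm, Equiv.Perm.inv_eq_iff_eq, ← hu]
    simp

variable {σ} {r r' : EnvelGroup (LQ σ)}

theorem one_s (h : r ∈ (ff σ).ker) : (TT σ r).s = 1 := by rw [lin, h, map_one]

theorem add (h : r ∈ (ff σ).ker) (r' : EnvelGroup (LQ σ)) :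
    (TT σ (r * r')).v = (TT σ r).v + (TT σ r').v := by rw [map_mul, Af.mul_v, one_s h, le_one]

theorem key (h : r ∈ (ff σ).ker) (a : LQ σ) :
    (S.ea r a).1 = (a.1.1, (TT σ r).v + a.1.2 - σ.s a.1.1 (TT σ r).v) := by
  refine Prod.ext ((base σ r a).trans (by rw [h, map_one]; rfl)) ?_
  have := congrArg (fun u => (TT σ u).v) (S.conj_gen r a)
  simp only [map_mul, map_inv, Af.conj_v, one_s h, le_one, one_mul, inv_one, mul_one] at this
  exact this.symm

theorem cen (h : r ∈ (ff σ).ker) (h0 : (TT σ r).v = 0) (g : EnvelGroup (LQ σ)) : Commute r g :=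
  S.central_of_ea (C := LQ σ) (Equiv.ext fun a : LQ σ => Subtype.ext ((key h a).trans (by
    rw [h0, map_zero, zero_add, sub_zero]; rfl))) g

theorem cact (h : r ∈ (ff σ).ker) (z : Z) : r * S.gen (zs σ z) * r⁻¹ =
    S.gen (lq σ z ((TT σ r).v - σ.s z (TT σ r).v) ⟨(TT σ r).v, rfl⟩) := by
  rw [S.conj_gen]
  exact congrArg _ (Subtype.ext ((key h _).trans (Prod.ext rfl (congrArg (· - _) (add_zero _)))))

theorem sur (h : (⨆ z, rg σ z) = ⊤) (v : V) : ∃ r ∈ (ff σ).ker, (TT σ r).v = v := by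
  refine Submodule.iSup_induction (rg σ) (motive := fun v => ∃ r ∈ (ff σ).ker, (TT σ r).v = v)
    (h ▸ Submodule.mem_top) (fun z w hw => ?_) ⟨1, one_mem _, by rw [map_one]; rfl⟩ ?_
  · refine ⟨S.gen (lq σ z w hw) * (S.gen (zs σ z))⁻¹, ?_, ?_⟩
    · rw [MonoidHom.mem_ker, map_mul, map_inv]
      exact mul_inv_cancel _
    · rw [map_mul, map_inv]
      change w + σ.s z (-((σ.s z)⁻¹ 0)) = w
      simp
  · rintro _ _ ⟨r, a, rfl⟩ ⟨r', b, rfl⟩
    exact ⟨r * r', mul_mem a b, add a r'⟩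

end HSaux

open HSaux in
theorem p_HS :
    S_HS := by
  intro Z F V _ _ _ _ σ h
  refine ⟨⟨S.gen, (ff σ).ker, fun r => (TT σ r).v, cHom_gen, fun r a r' _ => add a r', sur h,
    fun r a => cact a, fun z r a => ⟨(MonoidHom.normal_ker _).conj_mem r a _, ?_⟩,
    fun c hc => ?_⟩, ff σ, rfl, rfl, fun _ => rfl, fun r => cen, fun M h1 h2 h3 h4 => ?_⟩
  · rw [map_mul, map_mul, map_inv, Af.conj_v]
    change 0 + σ.s z _ - _ = _
    rw [zero_add, show (TT σ (S.gen (zs σ z))).v = 0 from rfl, map_zero, sub_zero]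
  · have : ⁅(ff σ).ker, (ff σ).ker⁆ ≤ (TT σ).ker := Subgroup.commutator_le.2 fun r a r' b => by
      rw [MonoidHom.mem_ker, map_commutatorElement, commutatorElement_eq_one_iff_mul_comm,
        ← map_mul, ← map_mul]
      exact Af.ext (by rw [add a, add b, add_comm])
        ((one_s (mul_mem a b)).trans (one_s (mul_mem b a)).symm)
    exact cen (Subgroup.commutator_le_left _ _ hc) (congrArg Af.v (this hc))
  have k : ∀ a : LQ σ, ∃ r ∈ (ff σ).ker, S.gen a = r * S.gen (zs σ (lp σ a)) * r⁻¹ := by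
    rintro ⟨⟨z, w⟩, v, hv⟩
    obtain ⟨r, a, rfl⟩ := sur h v
    obtain rfl : (TT σ r).v - σ.s z (TT σ r).v = w := hv
    exact ⟨r, a, (cact a z).symm⟩
  have n1 : ∀ u : EnvelGroup (LQ σ), ∀ m ∈ M, u * m * u⁻¹ ∈ M ∧ u⁻¹ * m * u ∈ M := fun u => by
    induction u using S.env_ind with
    | h1 => simp
    | hg a =>
      intro m hm
      obtain ⟨r, b, e⟩ := k a
      have a1 := h3 (lp σ a) _ (h2 _ (inv_mem b) m hm)
      have a2 := h2 r b _ a1.1
      have a3 := h2 r b _ a1.2
      rw [e]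
      exact ⟨by simpa [mul_assoc] using a2, by simpa [mul_assoc] using a3⟩
    | hm u v hu hv =>
      exact fun m hm => ⟨by simpa [mul_assoc] using (hu _ (hv m hm).1).1,
        by simpa [mul_assoc] using (hv _ (hu m hm).2).2⟩
    | hi u hu => exact fun m hm => ⟨by simpa using (hu m hm).2, by simpa using (hu m hm).1⟩
  have : M.Normal := ⟨fun m hm u => (n1 u m hm).1⟩
  let g : EnvelGroup Z →* EnvelGroup (LQ σ) := S.lift (fun z => S.gen (zs σ z)) fun a b => by
    rw [isHom_zs σ a b, S.gen_act]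
  have n2 : ∀ u, QuotientGroup.mk' M u = QuotientGroup.mk' M (g (ff σ u)) := fun u => by
    induction u using S.env_ind with
    | h1 => simp
    | hg a =>
      obtain ⟨r, b, e⟩ := k a
      rw [← mul_inv_eq_one, ← map_inv, ← map_mul, QuotientGroup.mk'_apply,
        QuotientGroup.eq_one_iff]
      have := h4 (lp σ a) r b
      rwa [← e] at this
    | hm u v hu hv => rw [map_mul, map_mul, map_mul, map_mul, hu, hv]
    | hi u hu => rw [map_inv, map_inv, map_inv, map_inv, hu]
  refine le_antisymm h1 fun r a => ?_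
  have := n2 r
  rwa [show ff σ r = 1 from a, map_one, map_one, QuotientGroup.mk'_apply,
    QuotientGroup.eq_one_iff] at this

end Pool.Agent.P.MP_cc10d1_gt.UL
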