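import Pool.Agent.P.MP_cc10d1_gt.UL.Iface

/-! Step IND. -/

set_option autoImplicit false
set_option linter.unusedSectionVars false

namespace Pool.Agent.P.MP_cc10d1_gt.UL

open Finset Filter Topology T R Quandles Rack
open scoped commutatorElement

theorem p_IND (hCST : S_CST) (hCOV : S_COV) (hDEC : S_DEC) (hCASE : S_CASE) (hNA : S_NA) (hAB : S_AB) :
    S_IND := by
  intro Y Y0 _ _ _ _ p hp hs
  induction h : Nat.card Y - Nat.card Y0 using Nat.strong_induction_on generalizing Y Y0 with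
  | _ m ih =>
  by_cases hc : Cn Y
  · rcases hCASE Y Y0 p hp hs hc with h1 | ⟨Y1, _, _, p2, p1, a1, a2, a3, a4, rfl, a5, a6⟩ |
      ⟨H, _, _, e, ρ, N, d, h1 | h1⟩
    · exact hCOV Y Y0 p hp h1
    · exact hDEC Y Y1 Y0 p2 p1 a1 a2 a3 (ih _ (by omega) Y1 Y0 p1 a2 a4 rfl)
        (ih _ (by omega) Y Y1 p2 a1 a3 rfl)
    · exact hNA Y Y0 H e ρ N p d h1
    · exact hAB Y Y0 H e ρ N p d h1
  · intro k
    have : eqw (nf p) k = (if 0 = k then 1 else 0 : ℝ) • (1 : Wt Y0) := by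
      funext n b x
      have : IsEmpty {u // (rho Y n b u = u ∧ p ∘ u = x) ∧ TFull u} := ⟨fun u => hc u.2.2.cn⟩
      rw [eqw_apply, nf, Nat.card_of_isEmpty]
      exact (mul_one _).symm
    rw [this]
    exact (Adm Y0).smul_mem _ adm_one

end Pool.Agent.P.MP_cc10d1_gt.UL
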