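import Pool.Agent.P.MP_cc10d1_gt.UL.Iface

/-! Step INV. -/

set_option autoImplicit false
set_option linter.unusedSectionVars false

namespace Pool.Agent.P.MP_cc10d1_gt.UL

open Finset Filter Topology T R Quandles Rack
open scoped commutatorElement

namespace INVaux

theorem bij {Z F V : Type} [Quandle Z] [Field F] [AddCommGroup V] [Finite V] [Module F V]
    {σ : Ac Z F V} (h : Irr σ) {β : V →+ V →+ U} (hβ : Inv σ β) (h0 : β ≠ 0) :
    Function.Bijective β := by
  have hk : β.ker = ⊥ := by
    refine (h.sim β.ker fun z v hv => ?_).resolve_right fun e => h0 ?_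
    · rw [AddMonoidHom.mem_ker] at hv ⊢
      refine AddMonoidHom.ext fun w => ?_
      have := hβ z v ((σ.s z).symm w)
      rw [LinearEquiv.apply_symm_apply, hv] at this
      exact this
    · refine AddMonoidHom.ext fun v => ?_
      have : v ∈ β.ker := e ▸ AddSubgroup.mem_top v
      exact this
  have hi : Function.Injective β := (AddMonoidHom.ker_eq_bot_iff β).1 hk
  have hc : Nat.card (V →+ U) = Nat.card V := card_hom V
  have : Finite (V →+ U) := Nat.finite_of_card_ne_zero (hc ▸ Nat.card_pos.ne')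
  exact hi.bijective_of_nat_card_le hc.le

end INVaux

theorem p_INV :
    S_INV := by
  intro Z F V _ _ _ _ _ σ h β hβ h0
  have hb := INVaux.bij h hβ h0
  refine ⟨hb, INVaux.bij h (fun z v w => hβ z w v) fun e => h0 ?_, fun γ => ⟨fun hγ => ?_, ?_⟩⟩
  · exact AddMonoidHom.ext fun v => AddMonoidHom.ext fun w =>
      DFunLike.congr_fun (DFunLike.congr_fun e w) v
  · let e : V ≃+ (V →+ U) := AddEquiv.ofBijective β hb
    have he : ∀ v, β (e.symm (γ v)) = γ v := fun v => e.apply_symm_apply _
    obtain ⟨c, hc⟩ := h.sch (e.symm.toAddMonoidHom.comp γ) fun z v => hb.1 (by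
      refine AddMonoidHom.ext fun w => ?_
      change β (e.symm (γ (σ.s z v))) w = β (σ.s z (e.symm (γ v))) w
      rw [he, ← (σ.s z).apply_symm_apply w, hγ, hβ, he])
    exact ⟨c, fun v w => by rw [← hc v]; exact (DFunLike.congr_fun (he v) w).symm⟩
  · rintro ⟨c, hc⟩ z v w
    rw [hc, hc, ← map_smul, hβ]

end Pool.Agent.P.MP_cc10d1_gt.UL
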