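import Pool.Agent.P.MP_cc10d1_gt.UL.Iface

/-! Step KAP. -/

set_option autoImplicit false
set_option linter.unusedSectionVars false

namespace Pool.Agent.P.MP_cc10d1_gt.UL

open Finset Filter Topology T R Quandles Rack
open scoped commutatorElement

namespace KAPaux

variable {Z F V G : Type} [Quandle Z] [Field F] [AddCommGroup V] [Module F V] [Group G]
  {σ : Ac Z F V} (h : Hs σ G) (ψ : G → U) (ψ0 : F →+ U) (β : V →ₗ[F] V →ₗ[F] F)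

/-- A cocycle with its form. -/
def Gd {W : Type} [AddCommGroup W] [Module F W] (k : W → G) : Prop :=
  ∃ (B : W →ₗ[F] W →ₗ[F] F) (L : W →ₗ[F] V), (∀ u, B u = 0 → u = 0) ∧
    (∀ u, k u ∈ h.R ∧ h.π (k u) = L u) ∧ ∀ u w, k (u + w) * (k u)⁻¹ * (k w)⁻¹ ∈ ⁅h.R, h.R⁆ ∧
      ψ (k (u + w) * (k u)⁻¹ * (k w)⁻¹) = ψ0 (B u w)

/-- An element that acts linearly. -/
def Nm (t : G) : Prop :=
  ∃ S : V →ₗ[F] V, ∀ r ∈ h.R, t * r * t⁻¹ ∈ h.R ∧ h.π (t * r * t⁻¹) = S (h.π r)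

theorem pi_one : h.π 1 = 0 := by
  have := h.add 1 (one_mem _) 1 (one_mem _)
  rw [mul_one] at this
  exact left_eq_add.1 this

theorem pi_inv {r : G} (hr : r ∈ h.R) : h.π r⁻¹ = -h.π r := by
  have := h.add r hr r⁻¹ (inv_mem hr)
  rw [mul_inv_cancel, pi_one] at this
  exact eq_neg_of_add_eq_zero_right this.symm

theorem Nm.mul {t t' : G} (a : Nm h t) (b : Nm h t') : Nm h (t * t') := by
  obtain ⟨S, a⟩ := a
  obtain ⟨S', b⟩ := b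
  refine ⟨S ∘ₗ S', fun r hr => ?_⟩
  have e : t * t' * r * (t * t')⁻¹ = t * (t' * r * t'⁻¹) * t⁻¹ := by group
  rw [e, (a _ (b r hr).1).2, (b r hr).2]
  exact ⟨(a _ (b r hr).1).1, rfl⟩

theorem gd_one (hc : ∀ r ∈ h.R, ∀ r' ∈ h.R, ψ ⁅r, r'⁆ = ψ0 (β (h.π r) (h.π r')))
    (hi : ∀ z v w, β (σ.s z v) (σ.s z w) = β v w) (hn : ∀ v, β v = 0 → v = 0) (z : Z) :
    Gd h ψ ψ0 fun u : rg σ z => h.e (lq σ z u.1 u.2) * (h.e (zs σ z))⁻¹ := by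
  obtain ⟨g, hg'⟩ : ∃ g : rg σ z →ₗ[F] V, ∀ u : rg σ z, g u - σ.s z (g u) = u.1 :=
    (LinearMap.exists_rightInverse_of_surjective (LinearMap.id - (σ.s z).toLinearMap :
      V →ₗ[F] V).rangeRestrict (LinearMap.range_rangeRestrict _)).imp fun _ hg u =>
        congrArg Subtype.val (DFunLike.congr_fun hg u)
  have key : ∀ (u : rg σ z), ∀ r ∈ h.R, h.π r - σ.s z (h.π r) = u.1 →
      h.e (lq σ z u.1 u.2) = r * h.e (zs σ z) * r⁻¹ := by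
    rintro ⟨u, hu⟩ r hr rfl
    exact (h.act r hr z).symm
  have mem : ∀ u : rg σ z, h.e (lq σ z u.1 u.2) * (h.e (zs σ z))⁻¹ ∈ h.R ∧
      h.π (h.e (lq σ z u.1 u.2) * (h.e (zs σ z))⁻¹) = u.1 := fun u => by
    obtain ⟨r, hr, e⟩ := h.sur (g u)
    have e' : r * h.e (zs σ z) * r⁻¹ * (h.e (zs σ z))⁻¹ =
      r * (h.e (zs σ z) * r * (h.e (zs σ z))⁻¹)⁻¹ := by group
    obtain ⟨n1, n2⟩ := h.nor z r hr
    rw [key u r hr (by rw [e, hg']), e', h.add _ hr _ (inv_mem n1), pi_inv h n1, n2, e,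
      ← sub_eq_add_neg, hg']
    exact ⟨mul_mem hr (inv_mem n1), rfl⟩
  refine ⟨β.compl₁₂ g (rg σ z).subtype, (rg σ z).subtype, fun u hu => ?_, mem, fun u w => ?_⟩
  · have h1 : ∀ w, β (g u) (w - σ.s z w) = 0 := fun w =>
      DFunLike.congr_fun hu (⟨_, w, rfl⟩ : rg σ z)
    have h2 : g u - (σ.s z).symm (g u) = 0 := hn _ (LinearMap.ext fun w => by
      rw [map_sub, LinearMap.sub_apply, ← hi z ((σ.s z).symm (g u)), LinearEquiv.apply_symm_apply,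
        ← map_sub, h1, LinearMap.zero_apply])
    rw [sub_eq_zero, LinearEquiv.eq_symm_apply] at h2
    exact Subtype.ext (by rw [← hg', h2, sub_self]; rfl)
  · obtain ⟨r, hr, e⟩ := h.sur (g u)
    obtain ⟨r', hr', e'⟩ := h.sur (g w)
    have e1 : h.e (lq σ z (u + w).1 (u + w).2) * (h.e (zs σ z))⁻¹ *
        (h.e (lq σ z u.1 u.2) * (h.e (zs σ z))⁻¹)⁻¹ * (h.e (lq σ z w.1 w.2) * (h.e (zs σ z))⁻¹)⁻¹ =
        ⁅r, h.e (lq σ z w.1 w.2) * (h.e (zs σ z))⁻¹⁆ := by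
      rw [key (u + w) (r * r') (mul_mem hr hr') (by
          rw [h.add _ hr _ hr', e, e', ← map_add, hg']),
        key u r hr (by rw [e, hg']), key w r' hr' (by rw [e', hg']), commutatorElement_def]
      group
    refine ⟨e1 ▸ Subgroup.commutator_mem_commutator hr (mem w).1, ?_⟩
    rw [e1, hc _ hr _ (mem w).1, e, (mem w).2]
    rfl

theorem gd_step (ha : ∀ c ∈ ⁅h.R, h.R⁆, ∀ c' ∈ ⁅h.R, h.R⁆, ψ (c * c') = ψ c + ψ c')
    (hc : ∀ r ∈ h.R, ∀ r' ∈ h.R, ψ ⁅r, r'⁆ = ψ0 (β (h.π r) (h.π r')))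
    {W W1 W2 : Type} [AddCommGroup W] [Module F W] [AddCommGroup W1] [Module F W1]
    [AddCommGroup W2] [Module F W2] (p : W →ₗ[F] W1) (q : W →ₗ[F] W2)
    (hi : ∀ u, p u = 0 → q u = 0 → u = 0) (hs : ∀ a b, ∃ u, p u = a ∧ q u = b)
    {k1 : W1 → G} {k2 : W2 → G} (g1 : Gd h ψ ψ0 k1) (g2 : Gd h ψ ψ0 k2) {t : G} (ht : Nm h t) :
    Gd h ψ ψ0 fun u : W => k2 (q u) * (t * k1 (p u) * t⁻¹) := by
  obtain ⟨B1, L1, n1, m1, c1⟩ := g1
  obtain ⟨B2, L2, n2, m2, c2⟩ := g2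
  obtain ⟨S, ht⟩ := ht
  have m3 := fun a => ht _ (m1 a).1
  refine ⟨B1.compl₁₂ p p + B2.compl₁₂ q q + β.compl₁₂ (L2 ∘ₗ q) (S ∘ₗ L1 ∘ₗ p),
    L2 ∘ₗ q + S ∘ₗ L1 ∘ₗ p, fun u hu => ?_, fun u => ⟨mul_mem (m2 _).1 (m3 _).1, ?_⟩,
    fun u w => ?_⟩
  · have h0 : ∀ w, B1 (p u) (p w) + B2 (q u) (q w) + β (L2 (q u)) (S (L1 (p w))) = 0 :=
      fun w => DFunLike.congr_fun hu w
    have h2 : q u = 0 := n2 _ (LinearMap.ext fun b => by
      obtain ⟨w, e, rfl⟩ := hs 0 b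
      simpa [e] using h0 w)
    refine hi u (n1 _ (LinearMap.ext fun a => ?_)) h2
    obtain ⟨w, rfl, -⟩ := hs a 0
    simpa [h2] using h0 w
  · rw [h.add _ (m2 _).1 _ (m3 _).1, (m2 _).2, (m3 _).2, (m1 _).2]
    rfl
  · obtain ⟨a1, a2⟩ := c1 (p u) (p w)
    obtain ⟨b1, b2⟩ := c2 (q u) (q w)
    have d1 := Subgroup.commutator_mem_commutator (m2 (q u)).1 (m3 (p w)).1
    have d2 := hc _ (m2 (q u)).1 _ (m3 (p w)).1
    rw [(m2 _).2, (m3 _).2, (m1 _).2] at d2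
    generalize ea : k1 (p u + p w) * (k1 (p u))⁻¹ * (k1 (p w))⁻¹ = a at a1 a2
    generalize eb : k2 (q u + q w) * (k2 (q u))⁻¹ * (k2 (q w))⁻¹ = b at b1 b2
    have ea' : k1 (p u + p w) = a * k1 (p w) * k1 (p u) := by rw [← ea]; group
    have eb' : k2 (q u + q w) = b * k2 (q w) * k2 (q u) := by rw [← eb]; group
    have e : k2 (q (u + w)) * (t * k1 (p (u + w)) * t⁻¹) * (k2 (q u) * (t * k1 (p u) * t⁻¹))⁻¹ *
        (k2 (q w) * (t * k1 (p w) * t⁻¹))⁻¹ = a * b * ⁅k2 (q u), t * k1 (p w) * t⁻¹⁆ := by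
      have z1 := (h.cen a a1 (b * k2 (q w) * k2 (q u) * t)).eq
      have z2 := (h.cen _ d1 (k2 (q w))).eq
      calc _ = (b * k2 (q w) * k2 (q u) * t) * a * (k1 (p w) * t⁻¹ * (k2 (q u))⁻¹ *
            (t * k1 (p w) * t⁻¹)⁻¹ * (k2 (q w))⁻¹) := by
            rw [map_add, map_add, ea', eb']; group
        _ = a * b * (k2 (q w) * ⁅k2 (q u), t * k1 (p w) * t⁻¹⁆) * (k2 (q w))⁻¹ := by
            rw [← z1, commutatorElement_def]; group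
        _ = _ := by rw [← z2]; group
    refine ⟨e ▸ mul_mem (mul_mem a1 b1) d1, ?_⟩
    rw [e, ha _ (mul_mem a1 b1) _ d1, ha _ a1 _ b1, a2, b2, d2, ← map_add, ← map_add]
    rfl

theorem main (ha : ∀ c ∈ ⁅h.R, h.R⁆, ∀ c' ∈ ⁅h.R, h.R⁆, ψ (c * c') = ψ c + ψ c')
    (hc : ∀ r ∈ h.R, ∀ r' ∈ h.R, ψ ⁅r, r'⁆ = ψ0 (β (h.π r) (h.π r')))
    (hi : ∀ z v w, β (σ.s z v) (σ.s z w) = β v w) (hn : ∀ v, β v = 0 → v = 0) (m : ℕ) :
    ∀ x : Fin m → Z, Nm h (pr h.e (List.ofFn (mkL σ x 0))) ∧ Gd h ψ ψ0 fun u : Wx σ x =>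
      pr h.e (List.ofFn (mkL σ x u)) * (pr h.e (List.ofFn (mkL σ x 0)))⁻¹ := by
  induction m with
  | zero =>
    intro x
    have h1 : ψ 1 = 0 := by
      have := ha 1 (one_mem _) 1 (one_mem _)
      rw [mul_one] at this
      exact left_eq_add.1 this
    simp only [List.ofFn_zero, pr_nil, mul_inv_cancel]
    refine ⟨⟨LinearMap.id, fun r hr => by simpa using hr⟩, 0, 0,
      fun u _ => Subtype.ext (Subsingleton.elim _ _), fun u => ⟨one_mem _, pi_one h⟩,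
      fun u w => ?_⟩
    simpa using h1
  | succ m ih =>
    intro x
    obtain ⟨i1, i2⟩ := ih fun i => x i.succ
    let p : Wx σ x →ₗ[F] rg σ (x 0) :=
      ⟨⟨fun u => ⟨u.1 0, u.2 0 trivial⟩, fun _ _ => rfl⟩, fun _ _ => rfl⟩
    let q : Wx σ x →ₗ[F] Wx σ fun i : Fin m => x i.succ :=
      ⟨⟨fun u => ⟨fun i => u.1 i.succ, fun i _ => u.2 i.succ trivial⟩, fun _ _ => rfl⟩,
        fun _ _ => rfl⟩
    have e : ∀ u, pr h.e (List.ofFn (mkL σ x u)) =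
        pr h.e (List.ofFn (mkL σ _ (q u))) * h.e (lq σ (x 0) (p u).1 (p u).2) := fun u => by
      rw [List.ofFn_succ, pr_cons]; rfl
    have e0 : pr h.e (List.ofFn (mkL σ x 0)) =
        pr h.e (List.ofFn (mkL σ (fun i : Fin m => x i.succ) 0)) * h.e (zs σ (x 0)) := e 0
    refine ⟨e0 ▸ i1.mul h ⟨(σ.s (x 0)).toLinearMap, h.nor _⟩, ?_⟩
    have := gd_step h ψ ψ0 β ha hc p q (fun u a b => Subtype.ext (funext fun i =>
      Fin.cases (congrArg Subtype.val a) (fun i => congrFun (congrArg Subtype.val b) i) i))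
      (fun a b => ⟨⟨Fin.cons a.1 b.1, fun i _ => Fin.cases a.2 (fun i => b.2 i trivial) i⟩, rfl, rfl⟩)
      (gd_one h ψ ψ0 β hc hi hn (x 0)) i2 i1
    convert this using 2 with u
    rw [e, e0]
    group

end KAPaux

theorem p_KAP :
    S_KAP := by
  intro Z F V G _ _ _ _ _ σ h ψ ψ0 β ha hc hi hn m x
  obtain ⟨B, _, h1, -, h2⟩ := (KAPaux.main h ψ ψ0 β ha hc hi hn m x).2
  exact ⟨B, _, h1, fun _ => rfl, fun u w => (h2 u w).2⟩

end Pool.Agent.P.MP_cc10d1_gt.UL
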