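import Pool.Agent.P.MP_cc10d1_gt.UL.Iface

/-! Step LADM. -/

set_option autoImplicit false
set_option linter.unusedSectionVars false

namespace Pool.Agent.P.MP_cc10d1_gt.UL

open Finset Filter Topology T R Quandles Rack
open scoped commutatorElement

namespace LADMaux

theorem irr_pb {Y Z F V : Type} [Quandle Y] [Quandle Z] [Field F] [AddCommGroup V] [Module F V]
    {σ : Ac Y F V} (h : Irr σ) {φ : Z → Y} (hφ : IsHom φ) (hs : Function.Surjective φ) :
    Irr (σ.pb hφ) where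
  nt := by
    obtain ⟨y, v, e⟩ := h.nt
    obtain ⟨z, rfl⟩ := hs y
    exact ⟨z, v, e⟩
  sim M hM := h.sim M fun y => by obtain ⟨z, rfl⟩ := hs y; exact hM z
  sch f hf := h.sch f fun y => by obtain ⟨z, rfl⟩ := hs y; exact hf z

theorem par (a k k0 : ℕ) : (1 / 2 : ℝ) * (1 + (-1) ^ (a + k0) * (-1) ^ (a + k)) =
    if k ≡ k0 [MOD 2] then 1 else 0 := by
  rw [← pow_add]
  split_ifs with h
  · rw [Even.neg_one_pow (by rw [Nat.even_iff]; unfold Nat.ModEq at h; omega)]; norm_num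
  · rw [Odd.neg_one_pow (by rw [Nat.odd_iff]; unfold Nat.ModEq at h; omega)]; norm_num

end LADMaux

open LADMaux in
theorem p_LADM (hAP : S_AP) (hPOW : S_POW) (hMB : S_MB) (hCNT : S_CNT) (hMOM : S_MOM) (hQAP : S_QAP) (hSG : S_SG) :
    S_LADM := by
  intro Y F V _ _ _ _ _ _ σ hI m
  refine hAP Y _ fun Z _ _ hc hne φ hφ ε hε => ?_
  have triv : (∀ n b x, rho Z n b x = x → TFull x →
      (full Y * eqw (na (lp σ)) m) n b (φ ∘ x) = 0) → ∃ θ' ∈ Adm Z, ∃ η : Wt Z,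
      (∀ n b x, Kn b → rho Z n b x = x → TFull x →
        |(full Y * eqw (na (lp σ)) m) n b (φ ∘ x) - θ' n b x| ≤ η n b x) ∧
      ∀ᶠ i in FF, em (sf Z η) i ≤ ε := fun h =>
    ⟨0, zero_mem _, 0, fun n b x _ h2 h3 => by rw [h n b x h2 h3]; simp,
      Eventually.of_forall fun i => by rw [sf, mul_zero, map_zero, em_zero]; exact hε.le⟩
  by_cases hs : Function.Surjective φ
  swap
  · refine triv fun n b x _ _ => ?_
    change full Y n b _ * _ = 0
    rw [full, iw_neg fun h => hs (surj_of_full hφ 0 h), zero_mul]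
  have hτ := irr_pb hI hφ hs
  have hq : 1 < Nat.card F := Finite.one_lt_card
  have hna : ∀ n b x k, rho Z n b x = x → Module.finrank F (Fx (σ.pb hφ) b x) =
      Module.finrank F (Sec (σ.pb hφ)) + k →
      na (lp (σ.pb hφ)) n b x = Nat.card (Sec (σ.pb hφ)) * Nat.card F ^ k ∧
      na (lp σ) n b (φ ∘ x) = Nat.card (Sec (σ.pb hφ)) * Nat.card F ^ k := fun n b x k hx e => by
    rw [na_lp _ hx, na_lp _ (fix_map hφ hx), ← fx_pb σ hφ, and_self,
      Module.natCard_eq_pow_finrank (K := F), e, pow_add,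
      Module.natCard_eq_pow_finrank (K := F) (V := Sec (σ.pb hφ))]
  generalize σ.pb hφ = τ at hτ hna
  by_cases hm : ∃ k0, m = Nat.card (Sec τ) * Nat.card F ^ k0
  swap
  · refine triv fun n b x h1 h2 => ?_
    obtain ⟨k, e, -⟩ := hCNT Z F V τ hτ n b x h1 h2
    change _ * eqw _ _ n b _ = 0
    rw [eqw_apply, if_neg fun h => hm ⟨k, h.symm.trans (hna n b x k h1 e).2⟩, mul_zero]
  obtain ⟨k0, rfl⟩ := hm
  obtain ⟨A, s, h1, h2, h3⟩ := hMOM Z F V τ hτ
  obtain ⟨e, u, he, hu, hb, hv⟩ : ∃ (e : ℕ) (u : Wt Z),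
      (e = 1 ∧ s < Nat.card F ∨ e = 2 ∧ s = Nat.card F) ∧ u ∈ Adm Z ∧ Bd u ∧ ∀ n b x k, Kn b →
        Module.finrank F (Fx τ b x) = Module.finrank F (Sec τ) + k →
        u n b x = if k ≡ k0 [MOD e] then 1 else 0 := by
    rcases h1.lt_or_eq with h | h
    · exact ⟨1, 1, Or.inl ⟨rfl, h⟩, adm_one, Bd.one, fun _ _ _ _ _ _ =>
        (if_pos Nat.modEq_one).symm⟩
    obtain ⟨ω, a1, a2, a3⟩ := h2 h
    obtain ⟨t, d, ht⟩ := hSG Z F V τ hc hτ ω a1 a2 a3
    refine ⟨2, (1 / 2 : ℝ) • (1 + ((-1 : ℝ) ^ (Module.finrank F (Sec τ) + d + k0)) • t.w),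
      Or.inr ⟨rfl, h⟩, (Adm Z).smul_mem _ (add_mem adm_one ((Adm Z).smul_mem _ (adm_sgn t))),
      fun n b x => ?_, fun n b x k hk e => ?_⟩
    · change |(1 / 2 : ℝ) * (1 + _ * t.w n b x)| ≤ 1
      have := abs_add_le (1 : ℝ) ((-1) ^ (Module.finrank F (Sec τ) + d + k0) * t.w n b x)
      rw [abs_mul, t.abs, abs_pow, abs_neg, abs_one, one_pow] at this
      rw [abs_mul, abs_of_pos (by norm_num : (0 : ℝ) < 1 / 2)]
      linarith
    · change (1 / 2 : ℝ) * (1 + _ * t.w n b x) = _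
      rw [ht n b x hk, e, add_right_comm _ k, par]
  obtain ⟨P, j, c, c0, c1, hP⟩ := hQAP (Nat.card F) s k0 e A ε hq he (Nat.cast_nonneg _) hε
  have hf : (1 : ℝ) ≤ Nat.card (Sec τ) := Nat.one_le_cast.2 Nat.card_pos
  have hfj : (1 : ℝ) ≤ (Nat.card (Sec τ) : ℝ) ^ j := one_le_pow₀ hf
  refine ⟨u * pw (P.comp (Polynomial.C (Nat.card (Sec τ) : ℝ)⁻¹ * Polynomial.X)) (cw (na (lp τ))),
    adm_mul hu hb (adm_pw (fun i => ?_) _),
    (c / (Nat.card (Sec τ) : ℝ) ^ j) • cw (nf (lp (τ.pi (Fin j)))), fun n b x a1 a2 a3 => ?_, ?_⟩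
  · rw [cw_na]
    exact hPOW _ _ _ (isHom_lp τ) 1 adm_one Bd.one i
  · obtain ⟨k, e1, e2⟩ := hCNT Z F V τ hτ n b x a2 a3
    obtain ⟨e3, e4⟩ := hna n b x k a2 e1
    change |full Y n b _ * eqw _ _ n b _ - u n b x * Polynomial.eval (na (lp τ) n b x : ℝ) _| ≤
      _ * (nf _ n b x : ℝ)
    rw [full, iw_pos (full_map hφ hs a3), one_mul, eqw_apply, e3, e4, hv n b x k a1 e1]
    simp only [Nat.mul_right_inj (Nat.card_pos (α := Sec τ)).ne', Nat.pow_right_inj hq]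
    by_cases hk : k ≡ k0 [MOD e]
    · rw [if_pos hk, one_mul, Polynomial.eval_comp, Polynomial.eval_mul, Polynomial.eval_C,
        Polynomial.eval_X, Nat.cast_mul, inv_mul_cancel_left₀ (by positivity), Nat.cast_pow]
      refine (hP k hk).trans ?_
      rw [div_mul_eq_mul_div, mul_div_assoc]
      refine mul_le_mul_of_nonneg_left ?_ c0
      rw [le_div_iff₀' (by positivity)]
      exact e2 j
    · rw [if_neg hk, if_neg fun h => hk (by rw [h]), zero_mul, sub_zero, abs_zero]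
      positivity
  · filter_upwards [hMB _ Z (lp (τ.pi (Fin j))) ((A * Nat.card (Sec τ) ^ j *
      (Nat.card F ^ j.choose 2 * s ^ j) : ℕ) : ℝ) (Nat.cast_nonneg _)
      fun h _ => Nat.cast_le.2 (h3 j h)] with i hi
    rw [sf_smul, em_smul]
    refine (mul_le_mul_of_nonneg_left hi (by positivity)).trans (le_trans ?_ c1)
    rw [div_mul_eq_mul_div, mul_div_assoc]
    refine mul_le_mul_of_nonneg_left ?_ c0
    rw [div_le_iff₀ (by positivity)]
    push_cast
    linarith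

end Pool.Agent.P.MP_cc10d1_gt.UL
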