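import Pool.Agent.P.MP_cc10d1_gt.UL.Iface

/-! Step LAW. -/

set_option autoImplicit false
set_option linter.unusedSectionVars false

namespace Pool.Agent.P.MP_cc10d1_gt.UL

open Finset Filter Topology T R Quandles Rack
open scoped commutatorElement

namespace LAWaux

theorem ex_knot (n : ℕ) : ∃ b : Br (n + 1), Kn b := by
  have h : finRotate (n + 2) ∈ MonoidHom.mrange (pm (n + 1)) := by
    refine (Submonoid.closure_le.2 ?_ : _ ≤ MonoidHom.mrange (pm (n + 1)))
      ((Equiv.Perm.mclosure_swap_castSucc_succ (n + 1)).ge trivial)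
    rintro _ ⟨i, rfl⟩
    exact ⟨sg i, mkHom_sg _ _ _ _⟩
  obtain ⟨b, hb⟩ := h
  refine ⟨b, fun i j => ?_⟩
  have hs : ∀ x, finRotate (n + 2) x ≠ x := fun x =>
    Equiv.Perm.mem_support.1 (by rw [support_finRotate]; exact mem_univ x)
  rw [hb]
  exact isCycle_finRotate.sameCycle (hs i) (hs j)

theorem neBot : FF.NeBot := by
  refine ⟨fun h => ?_⟩
  obtain ⟨n0, h⟩ := ev_FF.1 (show ∀ᶠ _ in FF, False by rw [h]; exact eventually_bot)
  refine (h (n0 + 1) (Nat.le_succ _) Kn ⟨fun _ h => h, ⟨0, fun b c hb hc i j => ?_⟩,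
    ex_knot n0⟩).exists.elim fun _ h => h
  rw [map_mul, pm_CC hc, mul_one]
  exact hb i j

theorem em_one : Tendsto (em 1) FF (𝓝 1) := by
  refine tendsto_of_lim ⟨1, fun n hn E hE => ?_⟩
  obtain ⟨d, hd⟩ := hE.inv
  have := Fintype.ofFinite ((CC n d).map (1 : Br n →* PUnit.{1}))
  exact lim_of hn hE.knot hd hE.ne (1 : Br n →* PUnit.{1}) (fun _ => 1) 1 fun _ _ => by simp

theorem em_sum {F : ℕ → Fn} {c μ : ℕ → ℝ} (h : ∀ k, Tendsto (em (F k)) FF (𝓝 (μ k))) (N : ℕ) :
    Tendsto (em (∑ k ∈ range N, c k • F k)) FF (𝓝 (∑ k ∈ range N, c k * μ k)) := by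
  induction N with
  | zero => exact tendsto_const_nhds.congr fun i => (em_zero i).symm
  | succ N ih =>
    rw [sum_range_succ, sum_range_succ]
    exact (ih.add ((h N).const_mul _)).congr fun i => by rw [em_add, em_smul]

theorem main (a : ∀ n, Br n → ℕ) {μ : ℕ → ℝ} (h0 : ∀ k, 0 ≤ μ k)
    (h : ∀ k, Tendsto (em fun n b => if a n b = k then 1 else 0) FF (𝓝 (μ k)))
    (h2 : (fun n b => (a n b : ℝ) ^ 2) ∈ Good) (c : ℕ → ℝ) (c0 : ∀ k, 0 ≤ c k)
    (c1 : ∀ k N : ℕ, 1 ≤ N → N ≤ k → c k ≤ 1 / (N : ℝ) * (k : ℝ) ^ 2) {M : ℝ}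
    (hM : Tendsto (em fun n b => c (a n b)) FF (𝓝 M)) : HasSum (fun k => c k * μ k) M := by
  have := neBot
  obtain ⟨C, hC⟩ := good_bdd h2
  have ev : ∀ N n b, (∑ k ∈ range N, c k • (fun n b => if a n b = k then 1 else 0 : Fn)) n b =
      if a n b ∈ range N then c (a n b) else 0 := by
    intro N n b
    simp only [Finset.sum_apply, Pi.smul_apply, smul_eq_mul, mul_ite, mul_one, mul_zero]
    exact sum_ite_eq _ _ _
  rw [hasSum_iff_tendsto_nat_of_nonneg fun k => mul_nonneg (c0 k) (h0 k)]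
  have hl : Tendsto (fun N : ℕ => M - 1 / (N : ℝ) * C) atTop (𝓝 M) := by
    simpa using (tendsto_one_div_atTop_nhds_zero_nat.mul_const C).const_sub M
  refine tendsto_of_tendsto_of_tendsto_of_le_of_le' hl tendsto_const_nhds ?_
    (Eventually.of_forall fun N => le_of_tendsto_of_tendsto (em_sum h N) hM
      (em_mono fun n b _ => ?_))
  · filter_upwards [eventually_ge_atTop 1] with N hN
    rw [sub_le_iff_le_add]
    refine le_of_tendsto_of_tendsto hM ((em_sum h N).add_const _) ?_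
    have h3 := em_mono (F := fun n b => c (a n b))
      (G := (∑ k ∈ range N, c k • (fun n b => if a n b = k then 1 else 0 : Fn)) +
        (1 / (N : ℝ)) • fun n b => (a n b : ℝ) ^ 2) fun n b _ => by
      rw [Pi.add_apply, Pi.add_apply, ev]
      change _ ≤ _ + 1 / (N : ℝ) * (a n b : ℝ) ^ 2
      split_ifs with hb
      · exact le_add_of_nonneg_right (by positivity)
      · rw [zero_add]; exact c1 _ _ hN (not_lt.1 (mem_range.not.1 hb))
    filter_upwards [h3, hC] with i a1 a2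
    rw [em_add, em_smul] at a1
    exact a1.trans (add_le_add le_rfl (mul_le_mul_of_nonneg_left a2 (by positivity)))
  · rw [ev]
    split_ifs
    exacts [le_rfl, c0 _]

end LAWaux

theorem p_LAW :
    S_LAW := by
  intro a M h1 h2 hM
  have := LAWaux.neBot
  choose μ hμ using h1
  have h0 : ∀ k, 0 ≤ μ k := fun k => ge_of_tendsto (hμ k)
    ((em_mono (F := 0) fun n b _ => by
      change (0 : ℝ) ≤ if a n b = k then 1 else 0
      split_ifs <;> norm_num).mono fun i hi => (em_zero i).ge.trans hi)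
  have key : ∀ k N : ℕ, 1 ≤ N → N ≤ k → (k : ℝ) ≤ 1 / (N : ℝ) * (k : ℝ) ^ 2 := by
    intro k N hN hk
    have a1 : (1 : ℝ) ≤ N := by exact_mod_cast hN
    have a2 : (N : ℝ) ≤ k := by exact_mod_cast hk
    rw [one_div, inv_mul_eq_div, le_div_iff₀ (by linarith)]
    nlinarith
  refine ⟨μ, h0, ?_, LAWaux.main a h0 hμ h2 (fun k => k) Nat.cast_nonneg key hM, hμ⟩
  simpa using LAWaux.main a h0 hμ h2 (fun _ => 1) (fun _ => zero_le_one)
    (fun k N hN hk => le_trans (by exact_mod_cast hN.trans hk) (key k N hN hk)) LAWaux.em_one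

end Pool.Agent.P.MP_cc10d1_gt.UL
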