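import Pool.Agent.P.MP_cc10d1_gt.UL.Iface

/-! Step MB. -/

set_option autoImplicit false
set_option linter.unusedSectionVars false

namespace Pool.Agent.P.MP_cc10d1_gt.UL

open Finset Filter Topology T R Quandles Rack
open scoped commutatorElement

namespace MBaux

theorem sf_le (W Z : Type) [Quandle W] [Finite W] [Quandle Z] [Finite Z] (p : W → Z) (n : ℕ)
    (b : Br n) : sf Z (cw (nf p)) n b ≤ Nat.card {u // TFull u ∧ rho W n b u = u} := by
  classical
  rw [Nat.subtype_card ((Fix W b).filter fun u => TFull u)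
    fun u => by rw [mem_filter, mem_Fix, and_comm], card_filter, Nat.cast_sum, cw_nf, sf_apply]
  calc ∑ x ∈ Fix Z b, ind TFull x * cnt p (full W) n b x
      ≤ ∑ x ∈ Fix Z b, ∑ u ∈ Fix W b, ind (fun u => p ∘ u = x) u * ind TFull u :=
        sum_le_sum fun x _ => mul_le_of_le_one_left
          (sum_nonneg fun u _ => mul_nonneg (ind_nonneg _ _) (ind_nonneg _ _)) (ind_le _ _)
    _ ≤ _ := by
        rw [sum_comm]
        refine sum_le_sum fun u _ => ?_
        rw [← sum_mul]
        refine (mul_le_of_le_one_left (ind_nonneg _ _) ?_).trans (le_of_eq ?_)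
        · have e : ∀ x, ind (fun u => p ∘ u = x) u = if p ∘ u = x then 1 else 0 := fun x => by
            by_cases h : p ∘ u = x <;> simp [ind, h]
          simp only [e, sum_ite_eq]
          split_ifs <;> norm_num
        · by_cases h : TFull u <;> simp [ind, h]

end MBaux

theorem p_MB :
    S_MB := by
  intro W Z _ _ _ _ p M hM h
  have h1 := em_mono (F := sf Z (cw (nf p)))
    (G := fun n b => Nat.card {u // TFull u ∧ rho W n b u = u}) fun n b _ => MBaux.sf_le W Z p n b
  by_cases hW : Cn W ∧ Nonempty W
  · have h2 := tendsto_of_lim (F := fun n b => Nat.card {u // TFull u ∧ rho W n b u = u})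
      ((lim_full W).imp fun _ h n hn E hE => (h n hn E hE hW.1 hW.2).2)
    have h3 : (cA W : ℝ) < M + 1 := by linarith [h hW.1 hW.2]
    filter_upwards [h1, h2.eventually (gt_mem_nhds h3)] with i a1 a2
    exact a1.trans a2.le
  · have e : (fun n b => Nat.card {u // TFull u ∧ rho W n b u = u} : Fn) = 0 := by
      funext n b
      have : IsEmpty {u // TFull u ∧ rho W n b u = u} := ⟨fun u => hW ⟨u.2.1.cn, ⟨u.1 0⟩⟩⟩
      simp
    rw [e] at h1
    filter_upwards [h1] with i a1
    rw [em_zero] at a1
    linarith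

end Pool.Agent.P.MP_cc10d1_gt.UL
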