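import Pool.Agent.P.MP_cc10d1_gt.UL.Iface

/-! Step MOM. -/

set_option autoImplicit false
set_option linter.unusedSectionVars false

namespace Pool.Agent.P.MP_cc10d1_gt.UL

open Finset Filter Topology T R Quandles Rack
open scoped commutatorElement

namespace MOMaux

variable {Z F V : Type} [Quandle Z] [Field F] [AddCommGroup V] [Module F V]

theorem sup_top {σ : Ac Z F V} (h : Irr σ) : (⨆ z, rg σ z) = ⊤ := by
  rcases h.sim (⨆ z, rg σ z).toAddSubgroup (fun a v hv => by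
    have : (⨆ z, rg σ z) ≤ (⨆ z, rg σ z).comap (σ.s a).toLinearMap := by
      refine iSup_le fun z w hw => ?_
      obtain ⟨u, rfl⟩ := (mem_rg σ).1 hw
      refine Submodule.mem_iSup_of_mem (a ◃ z) ((mem_rg σ).2 ⟨σ.s a u, ?_⟩)
      rw [σ.act, LinearEquiv.coe_coe, map_sub]
    exact this hv) with e | e
  · obtain ⟨z, v, hv⟩ := h.nt
    have : v - σ.s z v ∈ (⨆ z, rg σ z).toAddSubgroup :=
      Submodule.mem_iSup_of_mem z ((mem_rg σ).2 ⟨v, rfl⟩)
    rw [e, AddSubgroup.mem_bot, sub_eq_zero] at this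
    exact absurd this.symm hv
  · exact Submodule.eq_top_iff'.2 fun v => (e.ge (AddSubgroup.mem_top v) :)

theorem sup_pi {σ : Ac Z F V} (h : (⨆ z, rg σ z) = ⊤) (j : ℕ) :
    (⨆ z, rg (σ.pi (Fin j)) z) = ⊤ := by
  refine Submodule.eq_top_iff'.2 fun w => ?_
  rw [← Finset.univ_sum_single w]
  refine Submodule.sum_mem _ fun i _ => ?_
  have : (⨆ z, rg σ z) ≤ (⨆ z, rg (σ.pi (Fin j)) z).comap
      (LinearMap.single F (fun _ : Fin j => V) i) := by
    refine iSup_le fun z w hw => ?_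
    obtain ⟨u, rfl⟩ := (mem_rg σ).1 hw
    refine Submodule.mem_iSup_of_mem z ((mem_rg _).2 ⟨Pi.single i u, funext fun k => ?_⟩)
    rw [Pi.sub_apply, Ac.pi_s, LinearMap.single_apply]
    by_cases e : k = i
    · subst e; simp
    · simp [Pi.single_eq_of_ne e]
  exact this (h.ge Submodule.mem_top)

theorem pow_le (c : ℕ) : ∃ A, ∀ j, c ^ j ≤ A * 2 ^ j.choose 2 := by
  refine ⟨(c + 1) ^ (2 * c + 1), fun j => ?_⟩
  by_cases h : j ≤ 2 * c + 1
  · calc c ^ j ≤ (c + 1) ^ j := Nat.pow_le_pow_left (Nat.le_succ c) j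
      _ ≤ (c + 1) ^ (2 * c + 1) := Nat.pow_le_pow_right (Nat.succ_pos c) h
      _ ≤ _ := Nat.le_mul_of_pos_right _ (by positivity)
  · have h1 : c * j ≤ j.choose 2 := by
      rw [Nat.choose_two_right, Nat.le_div_iff_mul_le two_pos, mul_comm c j, mul_assoc]
      exact Nat.mul_le_mul_left j (by omega)
    calc c ^ j ≤ (2 ^ c) ^ j := Nat.pow_le_pow_left Nat.lt_two_pow_self.le j
      _ ≤ 2 ^ j.choose 2 := by rw [← pow_mul]; exact Nat.pow_le_pow_right two_pos h1
      _ ≤ _ := Nat.le_mul_of_pos_left _ (by positivity)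

end MOMaux

theorem p_MOM (hENV : S_ENV) (hRL : S_RL) (hINV : S_INV) (hDSS : S_DSS) (hRJ : S_RJ) :
    S_MOM := by
  intro Z F V _ _ _ _ _ _ _ σ hσ
  have hZ : Nonempty Z := ⟨hσ.nt.choose⟩
  have h0 : ∀ j, Cn (LQ (σ.pi (Fin j))) → cA (LQ (σ.pi (Fin j))) ≤ cA Z *
      (Nat.card {β // Inv σ β} ^ j.choose 2 * Nat.card {ω // Rl σ ω} ^ j) *
        Nat.card (DS σ) ^ j := fun j hj =>
    (hENV Z F _ (σ.pi (Fin j)) (MOMaux.sup_pi (MOMaux.sup_top hσ) j) hj hZ).trans
      (Nat.mul_le_mul (Nat.mul_le_mul_left _ (hRJ Z F V σ j)) ((hDSS Z F V σ).1 j))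
  let ι : {ω // Rl σ ω} → {β // Inv σ β} := fun ω => ⟨ω.1, ((hRL Z F V σ).1 ω.1 ω.2).1⟩
  have hι : Function.Injective ι := fun a b e => Subtype.ext (congrArg Subtype.val e :)
  by_cases hβ : ∃ β, Inv σ β ∧ β ≠ 0
  · obtain ⟨β, hb, hb0⟩ := hβ
    have h1 := (hINV Z F V σ hσ β hb hb0).2.2
    let γ : F → {β // Inv σ β} := fun c =>
      ⟨β.comp (DistribSMul.toAddMonoidHom V c), (h1 _).2 ⟨c, fun _ _ => rfl⟩⟩
    have hγ : Function.Surjective γ := fun a => by
      obtain ⟨c, hc⟩ := (h1 a.1).1 a.2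
      exact ⟨c, Subtype.ext (AddMonoidHom.ext fun v => AddMonoidHom.ext fun w => (hc v w).symm)⟩
    have := Finite.of_surjective γ hγ
    have h2 := Nat.card_le_card_of_surjective γ hγ
    have h3 := Nat.card_le_card_of_injective ι hι
    refine ⟨cA Z, Nat.card {ω // Rl σ ω}, h3.trans h2, fun e => ?_, fun j hj => ?_⟩
    · have h4 := (hι.bijective_of_nat_card_le (h2.trans e.ge)).2
      have h5 : ∀ a, Inv σ a → Rl σ a := fun a ha => by
        obtain ⟨ω, hω⟩ := h4 ⟨a, ha⟩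
        have e' : ω.1 = a := congrArg Subtype.val hω
        exact e' ▸ ω.2
      have h6 : ∀ (c : F) v w, β (c • v) w = -β (c • w) v := fun c v w => by
        have a := ((hRL Z F V σ).1 _ (h5 _ (γ c).2)).2
        have a1 : β (c • v) v = 0 := a v
        have a2 : β (c • w) w = 0 := a w
        have a3 : β (c • (v + w)) (v + w) = 0 := a (v + w)
        simp only [smul_add, map_add, AddMonoidHom.add_apply, a1, a2, zero_add, add_zero] at a3
        exact eq_neg_of_add_eq_zero_right a3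
      refine ⟨β, hb0, h5 β hb, fun c v w => ?_⟩
      have := h6 1 v (c • w)
      rw [one_smul, one_smul] at this
      rw [h6, this]
    · refine (h0 j hj).trans ?_
      rw [mul_right_comm]
      exact Nat.mul_le_mul (Nat.mul_le_mul_left _ (Nat.pow_le_pow_left
        ((hDSS Z F V σ).2 hσ β hb hb0) j)) (Nat.mul_le_mul_right _ (Nat.pow_le_pow_left h2 _))
  · have hs : Subsingleton {β // Inv σ β} := ⟨fun a b => Subtype.ext (by
      rw [not_not.1 fun e => hβ ⟨a.1, a.2, e⟩, not_not.1 fun e => hβ ⟨b.1, b.2, e⟩])⟩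
    have h2 : Nat.card {β // Inv σ β} ≤ 1 := Finite.card_le_one_iff_subsingleton.2 hs
    have h3 := (Nat.card_le_card_of_injective ι hι).trans h2
    have h4 : 1 < Nat.card F := Finite.one_lt_card
    have h5 : 0 < Nat.card (Sec σ) := Nat.card_pos
    obtain ⟨A, hA⟩ := MOMaux.pow_le (Nat.card (DS σ))
    refine ⟨cA Z * A, 1, h4.le, fun e => absurd e h4.ne, fun j hj => (h0 j hj).trans ?_⟩
    have h6 : Nat.card {β // Inv σ β} ^ j.choose 2 * Nat.card {ω // Rl σ ω} ^ j ≤ 1 :=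
      mul_le_one' (pow_le_one' h2 _) (pow_le_one' h3 _)
    calc _ ≤ cA Z * 1 * (A * Nat.card F ^ j.choose 2) :=
          Nat.mul_le_mul (Nat.mul_le_mul_left _ h6)
            ((hA j).trans (Nat.mul_le_mul_left _ (Nat.pow_le_pow_left h4 _)))
      _ = cA Z * A * 1 * (Nat.card F ^ j.choose 2 * 1 ^ j) := by ring
      _ ≤ _ := Nat.mul_le_mul_right _ (Nat.mul_le_mul_left _ (Nat.pow_pos h5))

end Pool.Agent.P.MP_cc10d1_gt.UL
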