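import Pool.Agent.P.MP_cc10d1_gt.UL.Iface

/-! Step NA. -/

set_option autoImplicit false
set_option linter.unusedSectionVars false

namespace Pool.Agent.P.MP_cc10d1_gt.UL

open Finset Filter Topology T R Quandles Rack
open scoped commutatorElement

theorem p_NA (hAP : S_AP) (hPOW : S_POW) (hCST : S_CST) (hMB : S_MB) (hNBU : S_NBU) (hNAC : S_NAC) (hPOIS : S_POIS) :
    S_NA := by
  intro Y Y0 H _ _ _ _ _ e ρ N p d hN k
  refine hAP Y0 _ fun Z _ _ _ _ φ hφ ε hε => ?_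
  by_cases hs : Function.Surjective φ
  · obtain ⟨c0, c1, hc⟩ := hNBU Y Y0 Z H e ρ N p φ d hφ hs hN
    obtain ⟨α, hα⟩ := hNAC Y Y0 Z H e ρ N p φ d hφ hN
    obtain ⟨P, i, j, c, c', h0, h0', h1, h2⟩ :=
      hPOIS α k c0 c1 ε (Nat.cast_nonneg _) (Nat.cast_nonneg _) hε
    have hM : ∀ i : ℕ, ∀ᶠ x in FF, em (sf Z (cw (nf (ub d.hom hφ i)))) x ≤ c0 * c1 ^ i + 1 :=
      fun i => hMB _ Z _ _ (by positivity) fun _ _ => by exact_mod_cast hc i
    refine ⟨pb φ (pw P (cw (nf p))), adm_pb (adm_pw (fun j => ?_) P) hφ,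
      c • cw (nf (ub d.hom hφ i)) + c' • cw (nf (ub d.hom hφ j)), fun n b x h3 h4 h5 => ?_, ?_⟩
    · rw [cw_nf]
      exact hPOW Y Y0 p d.hom _ (hCST.2.1 Y) (bd_iw _) j
    · obtain ⟨m, h6, h7⟩ := hα n b x h3 h4 h5
      rw [eqw_apply]
      exact (h2 _ m h6).trans (add_le_add
        (mul_le_mul_of_nonneg_left (Nat.cast_le.2 (h7 i)) h0)
        (mul_le_mul_of_nonneg_left (Nat.cast_le.2 (h7 j)) h0'))
    · filter_upwards [hM i, hM j] with x a1 a2
      rw [sf_add, sf_smul, sf_smul, em_add, em_smul, em_smul]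
      exact (add_le_add (mul_le_mul_of_nonneg_left a1 h0)
        (mul_le_mul_of_nonneg_left a2 h0')).trans h1
  · refine ⟨(if 0 = k then 1 else 0 : ℝ) • 1, (Adm Z).smul_mem _ adm_one, 0,
      fun n b x _ _ h5 => ?_, Eventually.of_forall fun x => ?_⟩
    · have : IsEmpty {y // (rho Y n b y = y ∧ p ∘ y = φ ∘ x) ∧ TFull y} :=
        ⟨fun y => hs (surj_of_full hφ 0 (y.2.1.2 ▸ full_map d.hom d.sur y.2.2))⟩
      have h6 : nf p n b (φ ∘ x) = 0 := Nat.card_of_isEmpty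
      rw [eqw_apply, h6]
      simp
    · rw [sf, mul_zero, map_zero, em_zero]
      exact hε.le

end Pool.Agent.P.MP_cc10d1_gt.UL
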