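import Pool.Agent.P.MP_cc10d1_gt.UL.Iface

/-! Step NAC. -/

set_option autoImplicit false
set_option linter.unusedSectionVars false

namespace Pool.Agent.P.MP_cc10d1_gt.UL

open Finset Filter Topology T R Quandles Rack
open scoped commutatorElement

namespace NACaux

theorem idx {Φ G : Type} [Group Φ] [Group G] [Finite G] (f : Φ →* G) :
    f.ker.index ≠ 0 ∧ f.ker.index ≤ Nat.card G := by
  rw [Subgroup.index_ker]
  exact ⟨Nat.card_pos.ne', Nat.card_le_card_of_injective _ Subtype.val_injective⟩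

theorem mk_eq {Y Y0 H : Type} [Quandle Y] [Quandle Y0] [Group H] {e : Y → H}
    {ρ : H →* Equiv.Perm Y} {N : Subgroup H} [N.Normal] {p : Y → Y0} (d : MinQ e ρ N p) {y y' : Y}
    (h : p y = p y') : QuotientGroup.mk' N (e y) = QuotientGroup.mk' N (e y') := by
  obtain ⟨g, hg, rfl⟩ := (d.fib y y').1 h
  have : QuotientGroup.mk' N g = 1 := (QuotientGroup.eq_one_iff g).2 hg
  rw [d.inn.conj, map_mul, map_mul, map_inv, this, one_mul, inv_one, mul_one]

end NACaux

open NACaux in
theorem p_NAC (hBD : S_BD) (hNFU : S_NFU) :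
    S_NAC := by
  classical
  intro Y Y0 Z H _ _ _ _ _ _ _ e ρ N p φ d hφ hN
  have := d.nor
  set g := Nat.card (Equiv.Perm Z × H ⧸ N) + Nat.card (Equiv.Perm Y) with hg
  refine ⟨Nat.card Y * Nat.card (Equiv.Perm Y) ^ g, fun n b x hb hx hf => ?_⟩
  let t0 : FreeGroup (Fin (n + 1)) →* H ⧸ N :=
    FreeGroup.lift fun m => QuotientGroup.mk' N (e (Function.surjInv d.sur (φ (x m))))
  have ht : ∀ y : Fin (n + 1) → Y, p ∘ y = φ ∘ x → ∀ a,
      QuotientGroup.mk' N (FreeGroup.lift (fun m => e (y m)) a) = t0 a := fun y hy a =>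
    DFunLike.congr_fun (FreeGroup.ext_hom ((QuotientGroup.mk' N).comp
      (FreeGroup.lift fun m => e (y m))) t0 fun m => by
        rw [MonoidHom.comp_apply, FreeGroup.lift_apply_of, FreeGroup.lift_apply_of]
        exact mk_eq d ((congrFun hy m).trans (Function.surjInv_eq d.sur _).symm)) a
  let K0 := ((hol x).prod t0).ker
  let L : Finset (Fin (n + 1) → Y) := (Fix Y b).filter fun y => p ∘ y = φ ∘ x ∧ TFull y
  have hL : ∀ y, y ∈ L ↔ (rho Y n b y = y ∧ p ∘ y = φ ∘ x) ∧ TFull y := fun y => by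
    rw [mem_filter, mem_Fix, and_assoc]
  let S := (L.filter fun y => ¬K0 ≤ (hol y).ker).image fun y => (hol y).ker
  refine ⟨S.card, ?_, fun i => ?_⟩
  · rw [nf, Nat.subtype_card L hL]
    refine (card_le_mul_card_image_of_maps_to (t := insert K0 S)
      (f := fun y => if K0 ≤ (hol y).ker then K0 else (hol y).ker) (fun y hy => ?_) _
      fun K hK => ?_).trans (Nat.mul_le_mul_left _ (card_insert_le _ _))
    · split_ifs with h
      · exact mem_insert_self _ _
      · exact mem_insert_of_mem (mem_image_of_mem _ (mem_filter.2 ⟨hy, h⟩))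
    · have h3 : K.Normal ∧ K.index ≠ 0 ∧ K.index ≤ g := by
        rcases mem_insert.1 hK with rfl | hK
        · exact ⟨inferInstance, (idx _).1, (idx _).2.trans (Nat.le_add_right _ _)⟩
        · obtain ⟨y, -, rfl⟩ := mem_image.1 hK
          exact ⟨inferInstance, (idx _).1, (idx _).2.trans (Nat.le_add_left _ _)⟩
      refine le_trans ?_ (hBD Y g n b hb K h3.1 h3.2.1 h3.2.2)
      rw [Nat.subtype_card ((Fix Y b).filter fun y => K ≤ (hol y).ker)
        fun y => by rw [mem_filter, mem_Fix]]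
      refine card_le_card fun y hy => ?_
      obtain ⟨h1, h2⟩ := mem_filter.1 hy
      refine mem_filter.2 ⟨(mem_filter.1 h1).1, ?_⟩
      split_ifs at h2 with h
      · exact h2 ▸ h
      · exact h2.ge
  · have hS : ∀ K : S, ∃ y, (y ∈ L ∧ ¬K0 ≤ (hol y).ker) ∧ (hol y).ker = K.1 := fun K => by
      obtain ⟨y, hy, e⟩ := mem_image.1 K.2
      exact ⟨y, mem_filter.1 hy, e⟩
    choose r hr hk using hS
    have h1 := fun K => (hL _).1 (hr K).1
    let u : (Fin i ↪ S) → Fin (n + 1) → UQ d.hom hφ i := fun j m =>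
      ⟨(x m, fun k => r (j k) m), fun k => congrFun (h1 (j k)).1.2 m⟩
    have hu : ∀ j, (rho _ n b (u j) = u j ∧ ub d.hom hφ i ∘ u j = x) ∧ TFull (u j) := fun j => by
      refine ⟨⟨funext fun m => Subtype.ext (Prod.ext ?_ (funext fun k => ?_)), rfl⟩,
        hNFU Y Y0 Z H e ρ N p φ d hφ hN n i (u j) hf (fun k => (h1 (j k)).2) (fun k => ?_)
          fun k l hkl h => hkl (j.injective (Subtype.ext ((hk _).symm.trans (h.trans (hk _)))))⟩
      · exact (congrFun (rho_map (isHom_ub d.hom hφ i) b (u j)) m).symm.trans (congrFun hx m)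
      · exact (congrFun (rho_map (f := fun a : UQ d.hom hφ i => a.1.2 k) (fun _ _ => rfl) b (u j))
          m).symm.trans (congrFun (h1 (j k)).1.1 m)
      · obtain ⟨a, ha, ha'⟩ := SetLike.not_le_iff_exists.1 (hr (j k)).2
        have := Prod.ext_iff.1 (MonoidHom.mem_ker.1 ha)
        exact ⟨a, this.1, (QuotientGroup.eq_one_iff _).1 ((ht _ (h1 (j k)).1.2 a).trans this.2), ha'⟩
    have := Nat.card_le_card_of_injective (fun j : Fin i ↪ S => (⟨u j, hu j⟩ :
      {v // (rho _ n b v = v ∧ ub d.hom hφ i ∘ v = x) ∧ TFull v})) fun j j' h =>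
        Function.Embedding.ext fun k => Subtype.ext ((hk _).symm.trans
          ((congrArg (fun v => (hol fun m => (v.1 m).1.2 k).ker) h).trans (hk _)))
    rwa [Nat.card_eq_fintype_card, Fintype.card_embedding_eq, Fintype.card_coe,
      Fintype.card_fin] at this

end Pool.Agent.P.MP_cc10d1_gt.UL
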