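import Pool.Agent.P.MP_cc10d1_gt.UL.Iface

/-! Step NB. -/

set_option autoImplicit false
set_option linter.unusedSectionVars false

namespace Pool.Agent.P.MP_cc10d1_gt.UL

open Finset Filter Topology T R Quandles Rack
open scoped commutatorElement

namespace NBaux

theorem quot {A : Type} [Group A] (P : Subgroup A) [P.Normal] [Finite P]
    [Finite (commutator (A ⧸ P))] :
    Finite (commutator A) ∧
      Nat.card (commutator A) ≤ Nat.card P * Nat.card (commutator (A ⧸ P)) := by
  let f : commutator A →* A ⧸ P := (QuotientGroup.mk' P).comp (commutator A).subtype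
  have h1 : f.range ≤ commutator (A ⧸ P) := by
    rintro _ ⟨x, rfl⟩
    have : (commutator A).map (QuotientGroup.mk' P) ≤ commutator (A ⧸ P) := by
      rw [commutator_def, Subgroup.map_commutator]
      exact Subgroup.commutator_mono le_top le_top
    exact this ⟨x.1, x.2, rfl⟩
  let g : f.ker → P := fun x => ⟨x.1.1, (QuotientGroup.eq_one_iff _).1 x.2⟩
  have hg : Function.Injective g := fun x y e =>
    Subtype.ext (Subtype.ext (congrArg (fun z : P => z.1) e))
  have : Finite f.ker := .of_injective g hg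
  have : Finite f.range := .of_injective _ (Subgroup.inclusion_injective h1)
  refine ⟨f.finite_iff_finite_ker_range.2 ⟨inferInstance, inferInstance⟩, ?_⟩
  rw [← f.ker.card_mul_index, Subgroup.index_ker]
  exact Nat.mul_le_mul (Nat.card_le_card_of_injective g hg) (Subgroup.card_le_of_le h1)

theorem idx {A H : Type} [Group A] [Group H] [Finite H] (f : A →* H) :
    f.ker.index ≠ 0 ∧ f.ker.index ≤ Nat.card H := by
  rw [Subgroup.index_ker]
  exact ⟨Nat.card_pos.ne', Nat.card_le_card_of_injective _ Subtype.val_injective⟩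

end NBaux

theorem p_NB (hSCH : S_SCH) :
    S_NB := by
  obtain ⟨cb, hcb⟩ := hSCH
  intro T0 H _ _ _ _ N hN
  refine ⟨cb (Nat.card T0), cb (Nat.card H), fun i => ?_⟩
  induction i with
  | zero =>
    intro A _ t0 t h1 _ _
    rw [pow_zero, mul_one]
    exact hcb A t0.ker _ (fun c hc => h1 c hc fun k => k.elim0) (NBaux.idx t0).1 (NBaux.idx t0).2
  | succ i ih =>
    intro A _ t0 t h1 h2 h3
    obtain ⟨S, hS⟩ : ∃ S : Subgroup A, S = t0.ker ⊓ ⨅ l : Fin i, (t l.castSucc).ker := ⟨_, rfl⟩
    have mS : ∀ a, a ∈ S ↔ t0 a = 1 ∧ ∀ l : Fin i, t l.castSucc a = 1 := fun a => by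
      simp only [hS, Subgroup.mem_inf, Subgroup.mem_iInf, MonoidHom.mem_ker]
    have : S.Normal := ⟨fun a ha b => by
      obtain ⟨a1, a2⟩ := (mS a).1 ha
      exact (mS _).2 ⟨by simp [a1], fun l => by simp [a2 l]⟩⟩
    have cen : ∀ a ∈ S, t (Fin.last i) a = 1 → ∀ b, Commute a b := fun a ha e =>
      h1 a ((mS a).1 ha).1 fun k => by
        induction k using Fin.lastCases with
        | last => exact e
        | cast k => exact ((mS a).1 ha).2 k
    obtain ⟨f1, f2⟩ := hcb S ((t (Fin.last i)).comp S.subtype).ker _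
      (fun c hc a => Subtype.ext (cen c.1 c.2 hc a.1)) (NBaux.idx _).1 (NBaux.idx _).2
    have e : commutator S ≃ (⁅S, S⁆ : Subgroup A) := by
      rw [← Subgroup.map_subtype_commutator]
      exact ((commutator S).equivMapOfInjective _ S.subtype_injective).toEquiv
    have : Finite (⁅S, S⁆ : Subgroup A) := .of_equiv _ e
    have le : ⁅S, S⁆ ≤ S := Subgroup.commutator_le_left S S
    have hm : N ≤ (⁅S, S⁆ : Subgroup A).map (t (Fin.last i)) := by
      have : N ≤ S.map (t (Fin.last i)) := fun g hg => by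
        obtain ⟨a, a1, a2, a3⟩ := h3 (Fin.last i) g hg
        exact ⟨a, (mS a).2 ⟨a1, fun l => a3 _ (Fin.castSucc_lt_last l).ne⟩, a2⟩
      rw [Subgroup.map_commutator, ← hN]
      exact Subgroup.commutator_mono this this
    obtain ⟨g1, g2⟩ := ih (A ⧸ ⁅S, S⁆)
      (QuotientGroup.lift _ t0 fun a ha => ((mS a).1 (le ha)).1)
      (fun l => QuotientGroup.lift _ (t l.castSucc) fun a ha => ((mS a).1 (le ha)).2 l)
      (by
        rintro ⟨a⟩ a1 a2 ⟨b⟩
        obtain ⟨p, hp, e⟩ := hm (h2 a a1 (Fin.last i))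
        have hc := cen (a * p⁻¹) (mul_mem ((mS a).2 ⟨a1, a2⟩) (inv_mem (le hp)))
          (by rw [map_mul, map_inv, e, mul_inv_cancel]) b
        have := hc.map (QuotientGroup.mk' ⁅S, S⁆)
        rw [map_mul, map_inv, show QuotientGroup.mk' ⁅S, S⁆ p = 1 from
          (QuotientGroup.eq_one_iff _).2 hp, inv_one, mul_one] at this
        exact this)
      (by
        rintro ⟨a⟩ a1 k
        exact h2 a a1 _)
      (fun k g hg => by
        obtain ⟨a, a1, a2, a3⟩ := h3 k.castSucc g hg
        exact ⟨(a : A ⧸ ⁅S, S⁆), a1, a2, fun l hl => a3 _ fun e => hl (Fin.castSucc_injective _ e)⟩)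
    obtain ⟨k1, k2⟩ := NBaux.quot (⁅S, S⁆ : Subgroup A)
    refine ⟨k1, k2.trans ?_⟩
    rw [← Nat.card_congr e, pow_succ', mul_left_comm]
    exact Nat.mul_le_mul f2 g2

end Pool.Agent.P.MP_cc10d1_gt.UL
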