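import Pool.Agent.P.MP_cc10d1_gt.UL.Iface

/-! Step NBU. -/

set_option autoImplicit false
set_option linter.unusedSectionVars false

namespace Pool.Agent.P.MP_cc10d1_gt.UL

open Finset Filter Topology T R Quandles Rack
open scoped commutatorElement

namespace NBUaux

theorem equiv_ind {C D : Type} [Quandle C] (β : EnvelGroup C →* Equiv.Perm D) (f : C → D)
    (h : ∀ a u, f (a ◃ u) = β (S.gen a) (f u)) (a : EnvelGroup C) :
    ∀ u, f (S.ea a u) = β a (f u) := by
  induction a using S.env_ind with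
  | h1 => simp
  | hg b => exact h b
  | hm v w hv hw =>
    intro u
    rw [map_mul, map_mul, Equiv.Perm.mul_apply, Equiv.Perm.mul_apply, hv, hw]
  | hi v hv =>
    intro u
    have := hv (S.ea v⁻¹ u)
    rw [← Equiv.Perm.mul_apply, ← map_mul, mul_inv_cancel, map_one, Equiv.Perm.one_apply] at this
    rw [this, ← Equiv.Perm.mul_apply, ← map_mul, inv_mul_cancel, map_one, Equiv.Perm.one_apply]

theorem env_ext {C G : Type} [Quandle C] [Group G] (f g : EnvelGroup C →* G)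
    (h : ∀ a, f (S.gen a) = g (S.gen a)) (a : EnvelGroup C) : f a = g a := by
  induction a using S.env_ind with
  | h1 => simp
  | hg b => exact h b
  | hm v w hv hw => rw [map_mul, map_mul, hv, hw]
  | hi v hv => rw [map_inv, map_inv, hv]

theorem key {A T0 H ι : Type} [Group A] [Group T0] [Group H] (t0 : A →* T0) (t : ι → A →* H)
    (N : Subgroup H) (hmin : ∀ M : Subgroup H, M.Normal → M ≤ N → M = ⊥ ∨ M = N)
    (hN : ∀ a, t0 a = 1 → ∀ k, t k a ∈ N) (k : ι) (hs : Function.Surjective (t k))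
    (hne : ∃ a, t0 a = 1 ∧ t k a ≠ 1 ∧ ∀ l, l ≠ k → t l a = 1) :
    ∀ g ∈ N, ∃ a, t0 a = 1 ∧ t k a = g ∧ ∀ l, l ≠ k → t l a = 1 := by
  let M : Subgroup H :=
    { carrier := {g | ∃ a, t0 a = 1 ∧ t k a = g ∧ ∀ l, l ≠ k → t l a = 1}
      one_mem' := ⟨1, map_one _, map_one _, fun l _ => map_one _⟩
      mul_mem' := by
        rintro _ _ ⟨a, h0, rfl, h1⟩ ⟨b, h2, rfl, h3⟩
        exact ⟨a * b, by rw [map_mul, h0, h2, one_mul], map_mul _ _ _,
          fun l hl => by rw [map_mul, h1 l hl, h3 l hl, one_mul]⟩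
      inv_mem' := by
        rintro _ ⟨a, h0, rfl, h1⟩
        exact ⟨a⁻¹, by rw [map_inv, h0, inv_one], map_inv _ _,
          fun l hl => by rw [map_inv, h1 l hl, inv_one]⟩ }
  have hM : M.Normal := ⟨by
    rintro _ ⟨a, h0, rfl, h1⟩ g
    obtain ⟨b, rfl⟩ := hs g
    exact ⟨b * a * b⁻¹, by rw [map_mul, map_mul, h0, map_inv, mul_one, mul_inv_cancel],
      by rw [map_mul, map_mul, map_inv],
      fun l hl => by rw [map_mul, map_mul, h1 l hl, map_inv, mul_one, mul_inv_cancel]⟩⟩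
  have hle : M ≤ N := by
    rintro _ ⟨a, h0, rfl, -⟩
    exact hN a h0 k
  rcases hmin M hM hle with h | h
  · obtain ⟨a, h0, h1, h2⟩ := hne
    have : t k a ∈ M := ⟨a, h0, rfl, h2⟩
    rw [h] at this
    exact absurd (Subgroup.mem_bot.1 this) h1
  · intro g hg
    rw [← h] at hg
    exact hg

theorem ex_e0 {Y Y0 H : Type} [Quandle Y] [Quandle Y0] [Group H] {e : Y → H}
    {ρ : H →* Equiv.Perm Y} {N : Subgroup H} [N.Normal] {p : Y → Y0} (d : MinQ e ρ N p) :
    ∃ e0 : Y0 → H ⧸ N, (∀ y, e0 (p y) = QuotientGroup.mk' N (e y)) ∧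
      ∀ a b, e0 (a ◃ b) = e0 a * e0 b * (e0 a)⁻¹ := by
  have h : ∀ y, QuotientGroup.mk' N (e (Function.surjInv d.sur (p y))) =
      QuotientGroup.mk' N (e y) := by
    intro y
    obtain ⟨g, hg, hy⟩ := (d.fib _ _).1 (Function.surjInv_eq d.sur (p y))
    have h1 : QuotientGroup.mk' N g = 1 := (QuotientGroup.eq_one_iff g).2 hg
    conv_rhs => rw [← hy, d.inn.conj, map_mul, map_mul, map_inv, h1]
    simp
  refine ⟨fun y0 => QuotientGroup.mk' N (e (Function.surjInv d.sur y0)), h, fun a b => ?_⟩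
  obtain ⟨a, rfl⟩ := d.sur a
  obtain ⟨b, rfl⟩ := d.sur b
  simp only []
  rw [← d.hom, h, h, h, d.inn.he.conj, map_mul, map_mul, map_inv]

end NBUaux

open NBUaux in
theorem p_NBU (hNB : S_NB) :
    S_NBU := by
  intro Y Y0 Z H _ _ _ _ _ _ _ e ρ N p φ d hφ hs hN
  have := d.nor
  obtain ⟨e0, he0, hc0⟩ := ex_e0 d
  obtain ⟨c0, c, hc⟩ := hNB (Equiv.Perm Z × (H ⧸ N)) H N hN
  refine ⟨c0, c, fun i => ?_⟩
  let t0 : EnvelGroup (UQ d.hom hφ i) →* Equiv.Perm Z × (H ⧸ N) :=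
    S.lift (fun u => (sy (ub d.hom hφ i u), e0 (φ (ub d.hom hφ i u)))) fun a b => by
      rw [isHom_ub, sy_act, hφ, hc0]; rfl
  let t : Fin i → EnvelGroup (UQ d.hom hφ i) →* H := fun k =>
    S.lift (fun u => e (u.1.2 k)) fun a b => d.inn.he.conj _ _
  have h0 : ∀ a u, ub d.hom hφ i (S.ea a u) = (t0 a).1 (ub d.hom hφ i u) := fun a =>
    equiv_ind ((MonoidHom.fst _ _).comp t0) (ub d.hom hφ i) (fun _ _ => rfl) a
  have h1 : ∀ k a u, (S.ea a u).1.2 k = ρ (t k a) (u.1.2 k) := fun k a =>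
    equiv_ind (ρ.comp (t k)) (fun u => u.1.2 k) (fun a u => by
      change a.1.2 k ◃ u.1.2 k = ρ (e (a.1.2 k)) (u.1.2 k)
      rw [d.inn.act, sy_apply]) a
  have h2 : ∀ k a, QuotientGroup.mk' N (t k a) = (t0 a).2 := fun k a =>
    env_ext ((QuotientGroup.mk' N).comp (t k)) ((MonoidHom.snd _ _).comp t0) (fun u => by
      change QuotientGroup.mk' N (e (u.1.2 k)) = e0 (φ u.1.1)
      rw [← he0, u.2 k]) a
  have h3 : ∀ a, t0 a = 1 → ∀ k, t k a ∈ N := fun a ha k => by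
    have := h2 k a
    rw [ha] at this
    exact (QuotientGroup.eq_one_iff _).1 this
  refine (hc i _ t0 t (fun a ha hb a' => S.central_of_ea ?_ a') h3 fun k =>
    key t0 t N d.min h3 k ?_ ?_).2
  · ext1 u
    refine Subtype.ext (Prod.ext ?_ (funext fun k => ?_))
    · have := h0 a u
      rw [ha] at this
      exact this
    · rw [h1, hb, map_one]
      rfl
  · rw [← MonoidHom.range_eq_top, eq_top_iff, ← d.inn.gen, Subgroup.closure_le]
    rintro _ ⟨y, rfl⟩
    obtain ⟨z, hz⟩ := hs (p y)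
    exact ⟨S.gen ⟨(z, fun _ => y), fun _ => hz.symm⟩, rfl⟩
  · obtain ⟨g, hg, y, hy⟩ := d.nc
    obtain ⟨z, hz⟩ := hs (p y)
    have hp : p (ρ g y) = φ z := by rw [hz]; exact ((d.fib _ _).2 ⟨g, hg, rfl⟩).symm
    let u : UQ d.hom hφ i := ⟨(z, fun _ => y), fun _ => hz.symm⟩
    let u' : UQ d.hom hφ i := ⟨(z, fun l => if l = k then ρ g y else y), fun l => by
      dsimp only
      split_ifs
      · exact hp
      · exact hz.symm⟩
    refine ⟨S.gen u' * (S.gen u)⁻¹, ?_, ?_, fun l hl => ?_⟩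
    · rw [map_mul, map_inv, mul_inv_eq_one]
      rfl
    · rw [map_mul, map_inv, Ne, mul_inv_eq_one]
      change ¬ e (if k = k then ρ g y else y) = e y
      rw [if_pos rfl, d.inn.conj, mul_inv_eq_iff_eq_mul]
      exact fun h => hy h.symm
    · rw [map_mul, map_inv, mul_inv_eq_one]
      change e (if l = k then ρ g y else y) = e y
      rw [if_neg hl]

end Pool.Agent.P.MP_cc10d1_gt.UL
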