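import Pool.Agent.P.MP_cc10d1_gt.UL.Iface

/-! Step PAR. -/

set_option autoImplicit false
set_option linter.unusedSectionVars false

namespace Pool.Agent.P.MP_cc10d1_gt.UL

open Finset Filter Topology T R Quandles Rack
open scoped commutatorElement

namespace PARaux

open Module

variable {F W : Type} [Field F] [AddCommGroup W] [Module F W] [FiniteDimensional F W]

theorem ann (B : W →ₗ[F] W →ₗ[F] F) (hB : ∀ u, B u = 0 → u = 0) (S S' : Submodule F W) :
    (S ⊓ S').dualAnnihilator.comap B = S.dualAnnihilator.comap B ⊔ S'.dualAnnihilator.comap B ∧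
      finrank F ↥(S ⊓ S') + finrank F ((S ⊓ S').dualAnnihilator.comap B) = finrank F W := by
  have hi : Function.Injective B := (injective_iff_map_eq_zero B).2 hB
  obtain ⟨e, rfl⟩ : ∃ e : W ≃ₗ[F] Dual F W, (e : W →ₗ[F] Dual F W) = B :=
    ⟨B.linearEquivOfInjective hi Subspace.dual_finrank_eq.symm, LinearMap.ext fun _ => rfl⟩
  constructor
  · simp only [Submodule.comap_equiv_eq_map_symm]
    rw [Subspace.dualAnnihilator_inf_eq, Submodule.map_sup]
  · rw [Submodule.comap_equiv_eq_map_symm, LinearEquiv.finrank_map_eq,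
      Subspace.finrank_add_finrank_dualAnnihilator_eq]

theorem ann_range (B : W →ₗ[F] W →ₗ[F] F) (hB : ∀ u, B u = 0 → u = 0) (g : W ≃ₗ[F] W)
    (hg : ∀ u w, B (g u) (g w) = B u w) :
    (LinearMap.range (g.toLinearMap - LinearMap.id)).dualAnnihilator.comap B =
      LinearMap.eqLocus g.toLinearMap LinearMap.id := by
  ext u
  simp only [Submodule.mem_comap, Submodule.mem_dualAnnihilator, LinearMap.mem_range,
    LinearMap.mem_eqLocus, LinearMap.sub_apply, LinearMap.id_apply, LinearEquiv.coe_coe]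
  constructor
  · intro h
    have h1 : g.symm u - u = 0 := hB _ (LinearMap.ext fun w => by
      have := h _ ⟨w, rfl⟩
      rw [map_sub] at this
      rw [map_sub, LinearMap.sub_apply, ← hg (g.symm u), g.apply_symm_apply, this]; rfl)
    rw [sub_eq_zero, LinearEquiv.symm_apply_eq] at h1
    exact h1.symm
  · rintro h _ ⟨w, rfl⟩
    rw [map_sub, sub_eq_zero]
    conv_lhs => rw [← h]
    exact hg u w

end PARaux

open Module in
theorem p_PAR (hEVEN : S_EVEN) :
    S_PAR := by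
  intro F W _ _ _ _ B g h hB hg hh halt
  set a := LinearMap.eqLocus h.toLinearMap LinearMap.id with ha
  set c := LinearMap.eqLocus g.toLinearMap LinearMap.id with hc
  set f := LinearMap.eqLocus (g * h).toLinearMap LinearMap.id with hf
  have ma : ∀ u, u ∈ a ↔ h u = u := fun _ => Iff.rfl
  have mc : ∀ u, u ∈ c ↔ g.symm u = u := fun u =>
    (show u ∈ c ↔ g u = u from Iff.rfl).trans (by rw [LinearEquiv.symm_apply_eq, eq_comm])
  have mf : ∀ u, u ∈ f ↔ h u = g.symm u := fun u =>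
    (show u ∈ f ↔ g (h u) = u from Iff.rfl).trans (by rw [LinearEquiv.eq_symm_apply])
  let A : W →ₗ[F] W := h.toLinearMap - LinearMap.id
  let C : W →ₗ[F] W := g.symm.toLinearMap - LinearMap.id
  let T : Submodule F (W × W) := LinearMap.eqLocus (A ∘ₗ LinearMap.fst F W W) (C ∘ₗ LinearMap.snd F W W)
  have mT : ∀ p : W × W, p ∈ T ↔ h p.1 - p.1 = g.symm p.2 - p.2 := fun _ => Iff.rfl
  let t : T →ₗ[F] W := A ∘ₗ LinearMap.fst F W W ∘ₗ T.subtype
  let d : T →ₗ[F] W := (LinearMap.fst F W W - LinearMap.snd F W W) ∘ₗ T.subtype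
  have et : ∀ p : T, t p = h p.1.1 - p.1.1 := fun _ => rfl
  have ed : ∀ p : T, d p = p.1.1 - p.1.2 := fun _ => rfl
  have h1 := hEVEN F T (B.compl₁₂ d t) fun p => halt _ _ p.2
  obtain ⟨h2, h3⟩ := PARaux.ann B hB (LinearMap.range A) (LinearMap.range C)
  have hg' : ∀ u w, B (g.symm u) (g.symm w) = B u w := fun u w => by
    rw [← hg, g.apply_symm_apply, g.apply_symm_apply]
  have h4 : LinearMap.eqLocus g.symm.toLinearMap LinearMap.id = c :=
    Submodule.ext fun u => (mc u).symm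
  rw [PARaux.ann_range B hB h hh, PARaux.ann_range B hB g.symm hg', h4, ← ha] at h2
  have h5 : LinearMap.range t = LinearMap.range A ⊓ LinearMap.range C := by
    ext v
    constructor
    · rintro ⟨p, rfl⟩
      exact ⟨⟨p.1.1, rfl⟩, ⟨p.1.2, p.2.symm⟩⟩
    · rintro ⟨⟨u, hu⟩, ⟨w, hw⟩⟩
      exact ⟨⟨(u, w), hu.trans hw.symm⟩, hu⟩
  have h6 : (LinearMap.ker t).map T.subtype = a.prod c := by
    ext p
    constructor
    · rintro ⟨q, hq, rfl⟩
      have e1 : h q.1.1 - q.1.1 = 0 := hq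
      exact ⟨(ma _).2 (sub_eq_zero.1 e1), (mc _).2 (sub_eq_zero.1 (((mT _).1 q.2).symm.trans e1))⟩
    · rintro ⟨e1, e2⟩
      have e3 := sub_eq_zero.2 ((ma _).1 e1)
      exact ⟨⟨p, (mT p).2 (e3.trans (sub_eq_zero.2 ((mc _).1 e2)).symm)⟩, e3, rfl⟩
  let D : W →ₗ[F] W × W := LinearMap.prod LinearMap.id LinearMap.id
  have iD : Function.Injective D := fun _ _ e => congrArg Prod.fst e
  have mK : ∀ p : T, p ∈ LinearMap.ker (B.compl₁₂ d t) ↔ p.1.1 - p.1.2 ∈ a ⊔ c := fun p => by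
    rw [← h2, ← h5, Submodule.mem_comap, Submodule.mem_dualAnnihilator, LinearMap.mem_ker]
    constructor
    · rintro e _ ⟨q, rfl⟩
      exact LinearMap.congr_fun e q
    · exact fun e => LinearMap.ext fun q => e _ ⟨q, rfl⟩
  have h7 : (LinearMap.ker (B.compl₁₂ d t)).map T.subtype = f.map D ⊔ a.prod c := by
    refine le_antisymm ?_ (sup_le ?_ ?_)
    · rintro _ ⟨q, hq, rfl⟩
      obtain ⟨x, hx, y, hy, e⟩ := Submodule.mem_sup.1 ((mK q).1 hq)
      have e1 : q.1.1 - x = q.1.2 + y := by rw [sub_eq_iff_eq_add, add_assoc, add_comm y, e]; abel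
      refine Submodule.mem_sup.2 ⟨D (q.1.1 - x), ⟨_, (mf _).2 ?_, rfl⟩, (x, -y),
        ⟨hx, c.neg_mem hy⟩, Prod.ext (sub_add_cancel _ _) ?_⟩
      · have e2 := (mT _).1 q.2
        conv_rhs => rw [e1, map_add, (mc y).1 hy]
        rw [map_sub, (ma x).1 hx, sub_eq_iff_eq_add.1 e2, add_sub_assoc, e1]
        abel
      · change q.1.1 - x + -y = q.1.2
        rw [e1]; abel
    · rintro _ ⟨x, hx, rfl⟩
      refine ⟨⟨D x, (mT _).2 (congrArg (· - x) ((mf x).1 hx))⟩, (mK _).2 ?_, rfl⟩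
      change x - x ∈ _
      rw [sub_self]; exact zero_mem _
    · rw [← h6]
      refine Submodule.map_mono fun q hq => (mK q).2 ?_
      have := h6.le ⟨q, hq, rfl⟩
      exact sub_mem (Submodule.mem_sup_left this.1) (Submodule.mem_sup_right this.2)
  have h8 : f.map D ⊓ a.prod c = (a ⊓ c).map D := by
    refine le_antisymm ?_ ?_
    · rintro _ ⟨⟨x, _, rfl⟩, e⟩
      exact ⟨x, e, rfl⟩
    · rintro _ ⟨x, hx, rfl⟩
      exact ⟨⟨x, (mf x).2 (((ma x).1 hx.1).trans ((mc x).1 hx.2).symm), rfl⟩, hx⟩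
  have n1 := t.finrank_range_add_finrank_ker
  have n2 := Submodule.finrank_map_subtype_eq T (LinearMap.ker t)
  have n3 := Submodule.finrank_map_subtype_eq T (LinearMap.ker (B.compl₁₂ d t))
  have n4 := Submodule.finrank_sup_add_finrank_inf_eq (f.map D) (a.prod c)
  have n5 := Submodule.finrank_sup_add_finrank_inf_eq a c
  have n6 := (Submodule.equivMapOfInjective D iD f).finrank_eq
  have n7 := (Submodule.equivMapOfInjective D iD (a ⊓ c)).finrank_eq
  rw [h2] at h3
  rw [h5] at n1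
  rw [h6] at n2
  rw [h7] at n3
  rw [h8] at n4
  rw [Nat.even_iff] at h1 ⊢
  omega

end Pool.Agent.P.MP_cc10d1_gt.UL
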