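import Pool.Agent.P.MP_cc10d1_gt.UL.Iface

/-! Step POIS. -/

set_option autoImplicit false
set_option linter.unusedSectionVars false

namespace Pool.Agent.P.MP_cc10d1_gt.UL

open Finset Filter Topology T R Quandles Rack
open scoped commutatorElement

namespace POISaux

open Polynomial Nat

/-- the interpolation polynomial -/
noncomputable def pp (k n : ℕ) : Polynomial ℝ :=
  C (((k ! : ℝ) * n !)⁻¹) * (∏ s ∈ range k, (X - C (s : ℝ))) *
    ∏ t ∈ range n, (C ((k : ℝ) + 1 + t) - X)

theorem eval_pp (k n : ℕ) (x : ℝ) : (pp k n).eval x =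
    ((k ! : ℝ) * n !)⁻¹ * (∏ s ∈ range k, (x - s)) * ∏ t ∈ range n, ((k : ℝ) + 1 + t - x) := by
  simp only [pp, eval_mul, eval_C, eval_prod, eval_sub, eval_X]

theorem pp_small {k n a : ℕ} (ha : a ≤ k + n) :
    (pp k n).eval (a : ℝ) = if a = k then 1 else 0 := by
  rw [eval_pp]
  rcases lt_trichotomy a k with h | rfl | h
  · rw [if_neg h.ne, prod_eq_zero (mem_range.2 h) (sub_self _), mul_zero, zero_mul]
  · have h1 : ∏ s ∈ range a, ((a : ℝ) - s) = a ! := by
      rw [prod_range_natCast_sub, ← Nat.descFactorial_eq_prod_range, Nat.descFactorial_self]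
    have h2 : ∏ t ∈ range n, ((a : ℝ) + 1 + t - a) = n ! := by
      rw [← prod_range_add_one_eq_factorial]
      push_cast
      exact prod_congr rfl fun t _ => by ring
    rw [if_pos rfl, h1, h2]
    have := Nat.factorial_ne_zero a
    have := Nat.factorial_ne_zero n
    field_simp
  · obtain ⟨t, rfl⟩ := Nat.exists_eq_add_of_lt h
    rw [if_neg h.ne', prod_eq_zero (mem_range.2 (by omega : t < n)) (by push_cast; ring),
      mul_zero]

theorem pp_large {k n a : ℕ} (ha : k + n < a) :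
    |(pp k n).eval (a : ℝ)| ≤ (2 * a) ^ (k + n) / (k + n)! := by
  have h1 : |∏ s ∈ range k, ((a : ℝ) - s)| ≤ a ^ k := by
    rw [abs_prod]
    refine (prod_le_prod (fun _ _ => abs_nonneg _) (g := fun _ => (a : ℝ)) fun s hs => ?_).trans
      (by simp)
    have : (s : ℝ) ≤ a := by exact_mod_cast (by have := mem_range.1 hs; omega : s ≤ a)
    have : (0 : ℝ) ≤ s := Nat.cast_nonneg s
    rw [abs_le]; constructor <;> linarith
  have h2 : |∏ t ∈ range n, ((k : ℝ) + 1 + t - a)| ≤ a ^ n := by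
    rw [abs_prod]
    refine (prod_le_prod (fun _ _ => abs_nonneg _) (g := fun _ => (a : ℝ)) fun s hs => ?_).trans
      (by simp)
    have : (k : ℝ) + 1 + s ≤ a := by
      exact_mod_cast (by have := mem_range.1 hs; omega : k + 1 + s ≤ a)
    have : (0 : ℝ) ≤ k + 1 + s := by positivity
    rw [abs_le]; constructor <;> linarith
  have h3 : (((k + n)! : ℕ) : ℝ) ≤ 2 ^ (k + n) * (k ! * n !) := by
    have e := Nat.add_choose_mul_factorial_mul_factorial k n
    have e2 := Nat.choose_le_two_pow (k + n) n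
    have : (k + n)! ≤ 2 ^ (k + n) * (k ! * n !) := by
      rw [← e, mul_assoc]
      exact Nat.mul_le_mul_right _ e2
    exact_mod_cast this
  have p1 : (0 : ℝ) < (k ! : ℝ) * n ! := by positivity
  have p2 : (0 : ℝ) < ((k + n)! : ℕ) := by positivity
  have h4 : ((k ! : ℝ) * n !)⁻¹ ≤ 2 ^ (k + n) / ((k + n)! : ℕ) := by
    rw [inv_eq_one_div, div_le_div_iff₀ p1 p2]
    linarith
  rw [eval_pp, abs_mul, abs_mul, abs_of_pos (inv_pos.2 p1)]
  calc _ ≤ 2 ^ (k + n) / ((k + n)! : ℕ) * (a : ℝ) ^ k * a ^ n := by gcongr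
    _ = _ := by rw [mul_pow, pow_add (a : ℝ)]; ring

theorem pow_self_le (j : ℕ) : (j : ℝ) ^ j / j ! ≤ 3 ^ j := by
  refine (Real.pow_div_factorial_le_exp _ (Nat.cast_nonneg j) j).trans ?_
  rw [← Real.exp_one_pow]
  exact pow_le_pow_left₀ (Real.exp_pos 1).le (Real.exp_one_lt_d9.le.trans (by norm_num)) j

theorem tend (u A B : ℝ) : Tendsto (fun i : ℕ => u ^ i / i ! * (A * B ^ i + 1)) atTop (𝓝 0) := by
  have h := ((FloorSemiring.tendsto_pow_div_factorial_atTop (u * B)).const_mul A).add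
    (FloorSemiring.tendsto_pow_div_factorial_atTop u)
  rw [mul_zero, add_zero] at h
  exact h.congr fun i => by rw [mul_pow]; ring

end POISaux

open POISaux Nat in
theorem p_POIS :
    S_POIS := by
  intro α k A B ε hA hB hε
  have t1 := (tend ((12 * α) ^ (α + 1)) A B).const_mul ((12 * (α : ℝ)) ^ (k + 1))
  have t2 := (tend (4 * α) A B).comp
    (tendsto_atTop_mono (f := id) (g := fun i : ℕ => k + ((α + 1) * i + 1))
      (fun i => by simp only [id]; nlinarith) tendsto_id)
  have t3 := t1.add t2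
  rw [mul_zero, add_zero] at t3
  obtain ⟨i, hi⟩ := (t3.eventually_le_const hε).exists
  obtain ⟨j, hj⟩ : ∃ j, j = k + ((α + 1) * i + 1) := ⟨_, rfl⟩
  refine ⟨pp k ((α + 1) * i + 1), i, j, (12 * α) ^ j / i !, (4 * α) ^ j / j !, by positivity,
    by positivity, ?_, fun a m ha => ?_⟩
  · refine le_trans (le_of_eq ?_) hi
    simp only [Function.comp, ← hj]
    rw [show j = (k + 1) + (α + 1) * i by omega, pow_add (12 * (α : ℝ)), pow_mul]
    ring
  rcases le_or_gt a j with h | h
  · rw [pp_small (hj ▸ h), sub_self, abs_zero]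
    positivity
  have h0 := pp_large (hj ▸ h : k + ((α + 1) * i + 1) < a)
  rw [← hj] at h0
  rw [if_neg (by omega), zero_sub, abs_neg]
  refine h0.trans ?_
  have hm : i ≤ m := by
    by_contra hc
    have : α * (m + 1) ≤ α * i := Nat.mul_le_mul_left _ (by omega)
    nlinarith
  rcases lt_or_ge m (2 * j) with h1 | h1
  · refine le_add_of_le_of_nonneg ?_ (by positivity)
    have e1 : (a : ℝ) ≤ α * (2 * j) := by
      exact_mod_cast ha.trans (Nat.mul_le_mul_left _ (by omega))
    have e2 : (i ! : ℝ) ≤ m.descFactorial i := by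
      exact_mod_cast (Nat.descFactorial_self i).ge.trans (Nat.descFactorial_le i hm)
    calc (2 * (a : ℝ)) ^ j / j ! ≤ (2 * (α * (2 * j))) ^ j / j ! := by gcongr
      _ = (4 * α) ^ j * ((j : ℝ) ^ j / j !) := by
        rw [← mul_div_assoc, ← mul_pow]; congr 2; ring
      _ ≤ (4 * α) ^ j * 3 ^ j := by gcongr; exact pow_self_le j
      _ = (12 * α) ^ j / i ! * i ! := by
        rw [div_mul_cancel₀ _ (by positivity), ← mul_pow]; congr 1; ring
      _ ≤ _ := by gcongr
  · refine le_add_of_nonneg_of_le (by positivity) ?_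
    have e1 : (a : ℝ) ≤ α * (2 * (m + 1 - j : ℕ)) := by
      exact_mod_cast ha.trans (Nat.mul_le_mul_left _ (by omega))
    have e2 : (((m + 1 - j : ℕ) : ℝ)) ^ j ≤ m.descFactorial j := by
      exact_mod_cast Nat.pow_sub_le_descFactorial m j
    calc (2 * (a : ℝ)) ^ j / j ! ≤ (2 * (α * (2 * (m + 1 - j : ℕ)))) ^ j / j ! := by gcongr
      _ = (4 * α) ^ j / j ! * ((m + 1 - j : ℕ) : ℝ) ^ j := by
        rw [div_mul_eq_mul_div, ← mul_pow]; congr 2; ring
      _ ≤ _ := by gcongr

end Pool.Agent.P.MP_cc10d1_gt.UL
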