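import Pool.Agent.P.MP_cc10d1_gt.UL.Iface

/-! Step POW. -/

set_option autoImplicit false
set_option linter.unusedSectionVars false

namespace Pool.Agent.P.MP_cc10d1_gt.UL

open Finset Filter Topology T R Quandles Rack
open scoped commutatorElement

namespace POWaux

theorem sum_prod {X Y : Type} [Quandle X] [Finite X] [Quandle Y] [Finite Y] {n : ℕ} (b : Br n)
    (F : (Fin (n + 1) → X) → (Fin (n + 1) → Y) → ℝ) :
    ∑ q ∈ Fix (X × Y) b, F (Prod.fst ∘ q) (Prod.snd ∘ q) =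
      ∑ x ∈ Fix X b, ∑ y ∈ Fix Y b, F x y := by
  rw [← sum_product']
  refine sum_bij' (fun q _ => (Prod.fst ∘ q, Prod.snd ∘ q)) (fun a _ i => (a.1 i, a.2 i))
    (fun q hq => mem_product.2 ⟨mem_Fix.2 (fix_map isHom_fst (mem_Fix.1 hq)),
      mem_Fix.2 (fix_map isHom_snd (mem_Fix.1 hq))⟩)
    (fun a ha => mem_Fix.2 ?_) (fun _ _ => rfl) (fun _ _ => rfl) fun _ _ => rfl
  rw [rho_prod, mem_Fix.1 (mem_product.1 ha).1, mem_Fix.1 (mem_product.1 ha).2]

end POWaux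

theorem p_POW (hALL : S_ALL) (hCST : S_CST) :
    S_POW := by
  intro Z Y _ _ _ p hp g hg hb j
  induction j with
  | zero => rw [pow_zero]; exact adm_one
  | succ j ih =>
    intro Z0 _ φ hφ w hw bw Z' _ _ π hπ s
    have f1 : IsHom (π ∘ Prod.fst : Z' × Z → Z0) := hπ.comp isHom_fst
    have f2 : IsHom (φ ∘ π ∘ Prod.fst : Z' × Z → Y) := hφ.comp f1
    have b1 := bw.pb (π ∘ Prod.fst : Z' × Z → Z0)
    have b2 := b1.mul ((bd_iw fun _ _ x => TFull x).pb (Prod.fst : Z' × Z → Z'))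
    have b3 := b2.mul (bd_iw fun _ _ x => (p ∘ Prod.snd) ∘ x = (φ ∘ π ∘ Prod.fst) ∘ x)
    have b4 := b3.mul (hb.pb (Prod.snd : Z' × Z → Z))
    have h2 := hg_mul (hg_pb hw f1) b1 (adm_pb (hCST.2.1 Z') isHom_fst)
    have h3 := hg_mul h2 b2 (hCST.2.2 _ _ _ _ (hp.comp isHom_snd) f2)
    have h4 := hg_mul h3 b3 (adm_pb hg isHom_snd)
    have h5 := hALL _ (s.pb isHom_fst) _ (hg_mul h4 b4 (adm_pb ih f2))
    refine good_congr (fun n b _ => ?_) h5
    refine Eq.trans (POWaux.sum_prod b fun x u => s.w n b x * (w n b (π ∘ x) * ind TFull x *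
      ind (fun u => p ∘ u = φ ∘ π ∘ x) u * g n b u * cnt p g n b (φ ∘ π ∘ x) ^ j)) ?_
    refine sum_congr rfl fun x _ => ?_
    change _ = ind TFull x * (s.w n b x * (w n b (π ∘ x) * cnt p g n b (φ ∘ π ∘ x) ^ (j + 1)))
    rw [pow_succ]
    generalize cnt p g n b (φ ∘ π ∘ x) ^ j = c
    simp only [cnt, mul_sum]
    exact sum_congr rfl fun u _ => by ring

end Pool.Agent.P.MP_cc10d1_gt.UL
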