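import Pool.Agent.P.MP_cc10d1_gt.UL.Iface

/-! Step QAP. -/

set_option autoImplicit false
set_option linter.unusedSectionVars false

namespace Pool.Agent.P.MP_cc10d1_gt.UL

open Finset Filter Topology T R Quandles Rack
open scoped commutatorElement

namespace QAPaux

noncomputable def GG (Q : ℝ) (e T : ℕ) : ℝ := ∏ i ∈ range T, (Q ^ (e * (i + 1)) - 1)

theorem fa_le {Q : ℝ} (hQ : 1 < Q) {e : ℕ} (he : 1 ≤ e) (T : ℕ) : R.fa Q T ≤ GG Q e T :=
  prod_le_prod (fun i _ => (sub_pos.2 (one_lt_pow₀ hQ i.succ_ne_zero)).le) fun i _ =>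
    sub_le_sub_right (pow_le_pow_right₀ hQ.le (Nat.le_mul_of_pos_left _ he)) _

theorem two_le {Q : ℝ} (hQ : 1 < Q) (T : ℕ) : Q ^ T * R.fa Q T ≤ GG Q 2 T := by
  have h : Q ^ T * R.fa Q T = ∏ i ∈ range T, (Q * (Q ^ (i + 1) - 1)) := by
    rw [prod_mul_distrib, prod_const, card_range, R.fa]
  rw [h]
  refine prod_le_prod (fun i _ => mul_nonneg (by linarith)
    (sub_pos.2 (one_lt_pow₀ hQ i.succ_ne_zero)).le) fun i _ => ?_
  have h1 : Q ≤ Q ^ (i + 1) := le_self_pow₀ hQ.le i.succ_ne_zero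
  rw [mul_comm 2, pow_mul]
  nlinarith

theorem den (Q : ℝ) (k e T : ℕ) : ∏ i ∈ range T, (Q ^ k - Q ^ (k + e * (i + 1))) =
    (-1) ^ T * (Q ^ (k * T) * GG Q e T) := by
  have h : (-1) ^ T * (Q ^ (k * T) * GG Q e T) =
      ∏ i ∈ range T, (-1 * (Q ^ k * (Q ^ (e * (i + 1)) - 1))) := by
    rw [prod_mul_distrib, prod_mul_distrib, prod_const, prod_const, card_range, GG, pow_mul]
  rw [h]
  exact prod_congr rfl fun i _ => by rw [pow_add]; ring

theorem bound {Q : ℝ} (hQ : 1 < Q) (k : ℕ) {e : ℕ} (he : 1 ≤ e) (T : ℕ) :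
    ∃ P : Polynomial ℝ, ∀ m : ℕ, m ≡ k [MOD e] →
      |(if m = k then 1 else 0) - P.eval (Q ^ m)| ≤
        (AA Q k (Q ^ k) * (Q ^ (k * T) * GG Q e T))⁻¹ * AA Q (k + T) (Q ^ m) := by
  have hK : 0 < AA Q k (Q ^ k) := by
    rw [AA_self]; exact mul_pos (by positivity) (fa_pos hQ k)
  have hG : 0 < GG Q e T := (fa_pos hQ T).trans_le (fa_le hQ he T)
  have hD : 0 < AA Q k (Q ^ k) * (Q ^ (k * T) * GG Q e T) := by positivity
  refine ⟨Polynomial.C ((-1) ^ T * (AA Q k (Q ^ k) * (Q ^ (k * T) * GG Q e T))⁻¹) *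
    ((∏ i ∈ range k, (Polynomial.X - Polynomial.C (Q ^ i))) *
      ∏ i ∈ range T, (Polynomial.X - Polynomial.C (Q ^ (k + e * (i + 1))))), fun m hm => ?_⟩
  have hn : ∀ j, 0 ≤ AA Q j (Q ^ m) := fun j =>
    prod_nonneg' hQ j m id (Nat.zero_le _) fun _ => rfl
  have h0 := mul_nonneg (inv_pos.2 hD).le (hn (k + T))
  simp only [Polynomial.eval_mul, Polynomial.eval_C, Polynomial.eval_prod, Polynomial.eval_sub,
    Polynomial.eval_X]
  rcases lt_trichotomy m k with h | rfl | h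
  · rw [if_neg h.ne, prod_eq_zero (mem_range.2 h) (sub_self _)]
    simpa using h0
  · rw [if_pos rfl, den, ← AA]
    have : (-1 : ℝ) ^ T * (AA Q m (Q ^ m) * (Q ^ (m * T) * GG Q e T))⁻¹ *
        (AA Q m (Q ^ m) * ((-1) ^ T * (Q ^ (m * T) * GG Q e T))) = 1 := by
      have h1 : (-1 : ℝ) ^ T * (-1) ^ T = 1 := by rw [← mul_pow]; simp
      have h2 := inv_mul_cancel₀ hD.ne'
      calc _ = ((-1 : ℝ) ^ T * (-1) ^ T) * ((AA Q m (Q ^ m) * (Q ^ (m * T) * GG Q e T))⁻¹ *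
          (AA Q m (Q ^ m) * (Q ^ (m * T) * GG Q e T))) := by ring
        _ = 1 := by rw [h1, h2, one_mul]
    rw [this, sub_self, abs_zero]
    exact h0
  · obtain ⟨r, hr⟩ := (Nat.modEq_iff_dvd' h.le).1 hm.symm
    have hm' : m = k + e * r := by omega
    rw [if_neg h.ne', zero_sub, abs_neg]
    by_cases hT : r ≤ T
    · have hr0 : r ≠ 0 := by rintro rfl; omega
      obtain ⟨i, rfl⟩ := Nat.exists_eq_succ_of_ne_zero hr0
      rw [prod_eq_zero (s := range T) (mem_range.2 hT) (by rw [hm']; exact sub_self _)]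
      simpa using h0
    · have hp : ∀ i ∈ range T, 0 ≤ Q ^ m - Q ^ (k + e * (i + 1)) := fun i hi =>
        sub_nonneg.2 (pow_le_pow_right₀ hQ.le (by
          have := mem_range.1 hi
          rw [hm']
          exact Nat.add_le_add_left (Nat.mul_le_mul_left _ (by omega)) _))
      rw [← AA, abs_mul, abs_mul, abs_pow, abs_neg, abs_one, one_pow, one_mul,
        abs_of_pos (inv_pos.2 hD), abs_of_nonneg (mul_nonneg (hn k) (prod_nonneg hp))]
      refine mul_le_mul_of_nonneg_left ?_ (inv_pos.2 hD).le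
      rw [AA, AA, prod_range_add, ← AA]
      refine mul_le_mul_of_nonneg_left (prod_le_prod hp fun i _ => ?_) (hn k)
      refine sub_le_sub_left (pow_le_pow_right₀ hQ.le ?_) _
      have := Nat.le_mul_of_pos_left (i + 1) he
      omega

end QAPaux

open QAPaux in
theorem p_QAP :
    S_QAP := by
  intro q s k e A ε hq hes hA hε
  have hQ : (1 : ℝ) < q := by exact_mod_cast hq
  have he : 1 ≤ e := by omega
  have hs0 : (0 : ℝ) ≤ s := Nat.cast_nonneg _
  obtain ⟨z, hz0, hz, hzs⟩ : ∃ z : ℝ, 0 ≤ z ∧ z < q ∧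
      ∀ T, (s : ℝ) ^ T * R.fa q T ≤ z ^ T * GG q e T := by
    rcases hes with ⟨rfl, h⟩ | ⟨rfl, rfl⟩
    · exact ⟨s, hs0, by exact_mod_cast h, fun T =>
        mul_le_mul_of_nonneg_left (fa_le hQ le_rfl T) (by positivity)⟩
    · exact ⟨1, zero_le_one, hQ, fun T => by rw [one_pow, one_mul]; exact two_le hQ T⟩
  have hK : 0 < AA q k ((q : ℝ) ^ k) := by
    rw [AA_self]; exact mul_pos (by positivity) (fa_pos hQ k)
  have t1 := ((summ_S hQ hz0 hz).tendsto_atTop_zero.const_mul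
    (A * ((q : ℝ) ^ k.choose 2 * s ^ k) / AA q k ((q : ℝ) ^ k))).add
    ((summ_S hQ zero_le_one hQ).tendsto_atTop_zero.const_mul (AA q k ((q : ℝ) ^ k))⁻¹)
  rw [mul_zero, mul_zero, add_zero] at t1
  obtain ⟨T, hT⟩ := (t1.eventually (gt_mem_nhds hε)).exists
  obtain ⟨P, hP⟩ := bound hQ k he T
  have hf := fa_pos hQ T
  have hG : 0 < GG q e T := hf.trans_le (fa_le hQ he T)
  refine ⟨P, k + T, _, by positivity, le_trans ?_ hT.le, hP⟩
  rw [mul_add]
  refine add_le_add ?_ ?_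
  · have h1 : (s : ℝ) ^ T / GG q e T ≤ z ^ T / R.fa q T := by
      rw [div_le_div_iff₀ hG hf]; exact hzs T
    calc _ = A * ((q : ℝ) ^ k.choose 2 * s ^ k) / AA q k ((q : ℝ) ^ k) *
          ((q : ℝ) ^ T.choose 2 * ((s : ℝ) ^ T / GG q e T)) := by
          rw [choose_add, pow_add, pow_add, pow_add]; field_simp
      _ ≤ A * ((q : ℝ) ^ k.choose 2 * s ^ k) / AA q k ((q : ℝ) ^ k) *
          ((q : ℝ) ^ T.choose 2 * (z ^ T / R.fa q T)) := by gcongr
      _ = _ := by ring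
  · rw [mul_one, one_pow, mul_one, mul_inv]
    refine mul_le_mul_of_nonneg_left ?_ (inv_pos.2 hK).le
    have h1 : (1 : ℝ) ≤ (q : ℝ) ^ (k * T) := one_le_pow₀ hQ.le
    have h2 : (1 : ℝ) ≤ (q : ℝ) ^ T.choose 2 := one_le_pow₀ hQ.le
    have h3 : R.fa q T ≤ (q : ℝ) ^ (k * T) * GG q e T :=
      (fa_le hQ he T).trans (le_mul_of_one_le_left hG.le h1)
    calc _ ≤ (R.fa (q : ℝ) T)⁻¹ := inv_anti₀ hf h3
      _ ≤ _ := by rw [div_eq_mul_inv]; exact le_mul_of_one_le_left (inv_pos.2 hf).le h2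

end Pool.Agent.P.MP_cc10d1_gt.UL
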