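import Pool.Agent.P.MP_cc10d1_gt.UL.Iface

/-! Step QUO. -/

set_option autoImplicit false
set_option linter.unusedSectionVars false

namespace Pool.Agent.P.MP_cc10d1_gt.UL

open Finset Filter Topology T R Quandles Rack
open scoped commutatorElement

namespace QUOaux

variable {Y H : Type} [Group H] (ρ : H →* Equiv.Perm Y) (N : Subgroup H)

/-- The orbit relation of a subgroup. -/
def st : Setoid Y where
  r y y' := ∃ g ∈ N, ρ g y = y'
  iseqv := ⟨fun y => ⟨1, N.one_mem, by simp⟩,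
    fun ⟨g, h, e⟩ => ⟨g⁻¹, N.inv_mem h, by simp [← e]⟩,
    fun ⟨g, h, e⟩ ⟨g', h', e'⟩ => ⟨g' * g, N.mul_mem h' h, by simp [e, e']⟩⟩

variable {ρ N}

theorem key (hN : N.Normal) {g : H} (hg : g ∈ N) (u : H) {b b' : Y} (h : st ρ N b b') :
    st ρ N (ρ u b) (ρ (g * u * g⁻¹) b') := by
  obtain ⟨g', h', rfl⟩ := h
  refine ⟨g * (u * (g⁻¹ * g') * u⁻¹),
    N.mul_mem hg (hN.conj_mem _ (N.mul_mem (N.inv_mem hg) h') u), ?_⟩
  simp

end QUOaux

open QUOaux in
theorem p_QUO :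
    S_QUO := by
  intro Y H _ _ _ e ρ N d hN
  have a : ∀ x y : Y, ρ (e x) y = x ◃ y := fun x y => by rw [d.act, sy_apply]
  have k1 : ∀ ⦃x x' : Y⦄, st ρ N x x' → ∀ ⦃y y' : Y⦄, st ρ N y y' →
      st ρ N (ρ (e x) y) (ρ (e x') y') := by
    rintro x _ ⟨g, hg, rfl⟩ y y' h
    rw [d.conj]
    exact key hN hg _ h
  have k2 : ∀ ⦃x x' : Y⦄, st ρ N x x' → ∀ ⦃y y' : Y⦄, st ρ N y y' →
      st ρ N (ρ (e x)⁻¹ y) (ρ (e x')⁻¹ y') := by
    rintro x _ ⟨g, hg, rfl⟩ y y' h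
    rw [d.conj, conj_inv]
    exact key hN hg _ h
  refine ⟨Quotient (st ρ N),
    { act := Quotient.map₂ (fun x y => ρ (e x) y) k1
      invAct := Quotient.map₂ (fun x y => ρ (e x)⁻¹ y) k2
      self_distrib := ?_
      left_inv := ?_
      right_inv := ?_
      fix := ?_ }, inferInstance, Quotient.mk _, ?_, Quotient.mk_surjective,
    fun y y' => Quotient.eq⟩
  · rintro ⟨x⟩ ⟨y⟩ ⟨z⟩
    refine congrArg (Quotient.mk _) ?_
    simp only [a]
    exact Shelf.self_distrib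
  · rintro ⟨x⟩ ⟨y⟩
    refine congrArg (Quotient.mk _) ?_
    simp
  · rintro ⟨x⟩ ⟨y⟩
    refine congrArg (Quotient.mk _) ?_
    simp
  · rintro ⟨x⟩
    refine congrArg (Quotient.mk _) ?_
    simp only [a]
    exact Quandle.fix
  · intro x y
    exact congrArg (Quotient.mk _) (a x y).symm

end Pool.Agent.P.MP_cc10d1_gt.UL
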