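import Pool.Agent.P.MP_cc10d1_gt.UL.Iface

/-! Step REP. -/

set_option autoImplicit false
set_option linter.unusedSectionVars false

namespace Pool.Agent.P.MP_cc10d1_gt.UL

open Finset Filter Topology T R Quandles Rack
open scoped commutatorElement

theorem p_REP :
    S_REP := by
  intro Q _ _ h y0
  obtain ⟨n1, h1⟩ := all_CP Q
  refine ⟨n1 + Nat.card Q * Nat.card (Equiv.Perm Q), fun n hn => ?_⟩
  have hd : S.deg (S.gen y0 ^ (n + 1)) = Multiplicative.ofAdd ((n + 1 : ℕ) : ℤ) := by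
    rw [map_pow, S.deg_gen, ← ofAdd_nsmul, nsmul_one]
  refine ⟨fun j => ?_, fun x => ⟨⟨(S.gen y0 ^ (n + 1))⁻¹ * pr S.gen (List.ofFn x),
    S.ker_deg (conn_of_cn h) y0 ?_⟩, (mul_inv_cancel_left _ _).symm⟩, fun x y hx hy =>
      ⟨fun e => ((all_BRIDGE Q n _ _).1 e).pr cHom_gen, fun e => (all_BRIDGE Q n _ _).2
        (h1 _ _ ((tFull_iff _).1 hx) ((tFull_iff _).1 hy) ?_ ?_ ?_)⟩⟩
  · obtain ⟨l, a1, a2, a3⟩ := exists_full h y0 (n + 1) (by omega) (S.gen y0 ^ (n + 1) * j)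
      (by rw [map_mul, S.deg_commutator j.2, mul_one, hd])
    obtain ⟨x, rfl⟩ : ∃ x : Fin (n + 1) → Q, List.ofFn x = l := by
      generalize n + 1 = m at a2
      subst a2
      exact ⟨l.get, List.ofFn_get l⟩
    exact ⟨x, (tFull_iff x).2 a1, a3⟩
  · rw [map_mul, map_inv, hd, deg_pr, List.length_ofFn, inv_mul_cancel]
  · rw [List.length_ofFn]; omega
  · rw [List.length_ofFn, List.length_ofFn]
  · intro G _ e' he
    rw [← lift_pr he, ← lift_pr he, e]

end Pool.Agent.P.MP_cc10d1_gt.UL
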