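import Pool.Agent.P.MP_cc10d1_gt.UL.Iface

/-! Step RG. -/

set_option autoImplicit false
set_option linter.unusedSectionVars false

namespace Pool.Agent.P.MP_cc10d1_gt.UL

open Finset Filter Topology T R Quandles Rack
open scoped commutatorElement

theorem p_RG :
    S_RG := by
  intro X _ _ _ w n b hb
  classical
  have key : ∀ (Y : CS X) (z : Fin (n + 1) → Sub Y), TFull z → ∀ a, a ∈ Y.1 ↔
      ∃ φ, hol (fun i => (z i).1) φ (z 0).1 = a := fun Y z hz a =>
    ⟨fun ha => (hz (z 0) ⟨a, ha⟩).imp fun φ e =>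
        (hol_map (isHom_val _) z φ (z 0)).trans (congrArg Subtype.val e),
      fun ⟨φ, e⟩ => e ▸ (hol_map (isHom_val _) z φ (z 0)).symm ▸ (hol z φ (z 0)).2⟩
  have e0 : ∀ Y : CS X, sf (Sub Y) (pb (fun a => a.1) w) n b =
      ∑ z ∈ (Fix (Sub Y) b).filter TFull, w n b fun i => (z i).1 := fun Y => by
    rw [sf_apply, sum_filter]
    refine sum_congr rfl fun z _ => ?_
    split_ifs with h
    · rw [ind_pos h, one_mul]; rfl
    · rw [ind_neg h, zero_mul]
  rw [sum_congr rfl fun Y _ => e0 Y, sum_sigma', sa_apply]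
  symm
  refine sum_nbij (fun z i => (z.2 i).1) ?_ ?_ ?_ fun _ _ => rfl
  · rintro ⟨Y, z⟩ hz
    exact mem_Fix.2 (fix_map (isHom_val _) (mem_Fix.1 (mem_filter.1 (mem_sigma.1 hz).2).1))
  · rintro ⟨Y, z⟩ hz ⟨Y', z'⟩ hz' e1
    have hz := (mem_filter.1 (mem_sigma.1 hz).2).2
    have hz' := (mem_filter.1 (mem_sigma.1 hz').2).2
    dsimp only at hz hz' e1
    obtain rfl : Y = Y' := Subtype.ext (Set.ext fun a => by
      rw [key Y z hz, key Y' z' hz', e1, congrFun e1 0])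
    obtain rfl : z = z' := funext fun i => Subtype.ext (congrFun e1 i)
    rfl
  · intro x hx
    have hx := mem_Fix.1 hx
    obtain ⟨O, z, h1, h2, -⟩ := all_SUB X n x (all_FIXC X n b x hb hx).1
    obtain rfl : (fun i => (z i).1) = x := funext h1
    refine ⟨⟨⟨O.1, ⟨_, (z 0).2⟩, O.2, fun a ha c hc => ?_⟩, z⟩,
      mem_sigma.2 ⟨mem_univ _, mem_filter.2 ⟨mem_Fix.2 ?_, h2⟩⟩, rfl⟩
    · obtain ⟨φ, e⟩ := h2 ⟨a, ha⟩ ⟨c, hc⟩
      refine ⟨_, ?_, (hol_map (isHom_val O) z φ ⟨a, ha⟩).trans (congrArg Subtype.val e)⟩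
      have : hol ((fun a : SubQ O => a.1) ∘ z) φ ∈ (hol ((fun a : SubQ O => a.1) ∘ z)).range :=
        ⟨φ, rfl⟩
      rw [hol, FreeGroup.range_lift_eq_closure] at this
      refine Subgroup.closure_mono ?_ this
      rintro _ ⟨i, rfl⟩
      exact ⟨_, (z i).2, rfl⟩
    · funext i
      exact Subtype.ext (congrFun ((rho_map (isHom_val O) b z).symm.trans hx) i)

end Pool.Agent.P.MP_cc10d1_gt.UL
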