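import Pool.Agent.P.MP_cc10d1_gt.UL.Iface

/-! Step RJ. -/

set_option autoImplicit false
set_option linter.unusedSectionVars false

namespace Pool.Agent.P.MP_cc10d1_gt.UL

open Finset Filter Topology T R Quandles Rack
open scoped commutatorElement

namespace RJaux

variable {V : Type} [AddCommGroup V] {j : ℕ}

/-- A block of a form on a power. -/
def blk (ω : (Fin j → V) →+ (Fin j → V) →+ U) (i k : Fin j) : V →+ V →+ U :=
  ω.compl₂ (AddMonoidHom.single (fun _ => V) k) |>.comp (AddMonoidHom.single (fun _ => V) i)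

theorem blk_apply (ω : (Fin j → V) →+ (Fin j → V) →+ U) (i k : Fin j) (v w : V) :
    blk ω i k v w = ω (Pi.single i v) (Pi.single k w) := rfl

theorem fin_forms [Finite V] : Finite (V →+ V →+ U) := by
  have : Finite (V →+ U) := Nat.finite_of_card_ne_zero (by
    rw [card_hom]; exact Nat.card_pos.ne')
  exact DFunLike.finite _

theorem skew {W : Type} [AddCommGroup W] {ω : W →+ W →+ U} (h : ∀ v, ω v v = 0) (v w : W) :
    ω v w = -ω w v := by
  have := h (v + w)
  rw [map_add, map_add, AddMonoidHom.add_apply, AddMonoidHom.add_apply, h, h, zero_add,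
    add_zero] at this
  exact eq_neg_of_add_eq_zero_right this

end RJaux

open RJaux in
theorem p_RJ (hRL : S_RL) :
    S_RJ := by
  intro Z F V _ _ _ _ _ σ j
  have := fin_forms (V := V)
  have h1 := (hRL Z F (Fin j → V) (σ.pi (Fin j))).1
  have h2 := (hRL Z F V σ).2 j
  have hs : ∀ z (i : Fin j) (v : V),
      (σ.pi (Fin j)).s z (Pi.single i v) = Pi.single i (σ.s z v) := fun z i v => funext fun k => by
    rw [Ac.pi_s]
    by_cases e : k = i
    · subst e; simp
    · simp [Pi.single_eq_of_ne e]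
  let f : {ω // Rl (σ.pi (Fin j)) ω} →
      ({p : Fin j × Fin j // p.1 < p.2} → {β // Inv σ β}) × (Fin j → {ω // Rl σ ω}) := fun ω =>
    (fun p => ⟨blk ω.1 p.1.1 p.1.2, fun z v w => by
      rw [blk_apply, blk_apply, ← hs, ← hs]; exact (h1 ω.1 ω.2).1 z _ _⟩,
      fun i => ⟨blk ω.1 i i, h2 ω.1 i _ ω.2 fun _ _ => rfl⟩)
  have hf : Function.Injective f := by
    intro ω ω' e
    have e1 : ∀ i k, i < k → blk ω.1 i k = blk ω'.1 i k := fun i k h =>
      congrArg Subtype.val (congrFun (congrArg Prod.fst e) ⟨(i, k), h⟩)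
    have e2 : ∀ i, blk ω.1 i i = blk ω'.1 i i := fun i =>
      congrArg Subtype.val (congrFun (congrArg Prod.snd e) i)
    refine Subtype.ext (AddMonoidHom.functions_ext _ _ _ fun i v =>
      AddMonoidHom.functions_ext _ _ _ fun k w => ?_)
    rcases lt_trichotomy i k with h | rfl | h
    · rw [← blk_apply, ← blk_apply, e1 i k h]
    · rw [← blk_apply, ← blk_apply, e2]
    · rw [skew (h1 ω.1 ω.2).2, skew (h1 ω'.1 ω'.2).2, ← blk_apply, ← blk_apply, e1 k i h]
  refine (Nat.card_le_card_of_injective f hf).trans_eq ?_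
  rw [Nat.card_prod, Nat.card_fun, Nat.card_fun, Nat.card_eq_fintype_card (α := Fin j),
    Fintype.card_fin, Nat.card_eq_fintype_card (α := {p : Fin j × Fin j // p.1 < p.2}),
    Fintype.card_subtype, Fintype.card_product_filter_lt, Fintype.card_fin]

end Pool.Agent.P.MP_cc10d1_gt.UL
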