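import Pool.Agent.P.MP_cc10d1_gt.UL.Iface

/-! Step RL. -/

set_option autoImplicit false
set_option linter.unusedSectionVars false

namespace Pool.Agent.P.MP_cc10d1_gt.UL

open Finset Filter Topology T R Quandles Rack
open scoped commutatorElement

namespace RLaux

variable {Z F V : Type} [Quandle Z] [Field F] [AddCommGroup V] [Module F V] (σ : Ac Z F V)

theorem one (ω : V →+ V →+ U) (hω : Rl σ ω) : Inv σ ω ∧ ∀ v, ω v v = 0 := by
  obtain ⟨G, _, h, ψ, h1, h2⟩ := hω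
  have h0 : ψ 1 = 0 := by
    have := h1 1 (one_mem _) 1 (one_mem _)
    rw [mul_one] at this
    exact left_eq_add.1 this
  refine ⟨fun z v w => ?_, fun v => ?_⟩
  · obtain ⟨r, hr, rfl⟩ := h.sur v
    obtain ⟨r', hr', rfl⟩ := h.sur w
    obtain ⟨a, a'⟩ := h.nor z r hr
    obtain ⟨b, b'⟩ := h.nor z r' hr'
    rw [← a', ← b', ← h2 _ a _ b, ← h2 _ hr _ hr']
    have c := (h.cen _ (Subgroup.commutator_mem_commutator hr hr') (h.e (zs σ z))).eq
    congr 1
    calc _ = h.e (zs σ z) * ⁅r, r'⁆ * (h.e (zs σ z))⁻¹ := by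
          simp only [commutatorElement_def]; group
      _ = _ := by rw [← c, mul_inv_cancel_right]
  · obtain ⟨r, hr, rfl⟩ := h.sur v
    rw [← h2 _ hr _ hr, commutatorElement_self, h0]

variable {j : ℕ} (i : Fin j)

theorem sing (z : Z) (v : V) :
    (Pi.single i (σ.s z v) : Fin j → V) = (σ.pi (Fin j)).s z (Pi.single i v) := by
  funext k
  rw [Ac.pi_s]
  by_cases h : k = i
  · subst h; simp
  · simp [Pi.single_eq_of_ne h]

/-- The inclusion of one coordinate. -/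
def inc (a : LQ σ) : LQ (σ.pi (Fin j)) :=
  lq _ a.1.1 (Pi.single i a.1.2) (by
    obtain ⟨v, hv⟩ := (mem_rg σ).1 a.2
    exact ⟨Pi.single i v, by
      change Pi.single i v - (σ.pi (Fin j)).s a.1.1 (Pi.single i v) = _
      rw [← sing, ← hv, Pi.single_sub]⟩)

theorem isHom_inc : IsHom (inc σ i) := fun a b =>
  Subtype.ext (isHom_aq σ (σ' := σ.pi (Fin j)) isHom_id
    (AddMonoidHom.single (fun _ : Fin j => V) i) (sing σ i) a.1 b.1)

theorem inc_zs (z : Z) : inc σ i (zs σ z) = zs (σ.pi (Fin j)) z :=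
  Subtype.ext (Prod.ext rfl (Pi.single_zero i))

variable {σ} {G : Type} [Group G] (h : Hs (σ.pi (Fin j)) G)

theorem pi_one : h.π 1 = 0 := by
  have := h.add 1 (one_mem _) 1 (one_mem _)
  rw [mul_one] at this
  exact left_eq_add.1 this

/-- The elements over one coordinate. -/
def sub : Subgroup G where
  carrier := {r | r ∈ h.R ∧ h.π r = Pi.single i (h.π r i)}
  one_mem' := ⟨one_mem _, by rw [pi_one]; simp⟩
  mul_mem' := fun {a b} ha hb => ⟨mul_mem ha.1 hb.1, by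
    rw [h.add _ ha.1 _ hb.1, Pi.add_apply, Pi.single_add, ← ha.2, ← hb.2]⟩
  inv_mem' := fun {a} ha => ⟨inv_mem ha.1, by
    have := h.add _ ha.1 _ (inv_mem ha.1)
    rw [mul_inv_cancel, pi_one] at this
    rw [eq_neg_of_add_eq_zero_right this.symm, Pi.neg_apply, Pi.single_neg, ← ha.2]⟩

theorem sub_le : ⁅sub i h, sub i h⁆ ≤ ⁅h.R, h.R⁆ :=
  Subgroup.commutator_mono (fun _ a => a.1) fun _ a => a.1

/-- The restricted extension. -/
def hs : Hs σ G where
  e := h.e ∘ inc σ i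
  R := sub i h
  π r := h.π r i
  he := h.he.comp (isHom_inc σ i)
  add r hr r' hr' := by rw [h.add r hr.1 r' hr'.1, Pi.add_apply]
  sur v := by
    obtain ⟨r, hr, e⟩ := h.sur (Pi.single i v)
    exact ⟨r, ⟨hr, by rw [e, Pi.single_eq_same]⟩, by rw [e, Pi.single_eq_same]⟩
  act r hr z := by
    rw [Function.comp_apply, Function.comp_apply, inc_zs, h.act r hr.1 z]
    congr 1
    refine Subtype.ext (Prod.ext rfl ?_)
    change h.π r - (σ.pi (Fin j)).s z (h.π r) = Pi.single i (h.π r i - σ.s z (h.π r i))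
    rw [Pi.single_sub, sing, ← hr.2]
  nor z r hr := by
    rw [Function.comp_apply, inc_zs]
    obtain ⟨a, b⟩ := h.nor z r hr.1
    refine ⟨⟨a, ?_⟩, ?_⟩
    · rw [b, Ac.pi_s, sing, ← hr.2]
    · rw [b, Ac.pi_s]
  cen c hc := h.cen c (sub_le i h hc)

end RLaux

theorem p_RL :
    S_RL := by
  intro Z F V _ _ _ _ σ
  refine ⟨RLaux.one σ, fun j ω i β ⟨G, _, h, ψ, h1, h2⟩ hβ => ⟨G, _, RLaux.hs i h, ψ,
    fun c hc c' hc' => h1 c (RLaux.sub_le i h hc) c' (RLaux.sub_le i h hc'),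
    fun r hr r' hr' => ?_⟩⟩
  rw [h2 r hr.1 r' hr'.1, hβ]
  exact congrArg₂ (fun a b => ω a b) hr.2 hr'.2

end Pool.Agent.P.MP_cc10d1_gt.UL
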