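import Pool.Agent.P.MP_cc10d1_gt.UL.Iface

/-! Step SCH. -/

set_option autoImplicit false
set_option linter.unusedSectionVars false

namespace Pool.Agent.P.MP_cc10d1_gt.UL

open Finset Filter Topology T R Quandles Rack
open scoped commutatorElement

theorem p_SCH :
    S_SCH := by
  refine ⟨fun m => (Finset.range (m * m + 1)).sup Subgroup.cardCommutatorBound, ?_⟩
  intro A _ C m hC h0 hm
  have hfin : Finite (A ⧸ C) := Nat.finite_of_card_ne_zero h0
  let f : (A ⧸ C) × (A ⧸ C) → commutatorSet A := fun x =>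
    ⟨⁅x.1.out, x.2.out⁆, commutator_mem_commutatorSet _ _⟩
  have hf : Function.Surjective f := by
    rintro ⟨g, a, b, rfl⟩
    refine ⟨((a : A ⧸ C), (b : A ⧸ C)), Subtype.ext ?_⟩
    obtain ⟨c, hc⟩ := QuotientGroup.mk_out_eq_mul C a
    obtain ⟨d, hd⟩ := QuotientGroup.mk_out_eq_mul C b
    show ⁅(a : A ⧸ C).out, (b : A ⧸ C).out⁆ = ⁅a, b⁆
    rw [hc, hd]
    have h1 : ∀ x : A, (c : A) * x = x * c := fun x => (hC c c.2 x).eq
    have h2 : ∀ x : A, (d : A) * x = x * d := fun x => (hC d d.2 x).eq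
    simp only [commutatorElement_def, mul_inv_rev]
    calc a * c * (b * d) * ((c : A)⁻¹ * a⁻¹) * ((d : A)⁻¹ * b⁻¹)
        = a * ((c : A) * (b * d)) * (c : A)⁻¹ * a⁻¹ * (d : A)⁻¹ * b⁻¹ := by group
      _ = a * ((b * d) * (c : A)) * (c : A)⁻¹ * a⁻¹ * (d : A)⁻¹ * b⁻¹ := by rw [h1]
      _ = a * b * ((d : A) * a⁻¹) * (d : A)⁻¹ * b⁻¹ := by group
      _ = a * b * (a⁻¹ * (d : A)) * (d : A)⁻¹ * b⁻¹ := by rw [h2]
      _ = a * b * a⁻¹ * b⁻¹ := by group
  have hfs : Finite (commutatorSet A) := Finite.of_surjective f hf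
  refine ⟨inferInstance, (Subgroup.card_commutator_le_of_finite_commutatorSet A).trans ?_⟩
  refine Finset.le_sup (f := Subgroup.cardCommutatorBound) (Finset.mem_range.2 ?_)
  have h3 : Nat.card (commutatorSet A) ≤ Nat.card ((A ⧸ C) × (A ⧸ C)) :=
    Nat.card_le_card_of_surjective f hf
  rw [Nat.card_prod] at h3
  have h4 : Nat.card (A ⧸ C) ≤ m := hm
  have := Nat.mul_le_mul h4 h4
  omega

end Pool.Agent.P.MP_cc10d1_gt.UL
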