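import Pool.Agent.P.MP_cc10d1_gt.UL.Iface

/-! Step SEC. -/

set_option autoImplicit false
set_option linter.unusedSectionVars false

namespace Pool.Agent.P.MP_cc10d1_gt.UL

open Finset Filter Topology T R Quandles Rack
open scoped commutatorElement

theorem p_SEC :
    S_SEC := by
  intro Z F V _ _ _ _ σ n x w hx hw h
  set T := FreeGroup.lift (aff σ ∘ mk σ x w) with hT
  set S := FreeGroup.lift (σ.s ∘ x) with hS
  have hs : ∀ a, (T a).s = S a := fun a =>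
    DFunLike.congr_fun (FreeGroup.ext_hom (Af.lin.comp T) S fun i => by
      rw [MonoidHom.comp_apply, hT, hS, FreeGroup.lift_apply_of, FreeGroup.lift_apply_of]; rfl) a
  have key : ∀ a a', hol x a = hol x a' → S a = S a' → T a = T a' := fun a a' e1 e2 => by
    have e3 : S (a * a'⁻¹) = 1 := by rw [map_mul, map_inv, e2, mul_inv_cancel]
    have e4 : T (a * a'⁻¹) = 1 :=
      Af.ext (h _ (by rw [map_mul, map_inv, e1, mul_inv_cancel]) e3) ((hs _).trans e3)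
    rwa [map_mul, map_inv, mul_inv_eq_one] at e4
  choose ψ hψ using hx (x 0)
  let A : Z → FreeGroup (Fin (n + 1)) := fun z => ψ z * FreeGroup.of 0 * (ψ z)⁻¹
  have a1 : ∀ z, hol x (A z) = sy z := fun z => by
    conv_rhs => rw [← hψ z, sy_hol]
    rw [map_mul, map_mul, map_inv, hol_of]
  have a2 : ∀ z, S (A z) = σ.s z := fun z => by
    conv_rhs => rw [← hψ z, ← σ.h.lift]
    rw [map_mul, map_mul, map_inv, hS, FreeGroup.lift_apply_of]; rfl
  have a3 : ∀ z, T (A z) = aff σ (hol (mk σ x w) (ψ z) (mk σ x w 0)) := fun z => by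
    rw [← (cHom_aff σ).lift, map_mul, map_mul, map_inv, hT, FreeGroup.lift_apply_of]; rfl
  clear_value A
  refine ⟨fun z => (T (A z)).v, ⟨fun z => ?_, fun a b => ?_⟩, funext fun i => ?_⟩
  · have e1 := hol_map (isHom_val ⟨_, cl_rg σ⟩) (mkL σ x ⟨w, hw⟩) (ψ z) (mkL σ x ⟨w, hw⟩ 0)
    have e2 := hol_map (isHom_lp σ) (mkL σ x ⟨w, hw⟩) (ψ z) (mkL σ x ⟨w, hw⟩ 0)
    have e3 : lp σ (hol (mkL σ x ⟨w, hw⟩) (ψ z) (mkL σ x ⟨w, hw⟩ 0)) = z := e2.symm.trans (hψ z)
    have e4 : (T (A z)).v = (hol (mkL σ x ⟨w, hw⟩) (ψ z) (mkL σ x ⟨w, hw⟩ 0)).1.2 :=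
      (congrArg Af.v (a3 z)).trans (congrArg Prod.snd e1)
    have e5 : _ ∈ rg σ (lp σ _) := (hol (mkL σ x ⟨w, hw⟩) (ψ z) (mkL σ x ⟨w, hw⟩ 0)).2
    rw [e3, ← e4] at e5
    exact e5
  · have e := key (A (a ◃ b)) (A a * A b * (A a)⁻¹)
      (by rw [map_mul, map_mul, map_inv, a1, a1, a1, sy_act])
      (by rw [map_mul, map_mul, map_inv, a2, a2, a2, σ.h.conj])
    change (T (A (a ◃ b))).v = _
    rw [e, map_mul, map_mul, map_inv, Af.conj_v, hs, hs, a2, a2, ← σ.h.conj]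
  · have e := key (A (x i)) (FreeGroup.of i) (by rw [a1, hol_of])
      (by rw [a2, hS, FreeGroup.lift_apply_of]; rfl)
    change (T (A (x i))).v = _
    rw [e, hT, FreeGroup.lift_apply_of]; rfl

end Pool.Agent.P.MP_cc10d1_gt.UL
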