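import Pool.Agent.P.MP_cc10d1_gt.UL.Iface

/-! Step SG. -/

set_option autoImplicit false
set_option linter.unusedSectionVars false

namespace Pool.Agent.P.MP_cc10d1_gt.UL

open Finset Filter Topology T R Quandles Rack
open scoped commutatorElement

namespace SGaux

theorem par {a b : ℕ} (h : Even (a + b)) : (-1 : ℤˣ) ^ a = (-1) ^ b := by
  rw [Int.units_pow_eq_pow_mod_two, Int.units_pow_eq_pow_mod_two _ b,
    show a % 2 = b % 2 by obtain ⟨k, h⟩ := h; omega]

end SGaux

open SGaux in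
theorem p_SG (hADD : S_ADD) (hDIM : S_DIM) :
    S_SG := by
  intro Z F V _ _ _ _ _ _ _ σ hC hI ω h0 hR hB
  obtain ⟨d, d1, d2, d3, d4⟩ := hDIM Z F V σ hC
  refine ⟨⟨fun n g x => (-1) ^ ((n + 1) * d + Module.finrank F (Fx σ g x)) * eps n g ^ d,
    fun n g h x a b => ?_, fun n g h x a => ?_, fun n i x a => ?_, fun n g x z a => ?_,
    fun n => ⟨(rho (AQ σ) n).ker ⊓ (eps n).ker, inferInstance, inferInstance, fun g c hc x => ?_⟩⟩,
    d, fun n b x hb => ?_⟩
  · obtain ⟨k, hk⟩ := hADD Z F V σ hI ω h0 hR hB n g h x a b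
    rw [d1] at hk
    rw [map_mul, mul_pow, mul_mul_mul_comm, ← pow_add]
    exact congrArg (· * _) (par ⟨(n + 1) * d + k, by omega⟩)
  · rw [(d4 n g h x).resolve_right (not_not.2 a), map_mul, map_mul, map_inv, mul_inv_cancel_comm]
  · rw [d2 n i x a, eps_sg, ← pow_add, par (b := 0) ⟨(n + 1) * d, by ring⟩, pow_zero]
  · rw [d3 n g x z a, eps_up]
    exact congrArg (· * _) (par ⟨(n + 1) * d + Module.finrank F (Fx σ g x) + d, by ring⟩)
  · have h1 : ∀ w, mk σ (rho Z n c x) (lam σ c x w) = mk σ x w := fun w => by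
      rw [← rho_mk, show rho (AQ σ) n c = 1 from hc.1]; rfl
    have h2 : lam σ (g * c) x = lam σ g x := LinearMap.ext fun w => by
      rw [lam_mul, show rho Z n c x = x from funext fun i => congrArg Prod.fst (congrFun (h1 w) i),
        show lam σ c x w = w from funext fun i => congrArg Prod.snd (congrFun (h1 w) i)]
    rw [map_mul, show eps n c = 1 from hc.2, mul_one, Fx, h2, Fx]
  · simp only [Sgn.w]
    rw [eps_knot hb, ← pow_mul, ← pow_add,
      par (b := Module.finrank F (Fx σ b x) + d) ⟨(n + 1) * d + Module.finrank F (Fx σ b x), by ring⟩]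
    simp

end Pool.Agent.P.MP_cc10d1_gt.UL
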