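import Pool.Agent.P.MP_cc10d1_gt.UL.TORB
import Pool.Agent.P.MP_cc10d1_gt.UL.TREP
import Pool.Agent.P.MP_cc10d1_gt.UL.TSCH
import Pool.Agent.P.MP_cc10d1_gt.UL.TFIN
import Pool.Agent.P.MP_cc10d1_gt.UL.TBASE
import Pool.Agent.P.MP_cc10d1_gt.UL.TRG
import Pool.Agent.P.MP_cc10d1_gt.UL.TALL
import Pool.Agent.P.MP_cc10d1_gt.UL.TAP
import Pool.Agent.P.MP_cc10d1_gt.UL.TCST
import Pool.Agent.P.MP_cc10d1_gt.UL.TPOW
import Pool.Agent.P.MP_cc10d1_gt.UL.TTR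
import Pool.Agent.P.MP_cc10d1_gt.UL.TMB
import Pool.Agent.P.MP_cc10d1_gt.UL.THOL
import Pool.Agent.P.MP_cc10d1_gt.UL.TCOV
import Pool.Agent.P.MP_cc10d1_gt.UL.TDEC
import Pool.Agent.P.MP_cc10d1_gt.UL.TQUO
import Pool.Agent.P.MP_cc10d1_gt.UL.TCASE
import Pool.Agent.P.MP_cc10d1_gt.UL.TNB
import Pool.Agent.P.MP_cc10d1_gt.UL.TNBU
import Pool.Agent.P.MP_cc10d1_gt.UL.TBD
import Pool.Agent.P.MP_cc10d1_gt.UL.TGOU
import Pool.Agent.P.MP_cc10d1_gt.UL.TNFU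
import Pool.Agent.P.MP_cc10d1_gt.UL.TNAC
import Pool.Agent.P.MP_cc10d1_gt.UL.TPOIS
import Pool.Agent.P.MP_cc10d1_gt.UL.TNA
import Pool.Agent.P.MP_cc10d1_gt.UL.TFLD
import Pool.Agent.P.MP_cc10d1_gt.UL.TABL
import Pool.Agent.P.MP_cc10d1_gt.UL.TFUN
import Pool.Agent.P.MP_cc10d1_gt.UL.TSEC
import Pool.Agent.P.MP_cc10d1_gt.UL.TFUL
import Pool.Agent.P.MP_cc10d1_gt.UL.TCNT
import Pool.Agent.P.MP_cc10d1_gt.UL.THS
import Pool.Agent.P.MP_cc10d1_gt.UL.THF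
import Pool.Agent.P.MP_cc10d1_gt.UL.THD
import Pool.Agent.P.MP_cc10d1_gt.UL.TENV
import Pool.Agent.P.MP_cc10d1_gt.UL.TRL
import Pool.Agent.P.MP_cc10d1_gt.UL.TINV
import Pool.Agent.P.MP_cc10d1_gt.UL.TDSS
import Pool.Agent.P.MP_cc10d1_gt.UL.TRJ
import Pool.Agent.P.MP_cc10d1_gt.UL.TMOM
import Pool.Agent.P.MP_cc10d1_gt.UL.TQAP
import Pool.Agent.P.MP_cc10d1_gt.UL.TEVEN
import Pool.Agent.P.MP_cc10d1_gt.UL.TPAR
import Pool.Agent.P.MP_cc10d1_gt.UL.TBIL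
import Pool.Agent.P.MP_cc10d1_gt.UL.TKAP
import Pool.Agent.P.MP_cc10d1_gt.UL.TADD
import Pool.Agent.P.MP_cc10d1_gt.UL.TDIM
import Pool.Agent.P.MP_cc10d1_gt.UL.TSG
import Pool.Agent.P.MP_cc10d1_gt.UL.TLADM
import Pool.Agent.P.MP_cc10d1_gt.UL.TAB
import Pool.Agent.P.MP_cc10d1_gt.UL.TIND
import Pool.Agent.P.MP_cc10d1_gt.UL.TCONV
import Pool.Agent.P.MP_cc10d1_gt.UL.TLAW
import Pool.Agent.P.MP_cc10d1_gt.UL.JConv

/-! All steps together. -/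

set_option autoImplicit false

namespace Pool.Agent.P.MP_cc10d1_gt.UL

theorem al_ORB : S_ORB := p_ORB
theorem al_REP : S_REP := p_REP
theorem al_SCH : S_SCH := p_SCH
theorem al_FIN : S_FIN := p_FIN al_SCH
theorem al_BASE : S_BASE := p_BASE al_ORB al_REP al_FIN
theorem al_RG : S_RG := p_RG
theorem al_ALL : S_ALL := p_ALL al_RG
theorem al_AP : S_AP := p_AP
theorem al_CST : S_CST := p_CST al_AP
theorem al_POW : S_POW := p_POW al_ALL al_CST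
theorem al_TR : S_TR := p_TR al_BASE al_AP
theorem al_MB : S_MB := p_MB
theorem al_HOL : S_HOL := p_HOL
theorem al_COV : S_COV := p_COV al_HOL al_POW al_CST al_TR
theorem al_DEC : S_DEC := p_DEC al_POW al_CST al_TR
theorem al_QUO : S_QUO := p_QUO
theorem al_CASE : S_CASE := p_CASE al_QUO
theorem al_NB : S_NB := p_NB al_SCH
theorem al_NBU : S_NBU := p_NBU al_NB
theorem al_BD : S_BD := p_BD al_HOL
theorem al_GOU : S_GOU := p_GOU
theorem al_NFU : S_NFU := p_NFU al_GOU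
theorem al_NAC : S_NAC := p_NAC al_BD al_NFU
theorem al_POIS : S_POIS := p_POIS
theorem al_NA : S_NA := p_NA al_AP al_POW al_CST al_MB al_NBU al_NAC al_POIS
theorem al_FLD : S_FLD := p_FLD
theorem al_ABL : S_ABL := p_ABL al_HOL al_FLD
theorem al_FUN : S_FUN := p_FUN
theorem al_SEC : S_SEC := p_SEC
theorem al_FUL : S_FUL := p_FUL al_FUN al_SEC
theorem al_CNT : S_CNT := p_CNT al_FUL
theorem al_HS : S_HS := p_HS
theorem al_HF : S_HF := p_HF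
theorem al_HD : S_HD := p_HD
theorem al_ENV : S_ENV := p_ENV al_FIN al_HS al_HF al_HD
theorem al_RL : S_RL := p_RL
theorem al_INV : S_INV := p_INV
theorem al_DSS : S_DSS := p_DSS al_INV
theorem al_RJ : S_RJ := p_RJ al_RL
theorem al_MOM : S_MOM := p_MOM al_ENV al_RL al_INV al_DSS al_RJ
theorem al_QAP : S_QAP := p_QAP
theorem al_EVEN : S_EVEN := p_EVEN
theorem al_PAR : S_PAR := p_PAR al_EVEN
theorem al_BIL : S_BIL := p_BIL
theorem al_KAP : S_KAP := p_KAP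
theorem al_ADD : S_ADD := p_ADD al_RL al_INV al_BIL al_KAP al_PAR
theorem al_DIM : S_DIM := p_DIM
theorem al_SG : S_SG := p_SG al_ADD al_DIM
theorem al_LADM : S_LADM := p_LADM al_AP al_POW al_MB al_CNT al_MOM al_QAP al_SG
theorem al_AB : S_AB := p_AB al_POW al_CST al_TR al_ABL al_LADM
theorem al_IND : S_IND := p_IND al_CST al_COV al_DEC al_CASE al_NA al_AB
theorem al_CONV : S_CONV := p_CONV al_BASE al_RG al_ALL al_POW al_CST al_TR al_IND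
theorem al_LAW : S_LAW := p_LAW

end Pool.Agent.P.MP_cc10d1_gt.UL
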