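import Pool.Agent.P.MP_cc10d1_gt.R.Clau
import Pool.Agent.P.MP_cc10d1_gt.R.QS

/-! The frame for the universal limit law: the filter, weights, sign systems, counts. -/

set_option autoImplicit false

namespace Pool.Agent.P.MP_cc10d1_gt.UL

open Finset Filter Topology T R Quandles Rack

/-! ### The filter -/

/-- Number of strands, event, length. -/
structure Ix where
  n : ℕ
  E : Br n → Prop
  l : ℕ

/-- First the length tends to infinity, then the number of strands, uniformly in the event. -/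
def FF : Filter Ix where
  sets := {s | ∃ n0, ∀ n, n0 ≤ n → ∀ E, Ev n E → ∀ᶠ l in atTop, (⟨n, E, l⟩ : Ix) ∈ s}
  univ_sets := ⟨0, fun _ _ _ _ => Eventually.of_forall fun _ => trivial⟩
  sets_of_superset := fun ⟨n0, h⟩ hs => ⟨n0, fun n hn E hE => (h n hn E hE).mono fun _ a => hs a⟩
  inter_sets := fun ⟨n0, h⟩ ⟨n1, h'⟩ => ⟨n0 + n1, fun n hn E hE =>
    (h n (by omega) E hE).and (h' n (by omega) E hE)⟩

theorem ev_FF {p : Ix → Prop} : (∀ᶠ i in FF, p i) ↔
    ∃ n0, ∀ n, n0 ≤ n → ∀ E, Ev n E → ∀ᶠ l in atTop, p ⟨n, E, l⟩ := Iff.rfl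

theorem ev_Ev : ∀ᶠ i in FF, Ev i.n i.E :=
  ev_FF.2 ⟨0, fun _ _ _ h => Eventually.of_forall fun _ => h⟩

/-- The closure of the braid is a knot. -/
def Kn {n : ℕ} (b : Br n) : Prop := ∀ i j, (pm n b).SameCycle i j

abbrev Fn : Type := ∀ n, Br n → ℝ

/-- The conditional mean as a function of the index. -/
noncomputable def em (F : Fn) (i : Ix) : ℝ := bm (i.n + 2 * i.l) i.E (F i.n)

theorem em_smul (c : ℝ) (F : Fn) (i : Ix) : em (c • F) i = c * em F i := by
  simp only [em, bm, Pi.smul_apply, smul_eq_mul, mul_left_comm _ c, Lam_mul, mul_div_assoc]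

theorem em_sub (F G : Fn) (i : Ix) : em (F - G) i = em F i - em G i := by
  simp only [em, bm, Pi.sub_apply, mul_sub, Lam_sub, sub_div]

theorem em_zero (i : Ix) : em 0 i = 0 := by simpa using em_smul 0 0 i

theorem em_add (F G : Fn) (i : Ix) : em (F + G) i = em F i + em G i := by
  rw [← sub_eq_iff_eq_add, ← em_sub, add_sub_cancel_right]

theorem em_mono {F G : Fn} (h : ∀ n b, Kn b → F n b ≤ G n b) : ∀ᶠ i in FF, em F i ≤ em G i :=
  ev_Ev.mono fun _ hi => bm_mono _ fun b hb => h _ b (hi.knot b hb)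

theorem tendsto_of_lim {F : Fn} {m : ℝ}
    (h : ∃ n0, ∀ n, n0 ≤ n → ∀ E, Ev n E → Lim E (F n) m) : Tendsto (em F) FF (𝓝 m) :=
  fun _ hs => h.imp fun _ h n hn E hE => h n hn E hE hs

/-- The functions whose conditional means converge. -/
def Good : Submodule ℝ Fn where
  carrier := {F | ∃ m, Tendsto (em F) FF (𝓝 m)}
  zero_mem' := ⟨0, tendsto_const_nhds.congr fun i => (em_zero i).symm⟩
  add_mem' := fun ⟨_, h⟩ ⟨_, h'⟩ => ⟨_, (h.add h').congr fun i => (em_add _ _ i).symm⟩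
  smul_mem' := fun c _ ⟨_, h⟩ => ⟨_, (h.const_mul c).congr fun i => (em_smul _ _ i).symm⟩

theorem good_congr {F G : Fn} (h : ∀ n b, Kn b → F n b = G n b) (hF : F ∈ Good) : G ∈ Good :=
  hF.imp fun _ hF => hF.congr' (((em_mono fun n b hb => (h n b hb).le).and
    (em_mono fun n b hb => (h n b hb).ge)).mono fun _ a => le_antisymm a.1 a.2)

theorem good_bdd {F : Fn} (hF : F ∈ Good) : ∃ C : ℝ, ∀ᶠ i in FF, em F i ≤ C :=
  hF.elim fun m h => ⟨m + 1, (h.eventually (gt_mem_nhds (lt_add_one m))).mono fun _ => le_of_lt⟩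

theorem good_of_approx {F : Fn}
    (h : ∀ ε > 0, ∃ G ∈ Good, ∀ᶠ i in FF, |em F i - em G i| ≤ ε) : F ∈ Good := by
  rcases FF.eq_or_neBot with e | _
  · exact ⟨0, by rw [e]; exact tendsto_bot⟩
  refine cauchy_map_iff_exists_tendsto.1 (Metric.cauchy_iff.2 ⟨inferInstance, fun ε hε => ?_⟩)
  obtain ⟨G, ⟨m, hG⟩, h1⟩ := h (ε / 4) (by positivity)
  refine ⟨Metric.ball m (ε / 2), ?_, fun x hx y hy => ?_⟩
  · rw [Filter.mem_map]
    filter_upwards [h1, hG.eventually (Metric.ball_mem_nhds m (by positivity : 0 < ε / 4))]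
      with i a1 a2
    rw [Real.dist_eq] at a2
    rw [Set.mem_preimage, Metric.mem_ball, Real.dist_eq]
    linarith [abs_sub_le (em F i) (em G i) m]
  · rw [Metric.mem_ball] at hx hy
    linarith [dist_triangle_right x y m]

/-! ### Weights -/

abbrev Wt (Z : Type) : Type := ∀ n, Br n → (Fin (n + 1) → Z) → ℝ

abbrev Nt (Z : Type) : Type := ∀ n, Br n → (Fin (n + 1) → Z) → ℕ

section wt
variable {Z Y X : Type}

/-- Pull-back of weights. -/
def pb (f : Z → Y) : Wt Y →ₐ[ℝ] Wt Z where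
  toFun w n b x := w n b (f ∘ x)
  map_one' := rfl
  map_mul' _ _ := rfl
  map_zero' := rfl
  map_add' _ _ := rfl
  commutes' _ := rfl

theorem pb_apply (f : Z → Y) (w : Wt Y) (n : ℕ) (b : Br n) (x : Fin (n + 1) → Z) :
    pb f w n b x = w n b (f ∘ x) := rfl
theorem pb_pb (f : Z → Y) (g : Y → X) (w : Wt X) : pb f (pb g w) = pb (g ∘ f) w := rfl
theorem pb_id (w : Wt Z) : pb id w = w := rfl

def Bd (w : Wt Z) : Prop := ∀ n b x, |w n b x| ≤ 1

theorem Bd.one : Bd (1 : Wt Z) := fun _ _ _ => abs_one.le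
theorem Bd.pb {w : Wt Y} (h : Bd w) (f : Z → Y) : Bd (pb f w) := fun _ _ _ => h _ _ _
theorem Bd.mul {w w' : Wt Z} (h : Bd w) (h' : Bd w') : Bd (w * w') := fun n b x =>
  (abs_mul _ _).trans_le (mul_le_one₀ (h n b x) (abs_nonneg _) (h' n b x))

/-- A count as a weight. -/
def cw (a : Nt Z) : Wt Z := fun n b x => a n b x

/-- The indicator of a property. -/
noncomputable def iw (P : ∀ n, Br n → (Fin (n + 1) → Z) → Prop) : Wt Z :=
  fun n b x => ind (P n b) x

theorem bd_iw (P : ∀ n, Br n → (Fin (n + 1) → Z) → Prop) : Bd (iw P) := fun _ _ _ =>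
  abs_le.2 ⟨neg_one_lt_zero.le.trans (ind_nonneg _ _), ind_le _ _⟩

theorem iw_pos {P : ∀ n, Br n → (Fin (n + 1) → Z) → Prop} {n b x} (h : P n b x) :
    iw P n b x = 1 := ind_pos h
theorem iw_neg {P : ∀ n, Br n → (Fin (n + 1) → Z) → Prop} {n b x} (h : ¬ P n b x) :
    iw P n b x = 0 := ind_neg h

theorem iw_apply (P : ∀ n, Br n → (Fin (n + 1) → Z) → Prop) (n : ℕ) (b : Br n)
    (x : Fin (n + 1) → Z) [Decidable (P n b x)] : iw P n b x = if P n b x then 1 else 0 := by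
  split_ifs with h
  exacts [iw_pos h, iw_neg h]

/-- The indicator of a value of a count. -/
noncomputable def eqw (a : Nt Z) (k : ℕ) : Wt Z := iw fun n b x => a n b x = k

theorem eqw_apply (a : Nt Z) (k n : ℕ) (b : Br n) (x : Fin (n + 1) → Z) :
    eqw a k n b x = if a n b x = k then 1 else 0 := iw_apply _ _ _ _

/-- A polynomial in a weight. -/
noncomputable def pw (P : Polynomial ℝ) (w : Wt Z) : Wt Z := fun n b x => P.eval (w n b x)

variable [Quandle Z] [Quandle Y] [Quandle X]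

/-- The indicator of the full tuples. -/
noncomputable def full (Z : Type) [Quandle Z] : Wt Z := iw fun _ _ x => TFull x

/-- The fixed tuples. -/
noncomputable def Fix (Z : Type) [Quandle Z] [Finite Z] {n : ℕ} (b : Br n) :
    Finset (Fin (n + 1) → Z) := (Set.toFinite {x | rho Z n b x = x}).toFinset

theorem mem_Fix [Finite Z] {n : ℕ} {b : Br n} {x : Fin (n + 1) → Z} :
    x ∈ Fix Z b ↔ rho Z n b x = x := Set.Finite.mem_toFinset _

/-- The sum over all fixed tuples. -/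
noncomputable def sa (Z : Type) [Quandle Z] [Finite Z] : Wt Z →ₗ[ℝ] Fn where
  toFun w n b := ∑ x ∈ Fix Z b, w n b x
  map_add' _ _ := funext fun _ => funext fun _ => sum_add_distrib
  map_smul' _ _ := funext fun _ => funext fun _ => (mul_sum _ _ _).symm

theorem sa_apply [Finite Z] (w : Wt Z) (n : ℕ) (b : Br n) :
    sa Z w n b = ∑ x ∈ Fix Z b, w n b x := rfl

/-- The sum over the full fixed tuples. -/
noncomputable def sf (Z : Type) [Quandle Z] [Finite Z] (w : Wt Z) : Fn := sa Z (full Z * w)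

theorem sf_apply [Finite Z] (w : Wt Z) (n : ℕ) (b : Br n) :
    sf Z w n b = ∑ x ∈ Fix Z b, ind TFull x * w n b x := rfl

theorem sf_add [Finite Z] (w w' : Wt Z) : sf Z (w + w') = sf Z w + sf Z w' := by
  rw [sf, mul_add, map_add]; rfl

theorem sf_smul [Finite Z] (c : ℝ) (w : Wt Z) : sf Z (c • w) = c • sf Z w := by
  rw [sf, mul_smul_comm, map_smul]; rfl

theorem sf_mono [Finite Z] {w w' : Wt Z} {n : ℕ} {b : Br n}
    (h : ∀ x, rho Z n b x = x → TFull x → w n b x ≤ w' n b x) : sf Z w n b ≤ sf Z w' n b :=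
  sum_le_sum fun x hx => by
    change ind TFull x * _ ≤ ind TFull x * _
    by_cases hf : TFull x
    · rw [ind_pos hf, one_mul, one_mul]; exact h x (mem_Fix.1 hx) hf
    · rw [ind_neg hf, zero_mul, zero_mul]

theorem fix_map {f : Z → Y} (h : IsHom f) {n : ℕ} {b : Br n} {x : Fin (n + 1) → Z}
    (hx : rho Z n b x = x) : rho Y n b (f ∘ x) = f ∘ x := (rho_map h b x).trans (by rw [hx])

theorem full_map {ι : Type} {f : Z → Y} (h : IsHom f) (hs : Function.Surjective f) {x : ι → Z}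
    (hx : TFull x) : TFull (f ∘ x) := fun a b => by
  obtain ⟨a, rfl⟩ := hs a
  obtain ⟨b, rfl⟩ := hs b
  obtain ⟨φ, rfl⟩ := hx a b
  exact ⟨φ, hol_map h x φ a⟩

theorem surj_of_full {ι : Type} {f : Z → Y} (h : IsHom f) {x : ι → Z} (i : ι)
    (hx : TFull (f ∘ x)) : Function.Surjective f := fun b => by
  obtain ⟨φ, e⟩ := hx (f (x i)) b
  exact ⟨_, (hol_map h x φ _).symm.trans e⟩

/-- The weighted number of fixed lifts. -/
noncomputable def cnt [Finite Z] (p : Z → Y) (g : Wt Z) : Wt Y :=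
  fun n b y => ∑ x ∈ Fix Z b, ind (fun x => p ∘ x = y) x * g n b x

/-- The number of fixed lifts. -/
noncomputable def na (p : Z → Y) : Nt Y :=
  fun n b y => Nat.card {x // rho Z n b x = x ∧ p ∘ x = y}

/-- The number of full fixed lifts. -/
noncomputable def nf (p : Z → Y) : Nt Y :=
  fun n b y => Nat.card {x // (rho Z n b x = x ∧ p ∘ x = y) ∧ TFull x}

omit [Quandle Y] in
theorem cnt_iw [Finite Z] (p : Z → Y) (P : ∀ n, Br n → (Fin (n + 1) → Z) → Prop) (n : ℕ)
    (b : Br n) (y : Fin (n + 1) → Y) : cnt p (iw P) n b y =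
      Nat.card {x // (rho Z n b x = x ∧ p ∘ x = y) ∧ P n b x} := by
  classical
  rw [Nat.subtype_card ((Fix Z b).filter fun x => p ∘ x = y ∧ P n b x)
    fun x => by rw [mem_filter, mem_Fix, and_assoc], card_filter, Nat.cast_sum]
  refine sum_congr rfl fun x _ => ?_
  by_cases h1 : p ∘ x = y <;> by_cases h2 : P n b x <;> simp [iw, ind, h1, h2]

omit [Quandle Y] in
theorem cw_nf [Finite Z] (p : Z → Y) : cw (nf p) = cnt p (full Z) :=
  funext fun n => funext fun b => funext fun y => (cnt_iw p (fun _ _ x => TFull x) n b y).symm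

omit [Quandle Y] in
theorem cw_na [Finite Z] (p : Z → Y) : cw (na p) = cnt p 1 := by
  funext n b y
  have : (1 : Wt Z) = iw fun _ _ _ => True := by funext _ _ _; exact (iw_pos trivial).symm
  rw [this, cnt_iw]
  simp only [and_true, cw, na]

end wt

/-! ### Sign systems -/

/-- Adding a strand. -/
def up (n : ℕ) : Br n →* Br (n + 1) :=
  mkHom (fun i => sg i.castSucc) (fun _ _ h => sg_far h) fun _ _ h => sg_braid h

theorem up_sg {n : ℕ} (i : Fin n) : up n (sg i) = sg i.castSucc := mkHom_sg _ _ _ _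

theorem up_toBr {n : ℕ} (w : Word n) :
    up n (toBr w) = toBr (w.map fun c => (c.1.castSucc, c.2)) := by
  induction w with
  | nil => exact map_one _
  | cons c w ih =>
    rw [List.map_cons, toBr_cons, toBr_cons, map_mul, ih]
    obtain ⟨i, _ | _⟩ := c
    · rw [ltr_false, ltr_false, map_inv, up_sg]
    · rw [ltr_true, ltr_true, up_sg]

theorem rho_up {Z : Type} [Quandle Z] {n : ℕ} (g : Br n) (x : Fin (n + 1) → Z) (z : Z) :
    rho Z (n + 1) (up n g) (Fin.snoc x z) = Fin.snoc (rho Z n g x) z := by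
  obtain ⟨w, e⟩ := toBr_surj g⁻¹
  obtain rfl : g = (toBr w)⁻¹ := by rw [e, inv_inv]
  rw [map_inv, up_toBr, rho_toBr_inv, rho_toBr_inv]
  obtain ⟨h1, h2⟩ := act_up w (Fin.snoc x z : Fin (n + 2) → Z)
  rw [Fin.snoc_comp_castSucc] at h1
  funext q
  induction q using Fin.lastCases with
  | last => rw [h2, Fin.snoc_last, Fin.snoc_last]
  | cast q => rw [Fin.snoc_castSucc]; exact congrFun h1 q

/-- Compatible characters of the stabilisers. -/
structure Sgn (Z : Type) [Quandle Z] where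
  χ : ∀ n, Br n → (Fin (n + 1) → Z) → ℤˣ
  mul : ∀ n g h x, rho Z n g x = x → rho Z n h x = x → χ n (g * h) x = χ n g x * χ n h x
  conj : ∀ n g h x, rho Z n g x = x → χ n (h * g * h⁻¹) (rho Z n h x) = χ n g x
  gen : ∀ n (i : Fin n) x, x i.castSucc = x i.succ → χ n (sg i) x = 1
  up : ∀ n g x z, rho Z n g x = x → χ (n + 1) (up n g) (Fin.snoc x z) = χ n g x
  fin : ∀ n, ∃ N : Subgroup (Br n), N.Normal ∧ N.FiniteIndex ∧
    ∀ g, ∀ c ∈ N, ∀ x, χ n (g * c) x = χ n g x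

section sgn
variable {Z Y : Type} [Quandle Z] [Quandle Y]

def Sgn.w (s : Sgn Z) : Wt Z := fun n b x => ((s.χ n b x : ℤ) : ℝ)

theorem Sgn.abs (s : Sgn Z) (n : ℕ) (b : Br n) (x : Fin (n + 1) → Z) : |s.w n b x| = 1 := by
  rcases Int.units_eq_one_or (s.χ n b x) with h | h <;> simp [Sgn.w, h]

theorem Sgn.bd (s : Sgn Z) : Bd s.w := fun n b x => (s.abs n b x).le

def Sgn.one (Z : Type) [Quandle Z] : Sgn Z where
  χ _ _ _ := 1
  mul _ _ _ _ _ _ := rfl
  conj _ _ _ _ _ := rfl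
  gen _ _ _ _ := rfl
  up _ _ _ _ _ := rfl
  fin _ := ⟨⊤, inferInstance, inferInstance, fun _ _ _ _ => rfl⟩

theorem Sgn.one_w : (Sgn.one Z).w = 1 := by funext _ _ _; simp [Sgn.w, Sgn.one]

def Sgn.prod (s t : Sgn Z) : Sgn Z where
  χ n g x := s.χ n g x * t.χ n g x
  mul n g h x a b := by rw [s.mul n g h x a b, t.mul n g h x a b, mul_mul_mul_comm]
  conj n g h x a := by rw [s.conj n g h x a, t.conj n g h x a]
  gen n i x a := by rw [s.gen n i x a, t.gen n i x a, mul_one]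
  up n g x z a := by rw [s.up n g x z a, t.up n g x z a]
  fin n := by
    obtain ⟨N, _, _, h⟩ := s.fin n
    obtain ⟨N', _, _, h'⟩ := t.fin n
    exact ⟨N ⊓ N', inferInstance, inferInstance, fun g c hc x => by rw [h g c hc.1, h' g c hc.2]⟩

theorem Sgn.prod_w (s t : Sgn Z) : (s.prod t).w = s.w * t.w := by
  funext _ _ _; simp [Sgn.w, Sgn.prod]

def Sgn.pb (s : Sgn Y) {f : Z → Y} (hf : IsHom f) : Sgn Z where
  χ n g x := s.χ n g (f ∘ x)
  mul n g h x a b := s.mul n g h _ (fix_map hf a) (fix_map hf b)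
  conj n g h x a := by rw [← rho_map hf]; exact s.conj n g h _ (fix_map hf a)
  gen n i x a := s.gen n i _ (congrArg f a)
  up n g x z a := by rw [Fin.comp_snoc]; exact s.up n g _ _ (fix_map hf a)
  fin n := (s.fin n).imp fun _ h => ⟨h.1, h.2.1, fun g c hc x => h.2.2 g c hc _⟩

theorem Sgn.pb_w (s : Sgn Y) {f : Z → Y} (hf : IsHom f) : (s.pb hf).w = UL.pb f s.w := rfl

end sgn

/-! ### Good weights and admissible factors -/

/-- Hereditarily good weights. -/
def HG (Z : Type) [Quandle Z] : Submodule ℝ (Wt Z) where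
  carrier := {w | ∀ (Z' : Type) [Quandle Z'] [Finite Z'] (π : Z' → Z), IsHom π → ∀ s : Sgn Z',
    sf Z' (s.w * pb π w) ∈ Good}
  zero_mem' := fun Z' _ _ π _ s => by
    rw [map_zero, mul_zero, sf, mul_zero, map_zero]; exact zero_mem _
  add_mem' := fun h h' Z' _ _ π hπ s => by
    rw [map_add, mul_add, sf_add]; exact add_mem (h Z' π hπ s) (h' Z' π hπ s)
  smul_mem' := fun c _ h Z' _ _ π hπ s => by
    rw [map_smul, mul_smul_comm, sf_smul]; exact Good.smul_mem c (h Z' π hπ s)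

/-- Admissible factors. -/
def Adm (Y : Type) [Quandle Y] : Submodule ℝ (Wt Y) where
  carrier := {θ | ∀ (Z : Type) [Quandle Z] (φ : Z → Y), IsHom φ → ∀ w ∈ HG Z, Bd w →
    w * pb φ θ ∈ HG Z}
  zero_mem' := fun Z _ φ _ w _ _ => by rw [map_zero, mul_zero]; exact zero_mem _
  add_mem' := fun h h' Z _ φ hφ w a b => by
    rw [map_add, mul_add]; exact add_mem (h Z φ hφ w a b) (h' Z φ hφ w a b)
  smul_mem' := fun c _ h Z _ φ hφ w a b => by
    rw [map_smul, mul_smul_comm]; exact (HG Z).smul_mem c (h Z φ hφ w a b)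

section adm
variable {Z Y : Type} [Quandle Z] [Quandle Y]

theorem isHom_id : IsHom (id : Z → Z) := fun _ _ => rfl

theorem hg_pb {w : Wt Y} (h : w ∈ HG Y) {f : Z → Y} (hf : IsHom f) : pb f w ∈ HG Z :=
  fun Z' _ _ π hπ s => h Z' (f ∘ π) (hf.comp hπ) s

theorem hg_good [Finite Z] {w : Wt Z} (h : w ∈ HG Z) (s : Sgn Z) : sf Z (s.w * w) ∈ Good :=
  h Z id isHom_id s

theorem hg_mul {w θ : Wt Z} (h : w ∈ HG Z) (hb : Bd w) (hθ : θ ∈ Adm Z) : w * θ ∈ HG Z :=
  hθ Z id isHom_id w h hb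

theorem adm_pb {θ : Wt Y} (h : θ ∈ Adm Y) {f : Z → Y} (hf : IsHom f) : pb f θ ∈ Adm Z :=
  fun Z' _ φ hφ w a b => h Z' (f ∘ φ) (hf.comp hφ) w a b

theorem adm_one : (1 : Wt Y) ∈ Adm Y := fun _ _ _ _ w a _ => by rwa [map_one, mul_one]

theorem adm_mul {θ θ' : Wt Y} (h : θ ∈ Adm Y) (hb : Bd θ) (h' : θ' ∈ Adm Y) : θ * θ' ∈ Adm Y :=
  fun Z _ φ hφ w a b => by
    rw [map_mul, ← mul_assoc]
    exact h' Z φ hφ _ (h Z φ hφ w a b) (b.mul (hb.pb φ))

theorem adm_sgn (s : Sgn Y) : s.w ∈ Adm Y := fun Z _ φ hφ w a _ Z' _ _ π hπ t => by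
  have := a Z' π hπ (t.prod (s.pb (hφ.comp hπ)))
  rwa [Sgn.prod_w, mul_assoc, mul_comm _ (pb π w)] at this

theorem adm_congr {θ θ' : Wt Y}
    (e : ∀ n b x, Kn b → rho Y n b x = x → θ n b x = θ' n b x) (h : θ ∈ Adm Y) : θ' ∈ Adm Y :=
  fun Z _ φ hφ w a b Z' _ _ π hπ s => good_congr (fun n c hc => sum_congr rfl fun x hx =>
    congrArg (fun t => ind TFull x * (s.w n c x * (w n c (π ∘ x) * t)))
      (e n c _ hc (fix_map (hφ.comp hπ) (mem_Fix.1 hx)))) (h Z φ hφ w a b Z' π hπ s)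

theorem adm_pw {θ : Wt Y} (h : ∀ j : ℕ, θ ^ j ∈ Adm Y) (P : Polynomial ℝ) : pw P θ ∈ Adm Y := by
  have : pw P θ = ∑ j ∈ range (P.natDegree + 1), P.coeff j • θ ^ j := by
    funext n b x
    simp [pw, Polynomial.eval_eq_sum_range, Finset.sum_apply]
  rw [this]
  exact sum_mem fun j _ => (Adm Y).smul_mem _ (h j)

theorem adm_le {a : Nt Y} (h : ∀ k, eqw a k ∈ Adm Y) (M : ℕ) :
    iw (fun n b x => a n b x ≤ M) ∈ Adm Y := by
  have : iw (fun n b x => a n b x ≤ M) = ∑ k ∈ range (M + 1), eqw a k := by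
    funext n b x
    simp [Finset.sum_apply, eqw_apply, iw_apply]
  rw [this]
  exact sum_mem fun k _ => h k

/-- All values of the number of full fixed lifts are admissible. -/
def IA (p : Z → Y) : Prop := ∀ k, eqw (nf p) k ∈ Adm Y

end adm

end Pool.Agent.P.MP_cc10d1_gt.UL
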