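import Pool.Agent.P.MP_cc10d1_gt.UL.Base

/-! Inner groups, fibre powers, and the linear quandles. -/

set_option autoImplicit false

namespace Pool.Agent.P.MP_cc10d1_gt.UL

open Finset Filter Topology T R Quandles Rack
open scoped commutatorElement

/-- The order of the commutator subgroup of the enveloping group. -/
noncomputable def cA (Q : Type) [Quandle Q] : ℕ := Nat.card (commutator (EnvelGroup Q))

/-! ### Inner groups -/

section inn
variable {Y Y0 Z H : Type} [Quandle Y] [Quandle Y0] [Quandle Z] [Group H]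

/-- `H` is the inner group of `Y`. -/
structure InnD (e : Y → H) (ρ : H →* Equiv.Perm Y) : Prop where
  he : CHom e
  gen : Subgroup.closure (Set.range e) = ⊤
  act : ∀ y, ρ (e y) = sy y
  inj : Function.Injective ρ

theorem InnD.conj {e : Y → H} {ρ : H →* Equiv.Perm Y} (d : InnD e ρ) (h : H) :
    ∀ y, e (ρ h y) = h * e y * h⁻¹ := by
  have hh : h ∈ Subgroup.closure (Set.range e) := d.gen ▸ Subgroup.mem_top h
  induction hh using Subgroup.closure_induction with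
  | mem g hg => obtain ⟨a, rfl⟩ := hg; intro y; rw [d.act]; exact d.he.conj a y
  | one => simp
  | mul g g' _ _ h h' => intro y; rw [map_mul, Equiv.Perm.mul_apply, h, h']; group
  | inv g _ h =>
    intro y
    have := h (ρ g⁻¹ y)
    rw [← Equiv.Perm.mul_apply, ← map_mul, mul_inv_cancel, map_one, Equiv.Perm.one_apply] at this
    rw [this]; group

theorem InnD.aut {e : Y → H} {ρ : H →* Equiv.Perm Y} (d : InnD e ρ) (h : H) (a b : Y) :
    ρ h (a ◃ b) = ρ h a ◃ ρ h b := by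
  rw [← sy_apply, ← sy_apply, ← d.act, ← d.act, d.conj, map_mul, map_mul, map_inv]
  simp

theorem InnD.hol {e : Y → H} {ρ : H →* Equiv.Perm Y} (d : InnD e ρ) {ι : Type} (x : ι → Y)
    (φ : FreeGroup ι) : ρ (FreeGroup.lift (e ∘ x) φ) = hol x φ :=
  DFunLike.congr_fun (FreeGroup.ext_hom (ρ.comp (FreeGroup.lift (e ∘ x))) (T.hol x) fun i => by
    rw [MonoidHom.comp_apply, FreeGroup.lift_apply_of, hol_of]; exact d.act _) φ

/-- `p` is the quotient by a minimal normal subgroup of the inner group that is not central. -/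
structure MinQ (e : Y → H) (ρ : H →* Equiv.Perm Y) (N : Subgroup H) (p : Y → Y0) : Prop where
  inn : InnD e ρ
  cn : Cn Y
  nor : N.Normal
  hom : IsHom p
  sur : Function.Surjective p
  fib : ∀ y y', p y = p y' ↔ ∃ g ∈ N, ρ g y = y'
  min : ∀ M : Subgroup H, M.Normal → M ≤ N → M = ⊥ ∨ M = N
  nc : ∃ g ∈ N, ∃ y, e y * g ≠ g * e y

scoped instance piQ {J : Type} : Quandle (J → Y) where
  act a b i := a i ◃ b i
  self_distrib := funext fun _ => Shelf.self_distrib
  invAct a b i := a i ◃⁻¹ b i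
  left_inv a b := funext fun i => Rack.left_inv (a i) (b i)
  right_inv a b := funext fun i => Rack.right_inv (a i) (b i)
  fix := funext fun _ => Quandle.fix

theorem isHom_eval {J : Type} (i : J) : IsHom fun a : J → Y => a i := fun _ _ => rfl

/-- The fibre power of `p` over the base `Z`. -/
abbrev UQ {p : Y → Y0} {φ : Z → Y0} (hp : IsHom p) (hφ : IsHom φ) (i : ℕ) : Type :=
  SubQ (Q := Z × (Fin i → Y)) ⟨{a | ∀ k, p (a.2 k) = φ a.1}, fun _ ha _ hb =>
    ⟨fun k => (hp _ _).trans ((congrArg₂ _ (ha k) (hb k)).trans (hφ _ _).symm),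
      fun k => (hp.inv _ _).trans ((congrArg₂ _ (ha k) (hb k)).trans (hφ.inv _ _).symm)⟩⟩

/-- The projection to the base. -/
def ub {p : Y → Y0} {φ : Z → Y0} (hp : IsHom p) (hφ : IsHom φ) (i : ℕ) (a : UQ hp hφ i) : Z := a.1.1

theorem isHom_ub {p : Y → Y0} {φ : Z → Y0} (hp : IsHom p) (hφ : IsHom φ) (i : ℕ) :
    IsHom (ub hp hφ i) := fun _ _ => rfl

end inn

/-! ### The affine group -/

@[ext] structure Af (F V : Type) [Field F] [AddCommGroup V] [Module F V] where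
  v : V
  s : V ≃ₗ[F] V

section lin
variable {F V V' : Type} [Field F] [AddCommGroup V] [Module F V] [AddCommGroup V'] [Module F V']

theorem le_mul (s t : V ≃ₗ[F] V) (v : V) : (s * t) v = s (t v) := rfl
theorem le_one (v : V) : (1 : V ≃ₗ[F] V) v = v := rfl
theorem le_inv (s : V ≃ₗ[F] V) (v : V) : s⁻¹ v = s.symm v := rfl

instance : Group (Af F V) where
  mul a b := ⟨a.v + a.s b.v, a.s * b.s⟩
  one := ⟨0, 1⟩
  inv a := ⟨-(a.s⁻¹ a.v), a.s⁻¹⟩
  mul_assoc a b c := Af.ext (by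
    change a.v + a.s b.v + a.s (b.s c.v) = a.v + a.s (b.v + b.s c.v)
    rw [map_add, add_assoc]) (mul_assoc a.s b.s c.s)
  one_mul a := Af.ext (zero_add a.v) (one_mul a.s)
  mul_one a := Af.ext ((congrArg (a.v + ·) (map_zero a.s)).trans (add_zero _)) (mul_one a.s)
  inv_mul_cancel a := Af.ext (neg_add_cancel _) (inv_mul_cancel a.s)

theorem Af.mul_v (a b : Af F V) : (a * b).v = a.v + a.s b.v := rfl
theorem Af.mul_s (a b : Af F V) : (a * b).s = a.s * b.s := rfl
theorem Af.inv_v (a : Af F V) : a⁻¹.v = -(a.s⁻¹ a.v) := rfl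
theorem Af.inv_s (a : Af F V) : a⁻¹.s = a.s⁻¹ := rfl
theorem Af.one_v : (1 : Af F V).v = 0 := rfl
theorem Af.one_s : (1 : Af F V).s = 1 := rfl

/-- The linear part. -/
def Af.lin : Af F V →* (V ≃ₗ[F] V) := MonoidHom.mk' Af.s fun _ _ => rfl

theorem Af.conj_v (a b : Af F V) : (a * b * a⁻¹).v = a.v + a.s b.v - (a.s * b.s * a.s⁻¹) a.v := by
  rw [Af.mul_v, Af.mul_v, Af.mul_s, Af.inv_v, map_neg, ← sub_eq_add_neg]; rfl

/-- A linear action of a quandle. -/
structure Ac (Z F V : Type) [Quandle Z] [Field F] [AddCommGroup V] [Module F V] where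
  s : Z → V ≃ₗ[F] V
  h : CHom s

variable {Z Z' : Type} [Quandle Z] [Quandle Z']

theorem Ac.act (σ : Ac Z F V) (a b : Z) (v : V) : σ.s (a ◃ b) (σ.s a v) = σ.s a (σ.s b v) :=
  DFunLike.congr_fun (σ.h a b) v

/-- The diagonal action on a power. -/
def Ac.pi (σ : Ac Z F V) (J : Type) : Ac Z F (J → V) where
  s z := LinearEquiv.piCongrRight fun _ => σ.s z
  h a b := LinearEquiv.ext fun v => funext fun i => σ.act a b (v i)

theorem Ac.pi_s (σ : Ac Z F V) (J : Type) (z : Z) (v : J → V) (i : J) :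
    (σ.pi J).s z v i = σ.s z (v i) := rfl

/-- The pull-back of an action. -/
def Ac.pb (σ : Ac Z F V) {φ : Z' → Z} (h : IsHom φ) : Ac Z' F V := ⟨σ.s ∘ φ, σ.h.comp h⟩

/-- The split extension. -/
def AQ (_σ : Ac Z F V) : Type := Z × V

instance (σ : Ac Z F V) [Finite Z] [Finite V] : Finite (AQ σ) := inferInstanceAs (Finite (Z × V))

instance (σ : Ac Z F V) : Quandle (AQ σ) where
  act a b := (a.1 ◃ b.1, a.2 + σ.s a.1 b.2 - σ.s (a.1 ◃ b.1) a.2)
  self_distrib := fun {a b c} => Prod.ext Shelf.self_distrib (by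
    have := σ.act (a.1 ◃ b.1) (a.1 ◃ c.1) a.2
    rw [← Shelf.self_distrib] at this
    simp only [map_add, map_sub, ← Shelf.self_distrib (x := a.1), σ.act, this]
    abel)
  invAct a b := (a.1 ◃⁻¹ b.1, (σ.s a.1).symm (b.2 - a.2 + σ.s b.1 a.2))
  left_inv a b := Prod.ext (Rack.left_inv a.1 b.1) (by
    rw [LinearEquiv.symm_apply_eq]; dsimp only; abel)
  right_inv a b := Prod.ext (Rack.right_inv a.1 b.1) (by
    dsimp only; rw [LinearEquiv.apply_symm_apply, Rack.act_invAct_eq]; abel)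
  fix := fun {a} => Prod.ext Quandle.fix (by dsimp only; rw [Quandle.fix, add_sub_cancel_right])

variable (σ : Ac Z F V)

theorem aq_fst (a b : AQ σ) : (a ◃ b).1 = a.1 ◃ b.1 := rfl
theorem aq_snd (a b : AQ σ) : (a ◃ b).2 = a.2 + σ.s a.1 b.2 - σ.s (a.1 ◃ b.1) a.2 := rfl
theorem isHom_aq_fst : IsHom fun a : AQ σ => a.1 := fun _ _ => rfl

/-- The affine map of a point of the split extension. -/
def aff (a : AQ σ) : Af F V := ⟨a.2, σ.s a.1⟩

theorem cHom_aff : CHom (aff σ) := fun a b => Af.ext (sub_add_cancel _ _) (σ.h a.1 b.1)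

theorem aq_ext {a b : AQ σ} (h1 : a.1 = b.1) (h2 : aff σ a = aff σ b) : a = b :=
  Prod.ext h1 (congrArg Af.v h2)

/-- An equivariant additive map induces a homomorphism. -/
theorem isHom_aq {σ' : Ac Z' F V'} {φ : Z → Z'} (hφ : IsHom φ) (f : V →+ V')
    (h : ∀ z v, f (σ.s z v) = σ'.s (φ z) (f v)) :
    IsHom (Q := AQ σ) (R := AQ σ') fun a => (φ a.1, f a.2) := fun a b =>
  Prod.ext (hφ _ _) (by simp only [aq_snd, map_sub, map_add, h, hφ a.1 b.1])

/-- The image of `1 - s z`. -/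
def rg (z : Z) : Submodule F V := LinearMap.range (LinearMap.id - (σ.s z).toLinearMap)

theorem mem_rg {z : Z} {w : V} : w ∈ rg σ z ↔ ∃ v, v - σ.s z v = w := Iff.rfl

theorem cl_rg : Cl {a : AQ σ | a.2 ∈ rg σ a.1} := by
  rintro ⟨z, w⟩ - ⟨z', w'⟩ h
  obtain ⟨v, rfl⟩ : ∃ v, v - σ.s z' v = w' := h
  refine ⟨⟨w + σ.s z v, ?_⟩, ⟨(σ.s z).symm (v - w), ?_⟩⟩
  · change w + σ.s z v - σ.s (z ◃ z') (w + σ.s z v) =
      w + σ.s z (v - σ.s z' v) - σ.s (z ◃ z') w
    rw [map_add, σ.act, map_sub]; abel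
  · change (σ.s z).symm (v - w) - σ.s (z ◃⁻¹ z') ((σ.s z).symm (v - w)) =
      (σ.s z).symm (v - σ.s z' v - w + σ.s z' w)
    rw [LinearEquiv.eq_symm_apply, map_sub (σ.s z), ← σ.act, Rack.act_invAct_eq,
      LinearEquiv.apply_symm_apply, map_sub]
    abel

/-- The parabolic part of the split extension. -/
abbrev LQ : Type := SubQ ⟨_, cl_rg σ⟩

/-- The projection to the base. -/
def lp (a : LQ σ) : Z := a.1.1

theorem isHom_lp : IsHom (lp σ) := fun _ _ => rfl

/-- A point of the parabolic part. -/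
def lq (z : Z) (w : V) (h : w ∈ rg σ z) : LQ σ := ⟨(z, w), h⟩

/-- The zero section. -/
def zs (z : Z) : LQ σ := lq σ z 0 (zero_mem _)

theorem isHom_zs : IsHom (zs σ) := fun a b =>
  Subtype.ext (Prod.ext rfl (by
    change (0 : V) = 0 + σ.s a 0 - σ.s (a ◃ b) 0
    simp))

/-- A tuple in the split extension. -/
def mk {ι : Type} (x : ι → Z) (w : ι → V) : ι → AQ σ := fun i => (x i, w i)

/-- The underlying map of `lam`. -/
def lam0 {n : ℕ} (g : Br n) (x : Fin (n + 1) → Z) (w : Fin (n + 1) → V) : Fin (n + 1) → V :=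
  fun i => (rho (AQ σ) n g (mk σ x w) i).2

theorem lam0_nat {σ' : Ac Z' F V'} {φ : Z → Z'} (hφ : IsHom φ) (f : V →+ V')
    (h : ∀ z v, f (σ.s z v) = σ'.s (φ z) (f v)) {n : ℕ} (g : Br n) (x : Fin (n + 1) → Z)
    (w : Fin (n + 1) → V) : lam0 σ' g (φ ∘ x) (f ∘ w) = f ∘ lam0 σ g x w :=
  funext fun i => congrArg Prod.snd (congrFun (rho_map (isHom_aq σ hφ f h) g (mk σ x w)) i)

/-- The linear action of a braid on the second coordinates. -/
def lam {n : ℕ} (g : Br n) (x : Fin (n + 1) → Z) :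
    (Fin (n + 1) → V) →ₗ[F] (Fin (n + 1) → V) where
  toFun := lam0 σ g x
  map_add' w w' := by
    let u : Fin (n + 1) → Bool → V := fun i c => cond c (w i) (w' i)
    let e := fun c => Pi.evalAddMonoidHom (fun _ : Bool => V) c
    have h := fun c => lam0_nat (σ.pi Bool) (σ' := σ) isHom_id (e c) (fun _ _ => rfl) g x u
    have h' := lam0_nat (σ.pi Bool) (σ' := σ) isHom_id (e true + e false)
      (fun z v => (map_add (σ.s z) (v true) (v false)).symm) g x u
    exact h'.trans (congrArg₂ (· + ·) (h true).symm (h false).symm)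
  map_smul' c w := lam0_nat σ (σ' := σ) isHom_id (DistribSMul.toAddMonoidHom V c)
    (fun _ _ => (map_smul _ _ _).symm) g x w

theorem rho_mk {n : ℕ} (g : Br n) (x : Fin (n + 1) → Z) (w : Fin (n + 1) → V) :
    rho (AQ σ) n g (mk σ x w) = mk σ (rho Z n g x) (lam σ g x w) :=
  funext fun i => Prod.ext (congrFun (rho_map (isHom_aq_fst σ) g (mk σ x w)) i).symm rfl

theorem lam_mul {n : ℕ} (g h : Br n) (x : Fin (n + 1) → Z) (w : Fin (n + 1) → V) :
    lam σ (g * h) x w = lam σ g (rho Z n h x) (lam σ h x w) := by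
  have := rho_mul g h (mk σ x w)
  rw [rho_mk, rho_mk, rho_mk] at this
  exact funext fun i => (congrArg Prod.snd (congrFun this i) :)

theorem lam_one {n : ℕ} (x : Fin (n + 1) → Z) (w : Fin (n + 1) → V) : lam σ 1 x w = w :=
  funext fun i => congrArg Prod.snd (congrFun (rho_one (mk σ x w)) i)

/-- The parabolic tuples over `x`. -/
def Wx {ι : Type} (x : ι → Z) : Submodule F (ι → V) := Submodule.pi Set.univ fun i => rg σ (x i)

theorem mem_Wx {ι : Type} {x : ι → Z} {w : ι → V} : w ∈ Wx σ x ↔ ∀ i, w i ∈ rg σ (x i) :=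
  ⟨fun h i => h i trivial, fun h i _ => h i⟩

/-- A tuple in the parabolic part. -/
def mkL {ι : Type} (x : ι → Z) (w : Wx σ x) : ι → LQ σ := fun i => lq σ (x i) (w.1 i) (w.2 i trivial)

theorem val_rho_mkL {n : ℕ} (g : Br n) (x : Fin (n + 1) → Z) (w : Wx σ x) (i : Fin (n + 1)) :
    (rho (LQ σ) n g (mkL σ x w) i).1 = (rho Z n g x i, lam σ g x w.1 i) :=
  (congrFun (rho_map (isHom_val _) g (mkL σ x w)) i).symm.trans (congrFun (rho_mk σ g x w.1) i)

theorem lam_mem {n : ℕ} (g : Br n) {x : Fin (n + 1) → Z} {w : Fin (n + 1) → V} (h : w ∈ Wx σ x) :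
    lam σ g x w ∈ Wx σ (rho Z n g x) := fun i _ => by
  have := (rho (LQ σ) n g (mkL σ x ⟨w, h⟩) i).2
  rwa [val_rho_mkL] at this

/-- The fixed parabolic tuples. -/
def Fx {n : ℕ} (g : Br n) (x : Fin (n + 1) → Z) : Submodule F (Fin (n + 1) → V) :=
  Wx σ x ⊓ LinearMap.eqLocus (lam σ g x) LinearMap.id

theorem mem_Fx {n : ℕ} {g : Br n} {x : Fin (n + 1) → Z} {w : Fin (n + 1) → V} :
    w ∈ Fx σ g x ↔ w ∈ Wx σ x ∧ lam σ g x w = w := Iff.rfl

theorem fix_mkL {n : ℕ} {g : Br n} {x : Fin (n + 1) → Z} (hx : rho Z n g x = x) (w : Wx σ x) :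
    rho (LQ σ) n g (mkL σ x w) = mkL σ x w ↔ lam σ g x w.1 = w.1 :=
  ⟨fun h => funext fun i => congrArg Prod.snd
      ((val_rho_mkL σ g x w i).symm.trans (congrArg Subtype.val (congrFun h i))),
    fun h => funext fun i => Subtype.ext ((val_rho_mkL σ g x w i).trans (by rw [hx, h]; rfl))⟩

theorem na_lp {n : ℕ} {g : Br n} {x : Fin (n + 1) → Z} (hx : rho Z n g x = x) :
    na (lp σ) n g x = Nat.card (Fx σ g x) := by
  symm
  refine Nat.card_eq_of_bijective
    (fun w => ⟨mkL σ x ⟨w.1, w.2.1⟩, (fix_mkL σ hx _).2 w.2.2, rfl⟩) ⟨fun w w' e => ?_, ?_⟩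
  · exact Subtype.ext (funext fun i => congrArg (fun u => (u.1 i).1.2) e)
  · rintro ⟨u, h, rfl⟩
    exact ⟨⟨fun i => (u i).1.2, fun i _ => (u i).2,
      (fix_mkL σ hx ⟨fun i => (u i).1.2, fun i _ => (u i).2⟩).1 h⟩, rfl⟩

theorem fx_pb {φ : Z' → Z} (h : IsHom φ) {n : ℕ} (g : Br n) (x : Fin (n + 1) → Z') :
    Fx (σ.pb h) g x = Fx σ g (φ ∘ x) := by
  have : lam (σ.pb h) g x = lam σ g (φ ∘ x) := LinearMap.ext fun w =>
    (lam0_nat (σ.pb h) (σ' := σ) h (AddMonoidHom.id V) (fun _ _ => rfl) g x w).symm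
  rw [Fx, this]; rfl

/-- The sections of the parabolic part. -/
def Sec : Submodule F (Z → V) where
  carrier := {t | (∀ z, t z ∈ rg σ z) ∧ ∀ a b, t (a ◃ b) = t a + σ.s a (t b) - σ.s (a ◃ b) (t a)}
  zero_mem' := ⟨fun _ => zero_mem _, fun _ _ => by simp⟩
  add_mem' := fun h h' => ⟨fun z => add_mem (h.1 z) (h'.1 z), fun a b => by
    simp only [Pi.add_apply, h.2, h'.2, map_add]; abel⟩
  smul_mem' := fun c _ h => ⟨fun z => Submodule.smul_mem _ c (h.1 z), fun a b => by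
    simp only [Pi.smul_apply, h.2, map_smul, smul_add, smul_sub]⟩

/-- The sections of the dual module. -/
def DS : Type := {μ : Z → V →+ U // (∀ z v, σ.s z v = v → μ z v = 0) ∧
  ∀ a b v, μ (a ◃ b) v = μ a v + μ b ((σ.s a).symm v) - μ a ((σ.s (a ◃ b)).symm v)}

/-- Invariant forms. -/
def Inv (β : V →+ V →+ U) : Prop := ∀ z v w, β (σ.s z v) (σ.s z w) = β v w

/-- The module is simple, not trivial, and `F` is its ring of endomorphisms. -/
structure Irr : Prop where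
  nt : ∃ z v, σ.s z v ≠ v
  sim : ∀ M : AddSubgroup V, (∀ z, ∀ v ∈ M, σ.s z v ∈ M) → M = ⊥ ∨ M = ⊤
  sch : ∀ f : V →+ V, (∀ z v, f (σ.s z v) = σ.s z (f v)) → ∃ c : F, ∀ v, f v = c • v

/-- An extension of Heisenberg type. -/
structure Hs (G : Type) [Group G] where
  e : LQ σ → G
  R : Subgroup G
  π : G → V
  he : CHom e
  add : ∀ r ∈ R, ∀ r' ∈ R, π (r * r') = π r + π r'
  sur : ∀ v, ∃ r ∈ R, π r = v
  act : ∀ r ∈ R, ∀ z, r * e (zs σ z) * r⁻¹ = e (lq σ z (π r - σ.s z (π r)) ⟨π r, rfl⟩)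
  nor : ∀ z, ∀ r ∈ R, e (zs σ z) * r * (e (zs σ z))⁻¹ ∈ R ∧
    π (e (zs σ z) * r * (e (zs σ z))⁻¹) = σ.s z (π r)
  cen : ∀ c ∈ ⁅R, R⁆, ∀ g, Commute c g

/-- The form is a character of the commutator in an extension of Heisenberg type. -/
def Rl (ω : V →+ V →+ U) : Prop := ∃ (G : Type) (_ : Group G) (h : Hs σ G) (ψ : G → U),
  (∀ c ∈ ⁅h.R, h.R⁆, ∀ c' ∈ ⁅h.R, h.R⁆, ψ (c * c') = ψ c + ψ c') ∧
    ∀ r ∈ h.R, ∀ r' ∈ h.R, ψ ⁅r, r'⁆ = ω (h.π r) (h.π r')

end lin

/-- The sign of the exponent sum. -/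
def eps (n : ℕ) : Br n →* ℤˣ := mkHom (fun _ => -1) (fun _ _ _ => rfl) fun _ _ _ => rfl

theorem eps_sg {n : ℕ} (i : Fin n) : eps n (sg i) = -1 := mkHom_sg _ _ _ _

theorem eps_up {n : ℕ} (g : Br n) : eps (n + 1) (up n g) = eps n g :=
  DFunLike.congr_fun (PresentedGroup.ext (φ := (eps (n + 1)).comp (up n)) (ψ := eps n) fun i =>
    (congrArg (eps (n + 1)) (up_sg i)).trans ((eps_sg _).trans (eps_sg i).symm)) g

theorem eps_knot {n : ℕ} {b : Br n} (h : Kn b) : eps n b = (-1) ^ n := by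
  obtain ⟨w, rfl⟩ := toBr_surj b
  have h1 : eps n (toBr w) = (-1) ^ w.length := by
    clear h
    induction w with
    | nil => exact map_one _
    | cons c w ih =>
      rw [toBr_cons, map_mul, ih, List.length_cons, pow_succ']
      obtain ⟨i, _ | _⟩ := c
      · rw [ltr_false, map_inv, eps_sg]; rfl
      · rw [ltr_true, eps_sg]
  have h2 := STABWaux.len_par (w := w) fun i j => by rw [← pm_toBr]; exact h i j
  rw [h1, Int.units_pow_eq_pow_mod_two, h2, ← Int.units_pow_eq_pow_mod_two]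

end Pool.Agent.P.MP_cc10d1_gt.UL
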