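import Pool.Agent.P.MP_cc10d1_gt.UL.BaseL

/-! The statements of all steps. -/

set_option autoImplicit false

namespace Pool.Agent.P.MP_cc10d1_gt.UL

open Finset Filter Topology T R Quandles Rack
open scoped commutatorElement

/-! ### The base case -/

-- deps:
def S_ORB : Prop :=
  ∀ (Q : Type) [Quandle Q] [Finite Q] (s : Sgn Q), ∃ n0 : ℕ, ∀ n, n0 ≤ n →
    ∀ E : Br n → Prop, Ev n E → ∀ x0 : Fin (n + 1) → Q, TConn x0 →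
      (∃ g, rho Q n g x0 = x0 ∧ s.χ n g x0 ≠ 1) →
      Lim E (fun b => ∑ x ∈ Fix Q b, ind (Orb x0) x * s.w n b x) 0

-- deps:
def S_REP : Prop :=
  ∀ (Q : Type) [Quandle Q] [Finite Q], Cn Q → ∀ y0 : Q, ∃ n0 : ℕ, ∀ n, n0 ≤ n →
    (∀ j : commutator (EnvelGroup Q), ∃ x : Fin (n + 1) → Q, TFull x ∧
      pr S.gen (List.ofFn x) = S.gen y0 ^ (n + 1) * j) ∧
    (∀ x : Fin (n + 1) → Q, ∃ j : commutator (EnvelGroup Q),
      pr S.gen (List.ofFn x) = S.gen y0 ^ (n + 1) * j) ∧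
    ∀ x y : Fin (n + 1) → Q, TFull x → TFull y →
      (Orb x y ↔ pr S.gen (List.ofFn x) = pr S.gen (List.ofFn y))

-- deps:
def S_SCH : Prop := ∃ cb : ℕ → ℕ, ∀ (A : Type) [Group A] (C : Subgroup A) (m : ℕ),
  (∀ c ∈ C, ∀ a, Commute c a) → C.index ≠ 0 → C.index ≤ m →
    Finite (commutator A) ∧ Nat.card (commutator A) ≤ cb m

-- deps: SCH
def S_FIN : Prop := ∀ (Q : Type) [Quandle Q] [Finite Q], Finite (commutator (EnvelGroup Q))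

-- deps: ORB REP FIN
def S_BASE : Prop := ∀ (Z : Type) [Quandle Z] [Finite Z] (s : Sgn Z), sf Z s.w ∈ Good

/-! ### The calculus of admissible factors -/

-- deps:
def S_RG : Prop :=
  ∀ (Q : Type) [Quandle Q] [Finite Q] [Fintype (CS Q)] (w : Wt Q) (n : ℕ) (b : Br n), Kn b →
    sa Q w n b = ∑ Y : CS Q, sf (Sub Y) (pb (fun a => a.1) w) n b

-- deps: RG
def S_ALL : Prop :=
  ∀ (Q : Type) [Quandle Q] [Finite Q] (s : Sgn Q), ∀ w ∈ HG Q, sa Q (s.w * w) ∈ Good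

-- deps:
def S_AP : Prop :=
  ∀ (Y : Type) [Quandle Y] (θ : Wt Y),
    (∀ (Z : Type) [Quandle Z] [Finite Z], Cn Z → Nonempty Z → ∀ φ : Z → Y, IsHom φ → ∀ ε > 0,
      ∃ θ' ∈ Adm Z, ∃ η : Wt Z, (∀ n b x, Kn b → rho Z n b x = x → TFull x →
        |θ n b (φ ∘ x) - θ' n b x| ≤ η n b x) ∧ ∀ᶠ i in FF, em (sf Z η) i ≤ ε) → θ ∈ Adm Y

-- deps: AP
def S_CST : Prop :=
  (∀ (Y : Type) [Quandle Y] (θ : Wt Y),
    (∀ (Z : Type) [Quandle Z] [Finite Z] (φ : Z → Y), IsHom φ → ∃ c : ℝ,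
      ∀ n b x, Kn b → rho Z n b x = x → TFull x → θ n b (φ ∘ x) = c) → θ ∈ Adm Y) ∧
  (∀ (Y : Type) [Quandle Y], full Y ∈ Adm Y) ∧
  ∀ (Y X : Type) [Quandle Y] [Quandle X] (f g : Y → X), IsHom f → IsHom g →
    iw (fun _ _ x => f ∘ x = g ∘ x) ∈ Adm Y

-- deps: ALL CST
def S_POW : Prop :=
  ∀ (Z Y : Type) [Quandle Z] [Finite Z] [Quandle Y] (p : Z → Y), IsHom p → ∀ g ∈ Adm Z, Bd g →
    ∀ j : ℕ, cnt p g ^ j ∈ Adm Y

-- deps: BASE AP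
def S_TR : Prop :=
  ∀ (Y : Type) [Quandle Y] (a : Nt Y), (∀ j : ℕ, cw a ^ j ∈ Adm Y) → ∀ η ∈ Adm Y,
    (∀ M : ℕ, ∃ (P : ∀ n, Br n → (Fin (n + 1) → Y) → Prop) (B : ℕ), iw P ∈ Adm Y ∧
      ∀ n b x, Kn b → rho Y n b x = x → (P n b x → a n b x ≤ B) ∧ 0 ≤ η n b x ∧
        (¬ P n b x → M ≤ η n b x)) →
    ∀ k, eqw a k ∈ Adm Y

-- deps:
def S_MB : Prop :=
  ∀ (W Z : Type) [Quandle W] [Finite W] [Quandle Z] [Finite Z] (p : W → Z) (M : ℝ), 0 ≤ M →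
    (Cn W → Nonempty W → (cA W : ℝ) ≤ M) → ∀ᶠ i in FF, em (sf Z (cw (nf p))) i ≤ M + 1

/-! ### The induction -/

-- deps:
def S_HOL : Prop :=
  ∀ (Y : Type) [Quandle Y] [Finite Y] (n : ℕ) (b : Br n), Kn b →
    ∀ f : FreeGroup (Fin (n + 1)) →* Equiv.Perm Y,
      Nat.card {y // rho Y n b y = y ∧ hol y = f} ≤ Nat.card Y

-- deps: HOL POW CST TR
def S_COV : Prop :=
  ∀ (Y Y0 : Type) [Quandle Y] [Finite Y] [Quandle Y0] (p : Y → Y0), IsHom p →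
    (∀ y y', p y = p y' → sy y = sy y') → IA p

-- deps: POW CST TR
def S_DEC : Prop :=
  ∀ (Y Y1 Y0 : Type) [Quandle Y] [Finite Y] [Quandle Y1] [Finite Y1] [Quandle Y0]
    (p2 : Y → Y1) (p1 : Y1 → Y0), IsHom p2 → IsHom p1 → Function.Surjective p2 →
    IA p1 → IA p2 → IA (p1 ∘ p2)

-- deps:
def S_QUO : Prop :=
  ∀ (Y H : Type) [Quandle Y] [Finite Y] [Group H] (e : Y → H) (ρ : H →* Equiv.Perm Y)
    (N : Subgroup H), InnD e ρ → N.Normal →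
    ∃ (Y1 : Type) (_ : Quandle Y1) (_ : Finite Y1) (p : Y → Y1), IsHom p ∧
      Function.Surjective p ∧ ∀ y y', p y = p y' ↔ ∃ g ∈ N, ρ g y = y'

-- deps: QUO
def S_CASE : Prop :=
  ∀ (Y Y0 : Type) [Quandle Y] [Finite Y] [Quandle Y0] [Finite Y0] (p : Y → Y0), IsHom p →
    Function.Surjective p → Cn Y → (∀ y y', p y = p y' → sy y = sy y') ∨
    (∃ (Y1 : Type) (_ : Quandle Y1) (_ : Finite Y1) (p2 : Y → Y1) (p1 : Y1 → Y0), IsHom p2 ∧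
      IsHom p1 ∧ Function.Surjective p2 ∧ Function.Surjective p1 ∧ p = p1 ∘ p2 ∧
      Nat.card Y0 < Nat.card Y1 ∧ Nat.card Y1 < Nat.card Y) ∨
    ∃ (H : Type) (_ : Group H) (_ : Finite H) (e : Y → H) (ρ : H →* Equiv.Perm Y)
      (N : Subgroup H), MinQ e ρ N p ∧ (⁅N, N⁆ = N ∨ ⁅N, N⁆ = ⊥)

/-! ### The non-abelian case -/

-- deps: SCH
def S_NB : Prop :=
  ∀ (T0 H : Type) [Group T0] [Finite T0] [Group H] [Finite H] (N : Subgroup H), ⁅N, N⁆ = N →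
    ∃ c0 c : ℕ, ∀ (i : ℕ) (A : Type) [Group A] (t0 : A →* T0) (t : Fin i → A →* H),
      (∀ a, t0 a = 1 → (∀ k, t k a = 1) → ∀ a', Commute a a') →
      (∀ a, t0 a = 1 → ∀ k, t k a ∈ N) →
      (∀ k, ∀ g ∈ N, ∃ a, t0 a = 1 ∧ t k a = g ∧ ∀ l, l ≠ k → t l a = 1) →
      Finite (commutator A) ∧ Nat.card (commutator A) ≤ c0 * c ^ i

-- deps: NB
def S_NBU : Prop :=
  ∀ (Y Y0 Z H : Type) [Quandle Y] [Finite Y] [Quandle Y0] [Quandle Z] [Finite Z] [Group H]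
    [Finite H] (e : Y → H) (ρ : H →* Equiv.Perm Y) (N : Subgroup H) (p : Y → Y0) (φ : Z → Y0)
    (d : MinQ e ρ N p) (hφ : IsHom φ), Function.Surjective φ → ⁅N, N⁆ = N →
    ∃ c0 c : ℕ, ∀ i, cA (UQ d.hom hφ i) ≤ c0 * c ^ i

-- deps: HOL
def S_BD : Prop :=
  ∀ (Y : Type) [Quandle Y] [Finite Y] (g n : ℕ) (b : Br n), Kn b →
    ∀ K : Subgroup (FreeGroup (Fin (n + 1))), K.Normal → K.index ≠ 0 → K.index ≤ g →
      Nat.card {y // rho Y n b y = y ∧ K ≤ (hol y).ker} ≤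
        Nat.card Y * Nat.card (Equiv.Perm Y) ^ g

-- deps:
def S_GOU : Prop :=
  ∀ (Φ H : Type) [Group Φ] [Group H] (N : Subgroup H), ⁅N, N⁆ = N →
    (∀ M : Subgroup H, M.Normal → M ≤ N → M = ⊥ ∨ M = N) →
    ∀ (i : ℕ) (t : Fin i → Φ →* H) (K0 : Subgroup Φ), K0.Normal →
      (∀ k, Function.Surjective (t k)) → (∀ k l a, t k a ∈ N → t l a ∈ N) →
      (∀ k, ∀ a ∈ K0, t k a ∈ N) → (∀ k, ¬ K0 ≤ (t k).ker) →
      (∀ k l, k ≠ l → ¬ (t k).ker ≤ (t l).ker) →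
      ∀ k, ∀ g ∈ N, ∃ a ∈ K0, t k a = g ∧ ∀ l, l ≠ k → t l a = 1

-- deps: GOU
def S_NFU : Prop :=
  ∀ (Y Y0 Z H : Type) [Quandle Y] [Quandle Y0] [Quandle Z] [Group H] [Finite H]
    (e : Y → H) (ρ : H →* Equiv.Perm Y) (N : Subgroup H) (p : Y → Y0) (φ : Z → Y0)
    (d : MinQ e ρ N p) (hφ : IsHom φ), ⁅N, N⁆ = N → ∀ (n i : ℕ) (u : Fin (n + 1) → UQ d.hom hφ i),
    TFull (ub d.hom hφ i ∘ u) → (∀ k, TFull fun m => (u m).1.2 k) →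
    (∀ k, ∃ a, hol (ub d.hom hφ i ∘ u) a = 1 ∧ FreeGroup.lift (fun m => e ((u m).1.2 k)) a ∈ N ∧
      hol (fun m => (u m).1.2 k) a ≠ 1) →
    (∀ k l, k ≠ l → (hol fun m => (u m).1.2 k).ker ≠ (hol fun m => (u m).1.2 l).ker) → TFull u

-- deps: BD NFU
def S_NAC : Prop :=
  ∀ (Y Y0 Z H : Type) [Quandle Y] [Finite Y] [Quandle Y0] [Quandle Z] [Finite Z] [Group H]
    [Finite H] (e : Y → H) (ρ : H →* Equiv.Perm Y) (N : Subgroup H) (p : Y → Y0) (φ : Z → Y0)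
    (d : MinQ e ρ N p) (hφ : IsHom φ), ⁅N, N⁆ = N → ∃ α : ℕ,
    ∀ n b x, Kn b → rho Z n b x = x → TFull x → ∃ m : ℕ, nf p n b (φ ∘ x) ≤ α * (m + 1) ∧
      ∀ i, m.descFactorial i ≤ nf (ub d.hom hφ i) n b x

-- deps:
def S_POIS : Prop :=
  ∀ (α k : ℕ) (A B ε : ℝ), 0 ≤ A → 0 ≤ B → 0 < ε →
    ∃ (P : Polynomial ℝ) (i j : ℕ) (c c' : ℝ), 0 ≤ c ∧ 0 ≤ c' ∧
      c * (A * B ^ i + 1) + c' * (A * B ^ j + 1) ≤ ε ∧ ∀ a m : ℕ, a ≤ α * (m + 1) →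
        |(if a = k then 1 else 0) - P.eval (a : ℝ)| ≤
          c * m.descFactorial i + c' * m.descFactorial j

-- deps: AP POW CST MB NBU NAC POIS
def S_NA : Prop :=
  ∀ (Y Y0 H : Type) [Quandle Y] [Finite Y] [Quandle Y0] [Group H] [Finite H]
    (e : Y → H) (ρ : H →* Equiv.Perm Y) (N : Subgroup H) (p : Y → Y0),
    MinQ e ρ N p → ⁅N, N⁆ = N → IA p

/-! ### The linear case -/

-- deps:
def S_FLD : Prop :=
  ∀ (Z V : Type) [Quandle Z] [AddCommGroup V] [Finite V] (s : Z → V ≃+ V),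
    (∀ a b v, s (a ◃ b) (s a v) = s a (s b v)) → (∃ z v, s z v ≠ v) →
    (∀ M : AddSubgroup V, (∀ z, ∀ v ∈ M, s z v ∈ M) → M = ⊥ ∨ M = ⊤) →
    ∃ (F : Type) (_ : Field F) (_ : Finite F) (_ : Module F V) (σ : Ac Z F V),
      Irr σ ∧ ∀ z v, σ.s z v = s z v

-- deps: HOL FLD
def S_ABL : Prop :=
  ∀ (Y Y0 H : Type) [Quandle Y] [Finite Y] [Quandle Y0] [Finite Y0] [Group H] [Finite H]
    (e : Y → H) (ρ : H →* Equiv.Perm Y) (N : Subgroup H) (p : Y → Y0),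
    MinQ e ρ N p → ⁅N, N⁆ = ⊥ →
    ∃ (F V : Type) (_ : Field F) (_ : Finite F) (_ : AddCommGroup V) (_ : Finite V)
      (_ : Module F V) (σ : Ac Y0 F V), Irr σ ∧ ∀ n b x, Kn b →
        nf p n b x ≤ Nat.card Y * na (lp σ) n b x

-- deps:
def S_FUN : Prop :=
  ∀ (Z F V : Type) [Quandle Z] [Field F] [AddCommGroup V] [Module F V] (σ : Ac Z F V), Irr σ →
    ∀ (j : ℕ) (M : AddSubgroup (Fin j → V)), (∀ z, ∀ v ∈ M, (σ.pi (Fin j)).s z v ∈ M) → M ≠ ⊤ →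
      ∃ c : Fin j → F, c ≠ 0 ∧ ∀ v ∈ M, ∑ i, c i • v i = 0

-- deps:
def S_SEC : Prop :=
  ∀ (Z F V : Type) [Quandle Z] [Field F] [AddCommGroup V] [Module F V] (σ : Ac Z F V) (n : ℕ)
    (x : Fin (n + 1) → Z) (w : Fin (n + 1) → V), TFull x → w ∈ Wx σ x →
    (∀ a, hol x a = 1 → FreeGroup.lift (σ.s ∘ x) a = 1 →
      (FreeGroup.lift (aff σ ∘ mk σ x w) a).v = 0) → ∃ t ∈ Sec σ, t ∘ x = w

-- deps: FUN SEC
def S_FUL : Prop :=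
  ∀ (Z F V : Type) [Quandle Z] [Field F] [AddCommGroup V] [Module F V] (σ : Ac Z F V), Irr σ →
    ∀ (n j : ℕ) (x : Fin (n + 1) → Z) (w : Wx (σ.pi (Fin j)) x), TFull x →
      (∀ c : Fin j → F, (∃ t ∈ Sec σ, ∀ m, t (x m) = ∑ i, c i • w.1 m i) → c = 0) →
      TFull (mkL (σ.pi (Fin j)) x w)

-- deps: FUL
def S_CNT : Prop :=
  ∀ (Z F V : Type) [Quandle Z] [Finite Z] [Field F] [Finite F] [AddCommGroup V] [Finite V]
    [Module F V] (σ : Ac Z F V), Irr σ → ∀ n b x, rho Z n b x = x → TFull x →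
    ∃ k, Module.finrank F (Fx σ b x) = Module.finrank F (Sec σ) + k ∧ ∀ j,
      (Nat.card (Sec σ) : ℝ) ^ j * AA (Nat.card F) j (Nat.card F ^ k) ≤
        nf (lp (σ.pi (Fin j))) n b x

-- deps:
def S_HS : Prop :=
  ∀ (Z F V : Type) [Quandle Z] [Field F] [AddCommGroup V] [Module F V] (σ : Ac Z F V),
    (⨆ z, rg σ z) = ⊤ → ∃ (h : Hs σ (EnvelGroup (LQ σ))) (f : EnvelGroup (LQ σ) →* EnvelGroup Z),
      h.e = S.gen ∧ h.R = f.ker ∧ (∀ a, f (S.gen a) = S.gen (lp σ a)) ∧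
      (∀ r ∈ h.R, h.π r = 0 → ∀ g, Commute r g) ∧
      ∀ M : Subgroup (EnvelGroup (LQ σ)), M ≤ h.R →
        (∀ r ∈ h.R, ∀ m ∈ M, r * m * r⁻¹ ∈ M) →
        (∀ z, ∀ m ∈ M, S.gen (zs σ z) * m * (S.gen (zs σ z))⁻¹ ∈ M ∧
          (S.gen (zs σ z))⁻¹ * m * S.gen (zs σ z) ∈ M) →
        (∀ z, ∀ r ∈ h.R, r * S.gen (zs σ z) * r⁻¹ * (S.gen (zs σ z))⁻¹ ∈ M) → M = h.R

-- deps:
def S_HF : Prop :=
  ∀ (Z F V G : Type) [Quandle Z] [Field F] [AddCommGroup V] [Finite V] [Module F V] [Group G]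
    (σ : Ac Z F V) (h : Hs σ G), Finite h.R → (∀ r ∈ h.R, h.π r = 0 → ∀ g, Commute r g) →
    Nat.card (⁅h.R, h.R⁆ : Subgroup G) ≤ Nat.card {ω // Rl σ ω}

-- deps:
def S_HD : Prop :=
  ∀ (Z F V G : Type) [Quandle Z] [Finite Z] [Field F] [AddCommGroup V] [Finite V] [Module F V]
    [Group G] (σ : Ac Z F V) (h : Hs σ G), Finite h.R → h.R.Normal →
    (∀ r ∈ h.R, h.π r = 0 → ∀ g, Commute r g) →
    (∀ M : Subgroup G, M ≤ h.R → (∀ r ∈ h.R, ∀ m ∈ M, r * m * r⁻¹ ∈ M) →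
      (∀ z, ∀ m ∈ M, h.e (zs σ z) * m * (h.e (zs σ z))⁻¹ ∈ M ∧
        (h.e (zs σ z))⁻¹ * m * h.e (zs σ z) ∈ M) →
      (∀ z, ∀ r ∈ h.R, r * h.e (zs σ z) * r⁻¹ * (h.e (zs σ z))⁻¹ ∈ M) → M = h.R) →
    Nat.card (h.R →* ℂˣ) ≤ Nat.card (DS σ)

-- deps: FIN HS HF HD
def S_ENV : Prop :=
  ∀ (Z F V : Type) [Quandle Z] [Finite Z] [Field F] [AddCommGroup V] [Finite V] [Module F V]
    (σ : Ac Z F V), (⨆ z, rg σ z) = ⊤ → Cn (LQ σ) → Nonempty Z →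
    cA (LQ σ) ≤ cA Z * Nat.card {ω // Rl σ ω} * Nat.card (DS σ)

-- deps:
def S_RL : Prop :=
  ∀ (Z F V : Type) [Quandle Z] [Field F] [AddCommGroup V] [Module F V] (σ : Ac Z F V),
    (∀ ω, Rl σ ω → Inv σ ω ∧ ∀ v, ω v v = 0) ∧ ∀ (j : ℕ) (ω : (Fin j → V) →+ (Fin j → V) →+ U)
      (i : Fin j) (β : V →+ V →+ U), Rl (σ.pi (Fin j)) ω →
      (∀ v w, β v w = ω (Pi.single i v) (Pi.single i w)) → Rl σ β

-- deps:
def S_INV : Prop :=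
  ∀ (Z F V : Type) [Quandle Z] [Field F] [AddCommGroup V] [Finite V] [Module F V] (σ : Ac Z F V),
    Irr σ → ∀ β, Inv σ β → β ≠ 0 → Function.Bijective β ∧ Function.Bijective β.flip ∧
      ∀ γ, Inv σ γ ↔ ∃ c : F, ∀ v w, γ v w = β (c • v) w

-- deps: INV
def S_DSS : Prop :=
  ∀ (Z F V : Type) [Quandle Z] [Finite Z] [Field F] [AddCommGroup V] [Finite V] [Module F V]
    (σ : Ac Z F V), (∀ j, Nat.card (DS (σ.pi (Fin j))) ≤ Nat.card (DS σ) ^ j) ∧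
      (Irr σ → ∀ β, Inv σ β → β ≠ 0 → Nat.card (DS σ) ≤ Nat.card (Sec σ))

-- deps: RL
def S_RJ : Prop :=
  ∀ (Z F V : Type) [Quandle Z] [Field F] [AddCommGroup V] [Finite V] [Module F V] (σ : Ac Z F V)
    (j : ℕ), Nat.card {ω // Rl (σ.pi (Fin j)) ω} ≤
      Nat.card {β // Inv σ β} ^ j.choose 2 * Nat.card {ω // Rl σ ω} ^ j

-- deps: ENV RL INV DSS RJ
def S_MOM : Prop :=
  ∀ (Z F V : Type) [Quandle Z] [Finite Z] [Field F] [Finite F] [AddCommGroup V] [Finite V]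
    [Module F V] (σ : Ac Z F V), Irr σ → ∃ (A s : ℕ), s ≤ Nat.card F ∧
      (s = Nat.card F → ∃ ω, ω ≠ 0 ∧ Rl σ ω ∧ ∀ (c : F) v w, ω (c • v) w = ω v (c • w)) ∧
      ∀ j, Cn (LQ (σ.pi (Fin j))) → cA (LQ (σ.pi (Fin j))) ≤
        A * Nat.card (Sec σ) ^ j * (Nat.card F ^ j.choose 2 * s ^ j)

-- deps:
def S_QAP : Prop :=
  ∀ (q s k e : ℕ) (A ε : ℝ), 2 ≤ q → (e = 1 ∧ s < q ∨ e = 2 ∧ s = q) → 0 ≤ A → 0 < ε →
    ∃ (P : Polynomial ℝ) (j : ℕ) (c : ℝ), 0 ≤ c ∧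
      c * (A * (q ^ j.choose 2 * s ^ j) + 1) ≤ ε ∧ ∀ m : ℕ, m ≡ k [MOD e] →
        |(if m = k then 1 else 0) - P.eval ((q : ℝ) ^ m)| ≤ c * AA q j (q ^ m)

-- deps:
def S_EVEN : Prop :=
  ∀ (F W : Type) [Field F] [AddCommGroup W] [Module F W] [FiniteDimensional F W]
    (B : W →ₗ[F] W →ₗ[F] F), (∀ w, B w w = 0) →
    Even (Module.finrank F W + Module.finrank F (LinearMap.ker B))

-- deps: EVEN
def S_PAR : Prop :=
  ∀ (F W : Type) [Field F] [AddCommGroup W] [Module F W] [FiniteDimensional F W]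
    (B : W →ₗ[F] W →ₗ[F] F) (g h : W ≃ₗ[F] W), (∀ u, B u = 0 → u = 0) →
    (∀ u w, B (g u) (g w) = B u w) → (∀ u w, B (h u) (h w) = B u w) →
    (∀ u w, h u - u = g.symm w - w → B (u - w) (h u - u) = 0) →
    Even (Module.finrank F W + Module.finrank F (LinearMap.eqLocus g.toLinearMap LinearMap.id) +
      Module.finrank F (LinearMap.eqLocus h.toLinearMap LinearMap.id) +
      Module.finrank F (LinearMap.eqLocus (g * h).toLinearMap LinearMap.id))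

-- deps:
def S_BIL : Prop :=
  ∀ (F : Type) [Field F] [Finite F], ∃ ψ : F →+ U, (∀ t, (∀ c, ψ (c ^ 2 * t) = 0) → t = 0) ∧
    ∀ (V : Type) [AddCommGroup V] [Module F V] (ω : V →+ V →+ U),
      (∀ (c : F) v w, ω (c • v) w = ω v (c • w)) →
      ∃ β : V →ₗ[F] V →ₗ[F] F, ∀ v w, ω v w = ψ (β v w)

-- deps:
def S_KAP : Prop :=
  ∀ (Z F V G : Type) [Quandle Z] [Field F] [AddCommGroup V] [Module F V] [Group G]
    (σ : Ac Z F V) (h : Hs σ G) (ψ : G → U) (ψ0 : F →+ U) (β : V →ₗ[F] V →ₗ[F] F),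
    (∀ c ∈ ⁅h.R, h.R⁆, ∀ c' ∈ ⁅h.R, h.R⁆, ψ (c * c') = ψ c + ψ c') →
    (∀ r ∈ h.R, ∀ r' ∈ h.R, ψ ⁅r, r'⁆ = ψ0 (β (h.π r) (h.π r'))) →
    (∀ z v w, β (σ.s z v) (σ.s z w) = β v w) → (∀ v, β v = 0 → v = 0) →
    ∀ (m : ℕ) (x : Fin m → Z), ∃ (B : Wx σ x →ₗ[F] Wx σ x →ₗ[F] F) (κ : Wx σ x → G),
      (∀ u, B u = 0 → u = 0) ∧
      (∀ u, κ u = pr h.e (List.ofFn (mkL σ x u)) * (pr h.e (List.ofFn (mkL σ x 0)))⁻¹) ∧
      ∀ u w, ψ (κ (u + w) * (κ u)⁻¹ * (κ w)⁻¹) = ψ0 (B u w)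

-- deps: RL INV BIL KAP PAR
def S_ADD : Prop :=
  ∀ (Z F V : Type) [Quandle Z] [Field F] [Finite F] [AddCommGroup V] [Finite V] [Module F V]
    (σ : Ac Z F V), Irr σ → ∀ ω, ω ≠ 0 → Rl σ ω → (∀ (c : F) v w, ω (c • v) w = ω v (c • w)) →
    ∀ (n : ℕ) (g h : Br n) (x : Fin (n + 1) → Z), rho Z n g x = x → rho Z n h x = x →
      Even (Module.finrank F (Wx σ x) + Module.finrank F (Fx σ g x) + Module.finrank F (Fx σ h x) +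
        Module.finrank F (Fx σ (g * h) x))

-- deps:
def S_DIM : Prop :=
  ∀ (Z F V : Type) [Quandle Z] [Field F] [AddCommGroup V] [Finite V] [Module F V]
    (σ : Ac Z F V), Cn Z → ∃ d : ℕ, (∀ (m : ℕ) (x : Fin m → Z), Module.finrank F (Wx σ x) = m * d) ∧
      (∀ (n : ℕ) (i : Fin n) (x : Fin (n + 1) → Z), x i.castSucc = x i.succ →
        Module.finrank F (Fx σ (sg i) x) = n * d) ∧
      (∀ (n : ℕ) (g : Br n) (x : Fin (n + 1) → Z) (z : Z), rho Z n g x = x →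
        Module.finrank F (Fx σ (up n g) (Fin.snoc x z)) = Module.finrank F (Fx σ g x) + d) ∧
      ∀ (n : ℕ) (g h : Br n) (x : Fin (n + 1) → Z),
        Module.finrank F (Fx σ (h * g * h⁻¹) (rho Z n h x)) = Module.finrank F (Fx σ g x) ∨
          rho Z n g x ≠ x

-- deps: ADD DIM
def S_SG : Prop :=
  ∀ (Z F V : Type) [Quandle Z] [Finite Z] [Field F] [Finite F] [AddCommGroup V] [Finite V]
    [Module F V] (σ : Ac Z F V), Cn Z → Irr σ → ∀ ω, ω ≠ 0 → Rl σ ω →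
    (∀ (c : F) v w, ω (c • v) w = ω v (c • w)) → ∃ (s : Sgn Z) (d : ℕ),
      ∀ n b x, Kn b → s.w n b x = (-1) ^ (Module.finrank F (Fx σ b x) + d)

-- deps: AP POW MB CNT MOM QAP SG
def S_LADM : Prop :=
  ∀ (Y F V : Type) [Quandle Y] [Field F] [Finite F] [AddCommGroup V] [Finite V] [Module F V]
    (σ : Ac Y F V), Irr σ → ∀ m, full Y * eqw (na (lp σ)) m ∈ Adm Y

-- deps: POW CST TR ABL LADM
def S_AB : Prop :=
  ∀ (Y Y0 H : Type) [Quandle Y] [Finite Y] [Quandle Y0] [Finite Y0] [Group H] [Finite H]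
    (e : Y → H) (ρ : H →* Equiv.Perm Y) (N : Subgroup H) (p : Y → Y0),
    MinQ e ρ N p → ⁅N, N⁆ = ⊥ → IA p

/-! ### Assembly -/

-- deps: CST COV DEC CASE NA AB
def S_IND : Prop :=
  ∀ (Y Y0 : Type) [Quandle Y] [Finite Y] [Quandle Y0] [Finite Y0] (p : Y → Y0), IsHom p →
    Function.Surjective p → IA p

-- deps: BASE RG ALL POW CST TR IND
def S_CONV : Prop :=
  ∀ (X : Type) [Quandle X] [Finite X],
    (∀ k : ℕ, (fun n b => if Nat.card {x // rho X n b x = x} = k then 1 else 0) ∈ Good) ∧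
      (fun n b => (Nat.card {x // rho X n b x = x} : ℝ) ^ 2) ∈ Good

-- deps:
def S_LAW : Prop :=
  ∀ (a : ∀ n, Br n → ℕ) (M : ℝ), (∀ k : ℕ, (fun n b => if a n b = k then 1 else 0) ∈ Good) →
    (fun n b => (a n b : ℝ) ^ 2) ∈ Good → Tendsto (em fun n b => a n b) FF (𝓝 M) →
    ∃ μ : ℕ → ℝ, (∀ k, 0 ≤ μ k) ∧ HasSum μ 1 ∧ HasSum (fun k : ℕ => k * μ k) M ∧
      ∀ k, Tendsto (em fun n b => if a n b = k then 1 else 0) FF (𝓝 (μ k))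

end Pool.Agent.P.MP_cc10d1_gt.UL
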