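import Pool.Agent.P.MP_cc10d1_gt.UL.Iface

/-! Step BIL. -/

set_option autoImplicit false
set_option linter.unusedSectionVars false

namespace Pool.Agent.P.MP_cc10d1_gt.UL

open Finset Filter Topology T R Quandles Rack
open scoped commutatorElement

theorem p_BIL :
    S_BIL := by
  intro F _ _
  have hF : Finite (F →+ U) := Nat.finite_of_card_ne_zero (by rw [card_hom]; exact Nat.card_pos.ne')
  have : Nontrivial (F →+ U) := Finite.one_lt_card_iff_nontrivial.1 (by
    rw [card_hom]; exact Finite.one_lt_card)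
  obtain ⟨ψ, hψ⟩ := exists_ne (0 : F →+ U)
  have h0 : ∀ t, (∀ c, ψ (c * t) = 0) → t = 0 := fun t h => by_contra fun e =>
    hψ (AddMonoidHom.ext fun c => by simpa [e] using h (c * t⁻¹))
  let T : F →+ F →+ U := AddMonoidHom.mk' (fun t => ψ.comp (AddMonoidHom.mulRight t))
    fun a b => AddMonoidHom.ext fun c => by simp [mul_add]
  have i : Function.Injective T := (injective_iff_map_eq_zero T).2 fun t h =>
    h0 t fun c => DFunLike.congr_fun h c
  have b := ((Nat.bijective_iff_injective_and_card T).2 ⟨i, (card_hom F).symm⟩).2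
  refine ⟨ψ, fun t h => h0 t fun c => ?_, fun V _ _ ω hω => ?_⟩
  · by_cases e : ringChar F = 2
    · obtain ⟨r, rfl⟩ := FiniteField.isSquare_of_char_two e c
      rw [← sq, h]
    · have e1 : c = ((c + 1) / 2) ^ 2 - ((c - 1) / 2) ^ 2 := by
        have := Ring.two_ne_zero e
        field_simp
        ring
      rw [e1, sub_mul, map_sub, h, h, sub_zero]
  choose β hβ using fun v w =>
    b ((ω.flip w).comp (LinearMap.toSpanSingleton F V v).toAddMonoidHom)
  have k : ∀ v w c, ψ (c * β v w) = ω (c • v) w := fun v w c => DFunLike.congr_fun (hβ v w) c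
  have u : ∀ s t, (∀ c, ψ (c * s) = ψ (c * t)) → s = t := fun s t h => i (AddMonoidHom.ext h)
  refine ⟨LinearMap.mk₂ F β (fun _ _ _ => u _ _ fun c => ?_) (fun _ _ _ => u _ _ fun c => ?_)
    (fun _ _ _ => u _ _ fun c => ?_) fun _ _ _ => u _ _ fun c => ?_, fun v w => ?_⟩
  · simp [mul_add, k]
  · rw [smul_eq_mul, ← mul_assoc, k, k, mul_smul]
  · simp [mul_add, k]
  · rw [smul_eq_mul, ← mul_assoc, k, k, ← hω, mul_comm, mul_smul]
  · simpa using (k v w 1).symm

end Pool.Agent.P.MP_cc10d1_gt.UL
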