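import Pool.Agent.P.MP_cc10d1_gt.UL.Iface

/-! Step HF. -/

set_option autoImplicit false
set_option linter.unusedSectionVars false

namespace Pool.Agent.P.MP_cc10d1_gt.UL

open Finset Filter Topology T R Quandles Rack
open scoped commutatorElement

namespace HFaux

variable {G : Type} [Group G]

theorem left {r r' s : G} (h : ∀ g, Commute ⁅r', s⁆ g) : ⁅r * r', s⁆ = ⁅r, s⁆ * ⁅r', s⁆ := by
  have e : ⁅r * r', s⁆ = r * ⁅r', s⁆ * r⁻¹ * ⁅r, s⁆ := by
    simp only [commutatorElement_def]; group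
  rw [e, ← (h r).eq, mul_inv_cancel_right, (h _).eq]

theorem right {r s s' : G} (h : ∀ g, Commute ⁅r, s'⁆ g) : ⁅r, s * s'⁆ = ⁅r, s⁆ * ⁅r, s'⁆ := by
  have e : ⁅r, s * s'⁆ = ⁅r, s⁆ * (s * ⁅r, s'⁆ * s⁻¹) := by
    simp only [commutatorElement_def]; group
  rw [e, ← (h s).eq, mul_inv_cancel_right]

end HFaux

theorem p_HF :
    S_HF := by
  classical
  intro Z F V G _ _ _ _ _ _ σ h hf hc
  have hle : ⁅h.R, h.R⁆ ≤ h.R := Subgroup.commutator_le.2 fun a ha b hb =>
    mul_mem (mul_mem (mul_mem ha hb) (inv_mem ha)) (inv_mem hb)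
  have : Finite (⁅h.R, h.R⁆ : Subgroup G) :=
    Finite.of_injective _ (Subgroup.inclusion_injective hle)
  let _ : CommGroup (⁅h.R, h.R⁆ : Subgroup G) :=
    { (inferInstance : Group (⁅h.R, h.R⁆ : Subgroup G)) with
      mul_comm := fun a b => Subtype.ext (h.cen a a.2 b).eq }
  rw [← CommGroup.card_monoidHom_of_hasEnoughRootsOfUnity (⁅h.R, h.R⁆ : Subgroup G) ℂ]
  have : Finite (V →+ U) := Nat.finite_of_card_ne_zero (by rw [card_hom]; exact Nat.card_pos.ne')
  have : Finite (V →+ V →+ U) := Finite.of_injective _ DFunLike.coe_injective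
  choose l hl hl' using h.sur
  have cm := fun {a b : G} (ha : a ∈ h.R) (hb : b ∈ h.R) => Subgroup.commutator_mem_commutator ha hb
  have h0 : ∀ r ∈ h.R, ∃ c, (∀ g, Commute c g) ∧ r = l (h.π r) * c := fun r hr => by
    have h1 := mul_mem (inv_mem (hl (h.π r))) hr
    have h2 := h.add _ (hl (h.π r)) _ h1
    rw [mul_inv_cancel_left, hl', left_eq_add] at h2
    exact ⟨_, hc _ h1 h2, (mul_inv_cancel_left _ _).symm⟩
  have h1 : ∀ r ∈ h.R, ∀ s ∈ h.R, ⁅l (h.π r), l (h.π s)⁆ = ⁅r, s⁆ := fun r hr s hs => by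
    obtain ⟨c, a1, a2⟩ := h0 r hr
    obtain ⟨d, b1, b2⟩ := h0 s hs
    have e1 : ∀ g : G, ⁅c, g⁆ = 1 := fun g => commutatorElement_eq_one_iff_commute.2 (a1 g)
    have e2 : ∀ g : G, ⁅g, d⁆ = 1 := fun g => commutatorElement_eq_one_iff_commute.2 (b1 g).symm
    conv_rhs => rw [a2, HFaux.left (by rw [e1]; exact Commute.one_left), e1, mul_one, b2,
      HFaux.right (by rw [e2]; exact Commute.one_left), e2, mul_one]
  let k : V → V → (⁅h.R, h.R⁆ : Subgroup G) := fun v w => ⟨⁅l v, l w⁆, cm (hl v) (hl w)⟩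
  have k1 : ∀ v w w', k v (w + w') = k v w * k v w' := fun v w w' => Subtype.ext (by
    have := h1 _ (hl v) _ (mul_mem (hl w) (hl w'))
    rw [h.add _ (hl w) _ (hl w'), hl', hl', hl'] at this
    exact this.trans (HFaux.right (h.cen _ (cm (hl v) (hl w')))))
  have k2 : ∀ v v' w, k (v + v') w = k v w * k v' w := fun v v' w => Subtype.ext (by
    have := h1 _ (mul_mem (hl v) (hl v')) _ (hl w)
    rw [h.add _ (hl v) _ (hl v'), hl', hl', hl'] at this
    exact this.trans (HFaux.left (h.cen _ (cm (hl v') (hl w)))))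
  refine Nat.card_le_card_of_injective (fun χ => ⟨AddMonoidHom.mk'
    (fun x => AddMonoidHom.mk' (fun y => Additive.ofMul (χ (k x y))) fun y y' => by
      rw [k1, map_mul, ofMul_mul]) fun x x' => AddMonoidHom.ext fun y => by
      change Additive.ofMul (χ (k (x + x') y)) = _
      rw [k2, map_mul, ofMul_mul]; rfl, G, _, h,
      fun g => if hg : g ∈ ⁅h.R, h.R⁆ then Additive.ofMul (χ ⟨g, hg⟩) else 0,
      fun c a c' a' => ?_, fun r a r' a' => ?_⟩) fun χ χ' e => ?_
  · beta_reduce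
    rw [dif_pos (mul_mem a a'), dif_pos a, dif_pos a', ← ofMul_mul, ← map_mul]
    rfl
  · exact (dif_pos (cm a a')).trans
      (congrArg (fun u => Additive.ofMul (χ u)) (Subtype.ext (h1 r a r' a').symm))
  · refine MonoidHom.ext fun ⟨z, hz⟩ => ?_
    induction hz using Subgroup.closure_induction with
    | mem g hg =>
      obtain ⟨r, a, s, b, rfl⟩ := hg
      have e1 := congrArg (fun B : {ω // Rl σ ω} => Additive.toMul (B.1 (h.π r) (h.π s))) e
      have e2 : k (h.π r) (h.π s) = ⟨⁅r, s⁆, cm a b⟩ := Subtype.ext (h1 r a s b)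
      change χ (k _ _) = χ' (k _ _) at e1
      rw [e2] at e1
      exact e1
    | one => exact (map_one χ).trans (map_one χ').symm
    | mul g g' hg hg' h h' =>
      exact (map_mul χ ⟨g, hg⟩ ⟨g', hg'⟩).trans ((congrArg₂ _ h h').trans
        (map_mul χ' ⟨g, hg⟩ ⟨g', hg'⟩).symm)
    | inv g hg h =>
      exact (map_inv χ ⟨g, hg⟩).trans ((congrArg _ h).trans (map_inv χ' ⟨g, hg⟩).symm)

end Pool.Agent.P.MP_cc10d1_gt.UL
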