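import Pool.Agent.P.MP_cc10d1_gt.UL.Iface

/-! Step NFU. -/

set_option autoImplicit false
set_option linter.unusedSectionVars false

namespace Pool.Agent.P.MP_cc10d1_gt.UL

open Finset Filter Topology T R Quandles Rack
open scoped commutatorElement

namespace NFUaux

theorem surj {Y H ι : Type} [Quandle Y] [Group H] {e : Y → H} {ρ : H →* Equiv.Perm Y}
    (d : InnD e ρ) (y : ι → Y) (i : ι) (hy : TFull y) :
    Function.Surjective (FreeGroup.lift (e ∘ y)) := by
  rw [← MonoidHom.range_eq_top, eq_top_iff, ← d.gen, Subgroup.closure_le]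
  rintro _ ⟨z, rfl⟩
  obtain ⟨φ, rfl⟩ := hy (y i) z
  refine ⟨φ * FreeGroup.of i * φ⁻¹, ?_⟩
  rw [map_mul, map_mul, map_inv, FreeGroup.lift_apply_of]
  exact d.he.lift y φ (y i)

theorem ker_eq {Y H ι : Type} [Quandle Y] [Group H] {e : Y → H} {ρ : H →* Equiv.Perm Y}
    (d : InnD e ρ) (y : ι → Y) : (FreeGroup.lift (e ∘ y)).ker = (hol y).ker := by
  ext a
  rw [MonoidHom.mem_ker, MonoidHom.mem_ker, ← d.hol y a, map_eq_one_iff ρ d.inj]

theorem ker_le {Φ H : Type} [Group Φ] [Group H] [Finite H] {s t : Φ →* H}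
    (hs : Function.Surjective s) (ht : Function.Surjective t) (h : s.ker ≤ t.ker) :
    s.ker = t.ker := by
  have h1 := Subgroup.relIndex_mul_index h
  rw [Subgroup.index_ker, Subgroup.index_ker, MonoidHom.range_eq_top.2 hs,
    MonoidHom.range_eq_top.2 ht] at h1
  exact le_antisymm h (Subgroup.relIndex_eq_one.1
    (Nat.eq_of_mul_eq_mul_right Nat.card_pos (h1.trans (one_mul _).symm)))

theorem modN {Y Y0 H ι : Type} [Quandle Y] [Quandle Y0] [Group H] {e : Y → H}
    {ρ : H →* Equiv.Perm Y} {N : Subgroup H} {p : Y → Y0} (d : MinQ e ρ N p) {y y' : ι → Y}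
    (h : ∀ m, p (y m) = p (y' m)) (a : FreeGroup ι) (ha : FreeGroup.lift (e ∘ y) a ∈ N) :
    FreeGroup.lift (e ∘ y') a ∈ N := by
  have := d.nor
  have key : (QuotientGroup.mk' N).comp (FreeGroup.lift (e ∘ y')) =
      (QuotientGroup.mk' N).comp (FreeGroup.lift (e ∘ y)) := FreeGroup.ext_hom _ _ fun m => by
    obtain ⟨g, hg, eg⟩ := (d.fib _ _).1 (h m)
    have h1 : QuotientGroup.mk' N g = 1 := (QuotientGroup.eq_one_iff g).2 hg
    rw [MonoidHom.comp_apply, MonoidHom.comp_apply, FreeGroup.lift_apply_of,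
      FreeGroup.lift_apply_of, Function.comp_apply, Function.comp_apply, ← eg, d.inn.conj,
      map_mul, map_mul, map_inv, h1, one_mul, inv_one, mul_one]
  exact (QuotientGroup.eq_one_iff _).1
    ((DFunLike.congr_fun key a).trans ((QuotientGroup.eq_one_iff _).2 ha))

theorem glue {Φ H J : Type} [Group Φ] [Group H] [Fintype J] (t : J → Φ →* H) (K : Subgroup Φ)
    (g : J → H) (h : ∀ k, ∃ a ∈ K, t k a = g k ∧ ∀ l, l ≠ k → t l a = 1) :
    ∃ a ∈ K, ∀ k, t k a = g k := by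
  classical
  have key : ∀ s : Finset J, ∃ a ∈ K, (∀ k ∈ s, t k a = g k) ∧ ∀ k ∉ s, t k a = 1 := by
    intro s
    induction s using Finset.induction_on with
    | empty => exact ⟨1, one_mem _, fun _ hk => absurd hk (notMem_empty _), fun _ _ => map_one _⟩
    | insert k s hk ih =>
      obtain ⟨a, ha, h1, h2⟩ := ih
      obtain ⟨c, hc, h3, h4⟩ := h k
      refine ⟨c * a, mul_mem hc ha, fun l hl => ?_, fun l hl => ?_⟩
      · rcases mem_insert.1 hl with rfl | hl
        · rw [map_mul, h3, h2 _ hk, mul_one]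
        · rw [map_mul, h4 l fun e => hk (e ▸ hl), h1 l hl, one_mul]
      · rw [mem_insert, not_or] at hl
        rw [map_mul, h4 l hl.1, h2 l hl.2, one_mul]
  obtain ⟨a, ha, h1, -⟩ := key univ
  exact ⟨a, ha, fun k => h1 k (mem_univ k)⟩

end NFUaux

theorem p_NFU (hGOU : S_GOU) :
    S_NFU := by
  intro Y Y0 Z H _ _ _ _ _ e ρ N p φ d hφ hN n i u hx hy h3 h4 a b
  have := d.nor
  let y : Fin i → Fin (n + 1) → Y := fun k m => (u m).1.2 k
  let t : Fin i → FreeGroup (Fin (n + 1)) →* H := fun k => FreeGroup.lift (e ∘ y k)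
  have hs : ∀ k, Function.Surjective (t k) := fun k => NFUaux.surj d.inn (y k) 0 (hy k)
  have hm : ∀ k l c, t k c ∈ N → t l c ∈ N := fun k l c =>
    NFUaux.modN d (fun m => ((u m).2 k).trans ((u m).2 l).symm) c
  have hk : ∀ k, (t k).ker = (hol (y k)).ker := fun k => NFUaux.ker_eq d.inn (y k)
  have G := hGOU _ H N hN d.min i t
    ((hol (ub d.hom hφ i ∘ u)).ker ⊓ ⨅ k, N.comap (t k))
    (Subgroup.normal_inf_normal _ _ (hH := inferInstance)
      (hK := Subgroup.normal_iInf_normal fun _ => inferInstance)) hs hm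
    (fun k c hc => Subgroup.mem_iInf.1 hc.2 k)
    (fun k hle => by
      obtain ⟨c, h1, h2, h5⟩ := h3 k
      exact h5 ((hk k).le (hle ⟨h1, Subgroup.mem_iInf.2 fun l => hm k l c h2⟩)))
    (fun k l hkl hle => h4 k l hkl
      ((hk k).symm.trans ((NFUaux.ker_le (hs k) (hs l) hle).trans (hk l))))
  obtain ⟨φ0, e0⟩ := hx (ub d.hom hφ i a) (ub d.hom hφ i b)
  rw [hol_map (isHom_ub d.hom hφ i)] at e0
  have hf : ∀ k, ∃ g ∈ N, ρ g ((hol u φ0 a).1.2 k) = b.1.2 k := fun k =>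
    (d.fib _ _).1 (((hol u φ0 a).2 k).trans ((congrArg φ e0).trans (b.2 k).symm))
  choose g hg eg using hf
  obtain ⟨ψ, hψ, eψ⟩ := NFUaux.glue t _ g fun k => G k (g k) (hg k)
  refine ⟨ψ * φ0, ?_⟩
  rw [map_mul, Equiv.Perm.mul_apply]
  refine Subtype.ext (Prod.ext ?_ (funext fun k => ?_))
  · refine (hol_map (isHom_ub d.hom hφ i) u ψ _).symm.trans ?_
    rw [MonoidHom.mem_ker.1 hψ.1]
    exact e0
  · refine (hol_map (f := fun c : UQ d.hom hφ i => c.1.2 k) (fun _ _ => rfl) u ψ _).symm.trans ?_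
    refine Eq.trans ?_ (eg k)
    rw [← eψ k]
    exact (DFunLike.congr_fun (d.inn.hol (y k) ψ) _).symm

end Pool.Agent.P.MP_cc10d1_gt.UL
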