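import Pool.Agent.P.MP_cc10d1_gt.UL.Iface

/-! Step ORB. -/

set_option autoImplicit false
set_option linter.unusedSectionVars false

namespace Pool.Agent.P.MP_cc10d1_gt.UL

open Finset Filter Topology T R Quandles Rack
open scoped commutatorElement

namespace ORBaux

variable {Q : Type} [Quandle Q] (s : Sgn Q) {n : ℕ}

theorem chi_one (x : Fin (n + 1) → Q) : s.χ n 1 x = 1 := by
  have := s.mul n 1 1 x (rho_one x) (rho_one x)
  rw [mul_one] at this
  exact mul_eq_left.1 this.symm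

theorem fix_inv {b : Br n} {x : Fin (n + 1) → Q} (h : rho Q n b x = x) : rho Q n b⁻¹ x = x := by
  conv_lhs => rw [← h]
  exact rho_inv_rho b x

theorem fix_mul {a b : Br n} {x : Fin (n + 1) → Q} (h : rho Q n a x = x) (h' : rho Q n b x = x) :
    rho Q n (a * b) x = x := by rw [rho_mul, h', h]

/-- The kernel of the character in the stabiliser. -/
def S0 (x : Fin (n + 1) → Q) : Subgroup (Br n) where
  carrier := {b | rho Q n b x = x ∧ s.χ n b x = 1}
  one_mem' := ⟨rho_one x, chi_one s x⟩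
  mul_mem' := fun ha hb => ⟨fix_mul ha.1 hb.1, by rw [s.mul n _ _ x ha.1 hb.1, ha.2, hb.2, mul_one]⟩
  inv_mem' := fun {a} ha => ⟨fix_inv ha.1, by
    have := s.mul n _ _ x (fix_inv ha.1) ha.1
    rw [inv_mul_cancel, chi_one, ha.2, mul_one] at this
    exact this.symm⟩

theorem key {x : Fin (n + 1) → Q} (D : Subgroup (Br n)) [hD : D.Normal]
    (h1 : ∀ L : Subgroup (Br n), (∀ b, rho Q n b x = x → b ∈ L) → L ⊔ D = ⊤)
    (h2 : ∀ i : Fin n, ∃ b, rho Q n b x i.castSucc = rho Q n b x i.succ)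
    {g : Br n} (hg : rho Q n g x = x) (hχ : s.χ n g x ≠ 1) :
    ∃ δ ∈ D, rho Q n δ x = x ∧ s.χ n δ x = -1 := by
  by_contra hc
  have h0 : ∀ δ ∈ D, rho Q n δ x = x → s.χ n δ x = 1 := fun δ hδ e =>
    (Int.units_eq_one_or _).resolve_right fun e' => hc ⟨δ, hδ, e, e'⟩
  have hn : ∀ b h, h ∈ S0 s x ⊔ D → b * h * b⁻¹ ∈ S0 s x ⊔ D := by
    intro b h hh
    have hb : b ∈ (MulAction.stabilizer (Equiv.Perm (Fin (n + 1) → Q)) x).comap (rho Q n) ⊔ D := by
      rw [h1 _ fun _ hb => hb]; trivial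
    obtain ⟨a, ha, c, hc, rfl⟩ := Subgroup.mem_sup_of_normal_right.1 hb
    have ha' : rho Q n a x = x := ha
    have h3 : c * h * c⁻¹ ∈ S0 s x ⊔ D :=
      mul_mem (mul_mem (Subgroup.mem_sup_right hc) hh) (Subgroup.mem_sup_right (inv_mem hc))
    obtain ⟨u, hu, v, hv, e⟩ := Subgroup.mem_sup_of_normal_right.1 h3
    have e2 : a * c * h * (a * c)⁻¹ = a * u * a⁻¹ * (a * v * a⁻¹) := by
      rw [mul_inv_rev, show a * c * h * (c⁻¹ * a⁻¹) = a * (c * h * c⁻¹) * a⁻¹ by group, ← e]; group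
    rw [e2]
    refine mul_mem (Subgroup.mem_sup_left ⟨fix_mul (fix_mul ha' hu.1) (fix_inv ha'), ?_⟩)
      (Subgroup.mem_sup_right (hD.conj_mem _ hv a))
    have := s.conj n u a x hu.1
    rw [ha'] at this
    exact this.trans hu.2
  have ht : S0 s x ⊔ D = ⊤ := by
    rw [eq_top_iff, ← closure_sg, Subgroup.closure_le]
    rintro _ ⟨i, rfl⟩
    obtain ⟨b, hb⟩ := h2 i
    have h3 := s.conj n (sg i) b⁻¹ _ (rho_sg_fix hb)
    rw [rho_inv_rho, s.gen n i _ hb] at h3
    have h4 : rho Q n (b⁻¹ * sg i * b⁻¹⁻¹) x = x := by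
      rw [inv_inv, rho_mul, rho_mul, rho_sg_fix hb, rho_inv_rho]
    have := hn b _ (Subgroup.mem_sup_left (show _ ∈ S0 s x from ⟨h4, h3⟩))
    rwa [show b * (b⁻¹ * sg i * b⁻¹⁻¹) * b⁻¹ = sg i by group] at this
  obtain ⟨u, hu, v, hv, rfl⟩ := Subgroup.mem_sup_of_normal_right.1 (ht ▸ Subgroup.mem_top g)
  have h5 : rho Q n v x = x := by
    have := fix_mul (fix_inv hu.1) hg
    rwa [inv_mul_cancel_left] at this
  exact hχ (by rw [s.mul n u v x hu.1 h5, hu.2, h0 v hv h5, mul_one])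

open Classical in
/-- The term of one tuple. -/
noncomputable def tm (x : Fin (n + 1) → Q) (b : Br n) : ℝ :=
  if rho Q n b x = x then s.w n b x else 0

theorem tm_neg {x : Fin (n + 1) → Q} {δ : Br n} (h : rho Q n δ x = x) (h' : s.χ n δ x = -1)
    (b : Br n) : tm s x (b * δ) = -tm s x b := by
  unfold tm
  rw [rho_mul, h]
  split_ifs with hb
  · simp [Sgn.w, s.mul n b δ x hb h, h']
  · exact neg_zero.symm

end ORBaux

open ORBaux in
theorem p_ORB :
    S_ORB := by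
  intro Q _ _ s
  classical
  obtain ⟨n0, h0⟩ := all_LC Q
  obtain ⟨n1, h1⟩ := all_STAB Q
  refine ⟨n0 + n1 + 1, fun n hn E hE x0 hx ⟨g0, hg, hχ⟩ => ?_⟩
  obtain ⟨d, hd⟩ := hE.inv
  obtain ⟨N, _, _, hN⟩ := s.fin n
  let K := N ⊓ (rho Q n).ker
  have := Fintype.ofFinite (Fin (n + 1) → Q)
  have := Fintype.ofFinite ((CC n d).map (QuotientGroup.mk' K))
  have hK : ∀ x (b : Br n), tm s x (QuotientGroup.mk' K b).out = tm s x b := fun x b => by
    obtain ⟨c, e⟩ := QuotientGroup.mk_out_eq_mul K b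
    have e' : (QuotientGroup.mk' K b).out = b * c := e
    have h2 : rho Q n c x = x := by rw [c.2.2]; rfl
    rw [e']
    unfold tm
    rw [rho_mul, h2, Sgn.w, hN b c c.2.1]
    rfl
  refine (lim_of (by omega) hE.knot hd hE.ne (QuotientGroup.mk' K)
    (fun γ => ∑ x, ind (Orb x0) x * tm s x γ.out) 0 fun g _ => ?_).congr fun b _ => ?_
  · rw [mul_zero, sum_comm]
    refine sum_eq_zero fun x _ => ?_
    rw [← mul_sum]
    by_cases ho : Orb x0 x
    · obtain ⟨a, rfl⟩ := id ho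
      have hc := tConn_orb ho hx
      obtain ⟨δ, h2, h3, h4⟩ := key s (CC n d) (h0 n (by omega) _ hc d) (h1 n (by omega) _ hc).2
        (g := a * g0 * a⁻¹) (by rw [rho_mul, rho_mul, rho_inv_rho, hg])
        (by rwa [s.conj n g0 a x0 hg])
      have h5 := Equiv.sum_comp
        (Equiv.mulRight (⟨_, δ, h2, rfl⟩ : (CC n d).map (QuotientGroup.mk' K)))
        fun φ : (CC n d).map (QuotientGroup.mk' K) =>
          tm s (rho Q n a x0) (QuotientGroup.mk' K g * φ.1).out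
      have h6 : ∀ φ : (CC n d).map (QuotientGroup.mk' K), tm s (rho Q n a x0)
          (QuotientGroup.mk' K g * (φ.1 * QuotientGroup.mk' K δ)).out =
            -tm s (rho Q n a x0) (QuotientGroup.mk' K g * φ.1).out := by
        rintro ⟨_, c, -, rfl⟩
        rw [← map_mul, ← map_mul, ← map_mul, hK, hK, ← mul_assoc, tm_neg s h3 h4]
      have h7 := h5.symm.trans ((sum_congr rfl fun φ _ => h6 φ).trans (sum_neg_distrib _))
      rw [self_eq_neg.1 h7, mul_zero]
    · rw [ind_neg ho, zero_mul]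
  · simp only [hK]
    rw [← sum_subset (subset_univ (Fix Q b)) fun x _ hx => by
      rw [tm, if_neg (mem_Fix.not.1 hx), mul_zero]]
    exact sum_congr rfl fun x hx => by rw [tm, if_pos (mem_Fix.1 hx)]

end Pool.Agent.P.MP_cc10d1_gt.UL
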