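import Pool.Agent.P.MP_cc10d1_gt.UL.Iface

/-! Step TR. -/

set_option autoImplicit false
set_option linter.unusedSectionVars false

namespace Pool.Agent.P.MP_cc10d1_gt.UL

open Finset Filter Topology T R Quandles Rack
open scoped commutatorElement

namespace TRaux

theorem poly (B k : ℕ) : ∃ Q : Polynomial ℝ, ∀ j : ℕ, j ≤ B →
    Q.eval (j : ℝ) = if j = k then 1 else 0 :=
  ⟨Lagrange.interpolate (range (B + 1)) (fun j : ℕ => (j : ℝ)) fun j => if j = k then 1 else 0,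
    fun _ hj => Lagrange.eval_interpolate_at_node _ (Nat.cast_injective.injOn)
      (mem_range.2 (Nat.lt_succ_of_le hj))⟩

end TRaux

theorem p_TR (hBASE : S_BASE) (hAP : S_AP) :
    S_TR := by
  intro Y _ a ha η hη H k
  refine hAP Y _ fun Z _ _ _ _ φ hφ ε hε => ?_
  have h1 : (1 : Wt Z) ∈ HG Z := fun Z' _ _ π _ s => by
    rw [map_one, mul_one]; exact hBASE Z' s
  have h2 := hg_good (hg_mul h1 Bd.one (adm_pb hη hφ)) (Sgn.one Z)
  rw [Sgn.one_w, one_mul, one_mul] at h2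
  obtain ⟨C, hC⟩ := good_bdd h2
  obtain ⟨M, hM⟩ := exists_nat_gt (max (C / ε) 0)
  have hM0 : (0 : ℝ) < M := (le_max_right _ _).trans_lt hM
  have hM1 : C ≤ M * ε := (div_le_iff₀ hε).1 ((le_max_left _ _).trans hM.le)
  obtain ⟨P, B, hP, hB⟩ := H M
  obtain ⟨Q, hQ⟩ := TRaux.poly B k
  refine ⟨pb φ (iw P * pw Q (cw a)), adm_pb (adm_mul hP (bd_iw P) (adm_pw ha Q)) hφ,
    (M : ℝ)⁻¹ • pb φ η, fun n b x hb hx _ => ?_, hC.mono fun i hi => ?_⟩
  · obtain ⟨a1, a2, a3⟩ := hB n b _ hb (fix_map hφ hx)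
    change |eqw a k n b (φ ∘ x) - iw P n b (φ ∘ x) * Q.eval (a n b (φ ∘ x) : ℝ)| ≤
      (M : ℝ)⁻¹ * η n b (φ ∘ x)
    by_cases hp : P n b (φ ∘ x)
    · rw [iw_pos hp, one_mul, hQ _ (a1 hp), eqw_apply, sub_self, abs_zero]
      positivity
    · rw [iw_neg hp, zero_mul, sub_zero]
      refine (bd_iw _ _ _ _).trans ?_
      rw [← div_eq_inv_mul, le_div_iff₀ hM0, one_mul]
      exact a3 hp
  · rw [sf_smul, em_smul, ← div_eq_inv_mul, div_le_iff₀ hM0, mul_comm]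
    exact hi.trans hM1

end Pool.Agent.P.MP_cc10d1_gt.UL
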